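import Mathlib

/-!
Statements of the analytic ingredients of the shape lemma (helper423).
-/

set_option autoImplicit false

open Finset

namespace Pool.Agent.TH423.SH

/-- the primes `p ≤ R` that do not divide `W` -/
def PS (W R : ℕ) : Finset ℕ := (Icc 1 R).filter (fun p => p.Prime ∧ ¬ p ∣ W)

/-- (FLL) the fundamental lemma with residue classes; the level is linear in the dimension `κ` -/
def FLL : Prop := ∃ C : ℕ, 1 ≤ C ∧ ∀ (κ b J z0 : ℕ) (P : Finset ℕ) (g : ℕ → ℝ)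
  (Om : ℕ → Finset ℕ), C * (κ + 1) ≤ b → C * (κ + 1) ≤ z0 →
  (∀ p ∈ P, p.Prime ∧ z0 < p ∧ p ≤ 2 ^ 2 ^ J) →
  (∀ p ∈ P, (Om p).card ≤ κ) → (∀ p ∈ P, 0 ≤ g p ∧ g p ≤ 1 / ((p : ℝ) - 1)) →
  ∀ (S : Finset ℕ) (w : ℕ → ℝ) (A : ℝ) (err : ℕ → ℝ), (∀ n ∈ S, 0 ≤ w n) → 0 ≤ A →
    (∀ m, 0 ≤ err m) →
    (∀ T ⊆ P, ∏ p ∈ T, p ≤ (2 ^ 2 ^ J) ^ (C * b) → ∀ c : ℕ → ℕ, (∀ p ∈ T, c p ∈ Om p) →
      |∑ n ∈ S.filter (fun n => ∀ p ∈ T, n % p = c p), w n - A * ∏ p ∈ T, g p| ≤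
        err (∏ p ∈ T, p)) →
    |∑ n ∈ S.filter (fun n => ∀ p ∈ P, n % p ∉ Om p), w n -
        A * ∏ p ∈ P, (1 - ((Om p).card : ℝ) * g p)| ≤
      (1 / 2 : ℝ) ^ b * (A * ∏ p ∈ P, (1 - ((Om p).card : ℝ) * g p)) +
        ((J : ℝ) + 2) *
          ∑ T ∈ P.powerset.filter (fun T : Finset ℕ => ∏ p ∈ T, p ≤ (2 ^ 2 ^ J) ^ (C * b)),
            (κ : ℝ) ^ T.card * err (∏ p ∈ T, p)

open Classical in
/-- (PSU) primes of an interval in a residue class modulo `m₀`, sieved by at most `κ` nonzero classes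
modulo every prime `p ≤ 2 ^ 2 ^ J` that does not divide `m₀`: upper bound -/
def PSU : Prop := ∃ C : ℕ, 1 ≤ C ∧ ∀ κ b m₀ B : ℕ, C * (κ + 1) ≤ b → 1 ≤ m₀ →
  (∀ p : ℕ, p.Prime → p ≤ C * (κ + 1) → p ∣ m₀) →
  ∃ X₀ : ℕ, ∀ u v J a : ℕ, X₀ ≤ v → u ≤ v → ((2 ^ 2 ^ J) ^ (C * b)) ^ 3 ≤ v → a.Coprime m₀ →
    ∀ Om : ℕ → Finset ℕ, (∀ p ∈ PS m₀ (2 ^ 2 ^ J), (Om p).card ≤ κ ∧ 0 ∉ Om p ∧
      ∀ c ∈ Om p, c < p) →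
    (((Ioc u v).filter (fun q => q.Prime ∧ q % m₀ = a % m₀ ∧
      ∀ p ∈ PS m₀ (2 ^ 2 ^ J), q % p ∉ Om p)).card : ℝ) ≤
      (1 + (1 / 2 : ℝ) ^ b) * ((((Ioc u v).filter Nat.Prime).card : ℝ) / Nat.totient m₀) *
        ∏ p ∈ PS m₀ (2 ^ 2 ^ J), (1 - ((Om p).card : ℝ) / ((p : ℝ) - 1)) +
      v / Real.log v ^ B

/-- (SIG) the sum of the reciprocals of the primes `≡ 1 (mod M)` between `t` and `t ^ 2` -/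
def SIG : Prop := ∀ M : ℕ, 1 ≤ M → ∃ c : ℝ, 0 < c ∧ ∃ t₀ : ℕ, ∀ t : ℕ, t₀ ≤ t →
  c ≤ ∑ q ∈ (Ioc t (t ^ 2)).filter (fun q => q.Prime ∧ q % M = 1 % M), (1 : ℝ) / q

/-- (PAI) the prime number theorem for arithmetic progressions in long intervals -/
def PAI : Prop := ∀ m₀ : ℕ, 1 ≤ m₀ → ∀ ε c : ℝ, 0 < ε → 0 < c → ∃ x₀ : ℝ, ∀ x : ℝ, x₀ ≤ x →
  ∀ u v a : ℕ, x / 2 ≤ u → (v : ℝ) ≤ 3 * x → (u : ℝ) + c * x ≤ v → a.Coprime m₀ →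
  |(((Ioc u v).filter (fun q => q.Prime ∧ q % m₀ = a % m₀)).card : ℝ) -
      ((v : ℝ) - u) / (Nat.totient m₀ * Real.log x)| ≤
    ε * (((v : ℝ) - u) / (Nat.totient m₀ * Real.log x))

end Pool.Agent.TH423.SH
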