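import Pool.Agent.TH423.SH.StmB

/-!
Products of primes `≡ 1 (mod M)` with large sum of reciprocals (helper543, for helper423).
-/

set_option autoImplicit false

open Finset

namespace Pool.Agent.TH423.SH

/-- the primes `≡ 1 (mod M)` in the interval `(R ^ 2 ^ a, R ^ 2 ^ (a + s)]` -/
def GRP_G (M R a s : ℕ) : Finset ℕ :=
  (Ioc (R ^ 2 ^ a) (R ^ 2 ^ (a + s))).filter (fun q => q.Prime ∧ q % M = 1 % M)

lemma GRP_sum (M : ℕ) (c : ℝ) (t₀ : ℕ) (h : ∀ t : ℕ, t₀ ≤ t →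
    c ≤ ∑ q ∈ (Ioc t (t ^ 2)).filter (fun q => q.Prime ∧ q % M = 1 % M), (1 : ℝ) / q)
    (R : ℕ) (hR : t₀ ≤ R) (hR1 : 1 ≤ R) (a s : ℕ) :
    (s : ℝ) * c ≤ ∑ q ∈ GRP_G M R a s, (1 : ℝ) / q := by
  induction s with
  | zero => simp [GRP_G]
  | succ s ih =>
    have e1 : R ^ 2 ^ (a + (s + 1)) = (R ^ 2 ^ (a + s)) ^ 2 := by
      rw [← pow_mul, ← pow_succ]
      rfl
    have h1 : R ^ 2 ^ a ≤ R ^ 2 ^ (a + s) :=
      Nat.pow_le_pow_right hR1 (Nat.pow_le_pow_right (by norm_num) (by omega))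
    have h2 : R ^ 2 ^ (a + s) ≤ (R ^ 2 ^ (a + s)) ^ 2 := Nat.le_self_pow (by norm_num) _
    have h3 : GRP_G M R a (s + 1) = GRP_G M R a s ∪
        (Ioc (R ^ 2 ^ (a + s)) ((R ^ 2 ^ (a + s)) ^ 2)).filter
          (fun q => q.Prime ∧ q % M = 1 % M) := by
      unfold GRP_G
      rw [e1, ← filter_union, Ioc_union_Ioc_eq_Ioc h1 h2]
    have h4 : Disjoint (GRP_G M R a s)
        ((Ioc (R ^ 2 ^ (a + s)) ((R ^ 2 ^ (a + s)) ^ 2)).filter
          (fun q => q.Prime ∧ q % M = 1 % M)) := by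
      rw [Finset.disjoint_left]
      intro q hq hq'
      unfold GRP_G at hq
      rw [mem_filter, mem_Ioc] at hq hq'
      omega
    rw [h3, sum_union h4]
    have h5 : R ≤ R ^ 2 ^ (a + s) := Nat.le_self_pow (by positivity) _
    have h6 := h (R ^ 2 ^ (a + s)) (hR.trans h5)
    push_cast
    linarith

theorem grp (h : SIG) : GRP := by
  intro M k B hM
  obtain ⟨c₀, hc₀, t₀, hsig⟩ := h M hM
  obtain ⟨s, hs⟩ := exists_nat_ge (((B : ℝ) + 1) / c₀)
  have hs' : (B : ℝ) + 1 ≤ s * c₀ := by rwa [div_le_iff₀ hc₀] at hs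
  refine ⟨2 ^ (s * k) * k, t₀, ?_⟩
  intro J hJ
  obtain ⟨R, hRdef⟩ : ∃ R : ℕ, R = 2 ^ 2 ^ J := ⟨_, rfl⟩
  rw [← hRdef]
  have hJR : J < R := by
    rw [hRdef]
    exact (Nat.lt_two_pow_self (n := J)).trans (Nat.lt_two_pow_self (n := 2 ^ J))
  have hR : t₀ ≤ R := hJ.trans hJR.le
  have hR1 : 1 ≤ R := by omega
  have hG : ∀ a, (B : ℝ) + 1 ≤ ∑ q ∈ GRP_G M R a s, (1 : ℝ) / q := fun a =>
    hs'.trans (GRP_sum M c₀ t₀ hsig R hR hR1 a s)
  have hB0 : (0 : ℝ) ≤ B := Nat.cast_nonneg B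
  have key : ∀ c : ℕ, ∃ E : Finset ℕ,
      (∀ e ∈ E, Squarefree e ∧ ArithmeticFunction.cardFactors e = c + 1 ∧
        e ≤ (R ^ 2 ^ (s * (c + 1))) ^ (c + 1) ∧
        ∀ p : ℕ, p.Prime → p ∣ e → R < p ∧ p ≤ R ^ 2 ^ (s * (c + 1)) ∧ p % M = 1 % M) ∧
      (B : ℝ) + 1 ≤ ∑ e ∈ E, (1 : ℝ) / e := by
    intro c
    induction c with
    | zero =>
      refine ⟨GRP_G M R 0 s, ?_, hG 0⟩
      intro e he
      unfold GRP_G at he
      rw [mem_filter, mem_Ioc] at he
      simp only [pow_zero, pow_one, zero_add] at he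
      obtain ⟨⟨h1, h2⟩, h3, h4⟩ := he
      refine ⟨h3.squarefree, ?_, ?_, ?_⟩
      · rw [ArithmeticFunction.cardFactors_apply_prime h3]
      · simpa using h2
      · intro p hp hpe
        have : p = e := (Nat.prime_dvd_prime_iff_eq hp h3).1 hpe
        subst this
        exact ⟨h1, by simpa using h2, h4⟩
    | succ c ih =>
      obtain ⟨E, hE, hsum⟩ := ih
      obtain ⟨G, hGdef⟩ : ∃ G, G = GRP_G M R (s * (c + 1)) s := ⟨_, rfl⟩
      have hGm : ∀ q ∈ G, R ^ 2 ^ (s * (c + 1)) < q ∧ q ≤ R ^ 2 ^ (s * (c + 1 + 1)) ∧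
          q.Prime ∧ q % M = 1 % M := by
        intro q hq
        rw [hGdef] at hq
        unfold GRP_G at hq
        rw [mem_filter, mem_Ioc] at hq
        have e1 : s * (c + 1) + s = s * (c + 1 + 1) := by ring
        rw [e1] at hq
        exact ⟨hq.1.1, hq.1.2, hq.2.1, hq.2.2⟩
      have hnd : ∀ e ∈ E, ∀ q ∈ G, ¬ q ∣ e := by
        intro e he q hq hqe
        have h1 := ((hE e he).2.2.2 q (hGm q hq).2.2.1 hqe).2.1
        exact absurd (hGm q hq).1 (by omega)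
      have hinj : ∀ x ∈ E ×ˢ G, ∀ y ∈ E ×ˢ G, x.1 * x.2 = y.1 * y.2 → x = y := by
        rintro ⟨e, q⟩ hx ⟨e', q'⟩ hy hxy
        rw [mem_product] at hx hy
        simp only at hx hy hxy
        have hqp := (hGm q hx.2).2.2.1
        have hqp' := (hGm q' hy.2).2.2.1
        have h1 : q ∣ e' * q' := hxy ▸ Dvd.intro_left e rfl
        have h2 : q = q' := by
          rcases (Nat.Prime.dvd_mul hqp).1 h1 with h | h
          · exact absurd h (hnd e' hy.1 q hx.2)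
          · exact (Nat.prime_dvd_prime_iff_eq hqp hqp').1 h
        subst h2
        have h3 : e = e' := Nat.eq_of_mul_eq_mul_right hqp.pos hxy
        rw [h3]
      refine ⟨(E ×ˢ G).image (fun x => x.1 * x.2), ?_, ?_⟩
      · intro m hm
        rw [mem_image] at hm
        obtain ⟨⟨e, q⟩, hx, rfl⟩ := hm
        rw [mem_product] at hx
        simp only at hx ⊢
        obtain ⟨hsq, hcf, hle, hpf⟩ := hE e hx.1
        obtain ⟨hq1, hq2, hqp, hq4⟩ := hGm q hx.2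
        have hcop : e.Coprime q :=
          ((Nat.Prime.coprime_iff_not_dvd hqp).2 (hnd e hx.1 q hx.2)).symm
        have hT : R ^ 2 ^ (s * (c + 1)) ≤ R ^ 2 ^ (s * (c + 1 + 1)) :=
          Nat.pow_le_pow_right hR1 (Nat.pow_le_pow_right (by norm_num)
            (Nat.mul_le_mul_left _ (by omega)))
        refine ⟨(Nat.squarefree_mul hcop).2 ⟨hsq, hqp.squarefree⟩, ?_, ?_, ?_⟩
        · rw [ArithmeticFunction.cardFactors_mul hsq.ne_zero hqp.ne_zero, hcf,
            ArithmeticFunction.cardFactors_apply_prime hqp]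
        · calc e * q ≤ (R ^ 2 ^ (s * (c + 1))) ^ (c + 1) * R ^ 2 ^ (s * (c + 1 + 1)) :=
                Nat.mul_le_mul hle hq2
            _ ≤ (R ^ 2 ^ (s * (c + 1 + 1))) ^ (c + 1) * R ^ 2 ^ (s * (c + 1 + 1)) :=
                Nat.mul_le_mul_right _ (Nat.pow_le_pow_left hT _)
            _ = (R ^ 2 ^ (s * (c + 1 + 1))) ^ (c + 1 + 1) := (pow_succ _ _).symm
        · intro p hp hpd
          rcases (Nat.Prime.dvd_mul hp).1 hpd with h | h
          · obtain ⟨a1, a2, a3⟩ := hpf p hp h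
            exact ⟨a1, a2.trans hT, a3⟩
          · have : p = q := (Nat.prime_dvd_prime_iff_eq hp hqp).1 h
            subst this
            refine ⟨?_, hq2, hq4⟩
            exact lt_of_le_of_lt (Nat.le_self_pow (by positivity) _) hq1
      · rw [sum_image hinj, sum_product]
        have h1 : ∑ x ∈ E, ∑ y ∈ G, (1 : ℝ) / ((x * y : ℕ) : ℝ) =
            (∑ e ∈ E, (1 : ℝ) / e) * ∑ q ∈ G, (1 : ℝ) / q := by
          rw [sum_mul_sum]
          refine sum_congr rfl fun e _ => sum_congr rfl fun q _ => ?_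
          push_cast
          rw [one_div_mul_one_div]
        rw [h1]
        have h2 := hG (s * (c + 1))
        rw [← hGdef] at h2
        nlinarith
  intro c hc
  obtain ⟨E, hE, hsum⟩ := key c
  refine ⟨E, ?_, by linarith⟩
  intro e he
  obtain ⟨h1, h2, h3, h4⟩ := hE e he
  refine ⟨h1, h2, ?_, fun p hp hpe => ⟨(h4 p hp hpe).1, (h4 p hp hpe).2.2⟩⟩
  refine h3.trans ?_
  rw [← pow_mul]
  refine Nat.pow_le_pow_right hR1 ?_
  exact Nat.mul_le_mul (Nat.pow_le_pow_right (by norm_num) (Nat.mul_le_mul_left _ (by omega)))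
    (by omega)

end Pool.Agent.TH423.SH
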