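import Pool.Agent.TH423.SH.StmB

/-!
The shape lemma on several scales (helper423).
-/

set_option autoImplicit false

open Finset

namespace Pool.Agent.TH423.SH

/-- the determinants -/
def dd (W : ℕ) (x y : ℕ) (i : ℕ) : ℕ := y - W * (i + 1) * x

/-- (MSP) the shape lemma on several scales -/
def MSP : Prop := ∀ k M : ℕ, 1 ≤ k → 1 ≤ M → ∃ m W₀ : ℕ, 1 ≤ m ∧ 1 ≤ W₀ ∧
  (∀ p : ℕ, p.Prime → p ≤ m → p ∣ W₀) ∧
  ∀ W : ℕ, W₀ ∣ W → 1 ≤ W → ∀ N : ℕ, ∃ B Y₀ : ℕ, 1 ≤ B ∧ ∀ Y : ℕ, Y₀ ≤ Y →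
    ∀ (I : ℕ → Fin k → Finset (Fin m)) (c : ℕ → Fin k → Fin m → Fin k),
    (∀ j t, m ≤ 2 * (I j t).card) →
    ∃ (x y : ℕ → ℕ) (u : ℕ → Fin k → Fin m), ∀ j < N,
      0 < x j ∧ y j ≤ Y ^ B ∧ y j % W = 1 % W ∧ (x j).Coprime (y j) ∧ 2 * W * m * x j ≤ y j ∧
      (∀ t, u j t ∈ I j t ∧ Squarefree (dd W (x j) (y j) (u j t)) ∧
        ArithmeticFunction.cardFactors (dd W (x j) (y j) (u j t)) = (c j t (u j t) : ℕ) + 2 ∧
        ∀ q : ℕ, q.Prime → q ∣ dd W (x j) (y j) (u j t) → q % M = 1 % M ∧ Y < q) ∧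
      ∀ j' < j, ∀ t t', (dd W (x j) (y j) (u j t)).Coprime (dd W (x j') (y j') (u j' t'))

theorem msp (h : SHP) : MSP := by
  intro k M hk hM
  obtain ⟨m, W₀, r, hm, hW₀, hr, hWp, H⟩ := h k M hk hM
  refine ⟨m, W₀, hm, hW₀, hWp, fun W hWW hW N => ?_⟩
  obtain ⟨Y₀, HY⟩ := H W hWW hW
  induction N with
  | zero => exact ⟨1, 0, le_rfl, fun Y _ I c _ => ⟨fun _ => 0, fun _ => 0, fun _ _ => ⟨0, hm⟩,
      fun j hj => absurd hj (Nat.not_lt_zero _)⟩⟩
  | succ N ih =>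
    obtain ⟨B, Y₁, hB, ih⟩ := ih
    refine ⟨r * B + 1, Y₀ + Y₁ + 2, by omega, fun Y hY I c hI => ?_⟩
    obtain ⟨x, y, u, hxy⟩ := ih Y (by omega) I c hI
    have hY1 : 1 ≤ Y := by omega
    have hrB : 1 ≤ r * B := Nat.mul_pos hr hB
    have hYY : Y ≤ Y ^ (r * B) := by
      calc Y = Y ^ 1 := (pow_one Y).symm
        _ ≤ Y ^ (r * B) := Nat.pow_le_pow_right hY1 hrB
    obtain ⟨x', y', hx0, hxY, hyY, hyY2, hmod, hcop, hmx, hd⟩ :=
      HY (Y ^ (r * B)) (by omega) (I N) (c N) (hI N)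
    choose u' hu' hsq hΩ hq using hd
    have hqB : ∀ t, ∀ q : ℕ, q.Prime → q ∣ y' - W * ((u' t : ℕ) + 1) * x' → Y ^ B < q := by
      intro t q hqp hqd
      have := (hq t q hqp hqd).2
      rw [mul_comm r B, pow_mul] at this
      exact lt_of_pow_lt_pow_left' r this
    have hBB : Y ^ B ≤ Y ^ (r * B + 1) :=
      Nat.pow_le_pow_right hY1 (by nlinarith)
    have hYB : Y ≤ Y ^ B := by
      calc Y = Y ^ 1 := (pow_one Y).symm
        _ ≤ Y ^ B := Nat.pow_le_pow_right hY1 hB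
    refine ⟨Function.update x N x', Function.update y N y', Function.update u N u',
      fun j hj => ?_⟩
    rcases Nat.lt_succ_iff_lt_or_eq.mp hj with hjN | rfl
    · have hne : j ≠ N := hjN.ne
      rw [Function.update_of_ne hne, Function.update_of_ne hne, Function.update_of_ne hne]
      obtain ⟨h1, h2, h3, h4, h5, h6, h7⟩ := hxy j hjN
      refine ⟨h1, h2.trans hBB, h3, h4, h5, h6, fun j' hj' t t' => ?_⟩
      have hne' : j' ≠ N := (hj'.trans hjN).ne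
      rw [Function.update_of_ne hne', Function.update_of_ne hne', Function.update_of_ne hne']
      exact h7 j' hj' t t'
    · rw [Function.update_self, Function.update_self, Function.update_self]
      refine ⟨hx0, ?_, hmod, hcop, hmx, fun t => ⟨hu' t, hsq t, hΩ t, fun q hqp hqd =>
        ⟨(hq t q hqp hqd).1, hYB.trans_lt (hqB t q hqp hqd)⟩⟩, fun j' hj' t t' => ?_⟩
      · calc y' ≤ 2 * Y ^ (r * B) := hyY2
          _ ≤ Y * Y ^ (r * B) := Nat.mul_le_mul_right _ (by omega)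
          _ = Y ^ (r * B + 1) := by rw [pow_succ, mul_comm]
      · have hne' : j' ≠ j := hj'.ne
        rw [Function.update_of_ne hne', Function.update_of_ne hne', Function.update_of_ne hne']
        obtain ⟨g1, g2, g3, g4, g5, g6, g7⟩ := hxy j' hj'
        rw [Nat.coprime_iff_gcd_eq_one]
        by_contra hcon
        obtain ⟨p, hp, hpd⟩ := Nat.exists_prime_and_dvd hcon
        have e1 := hqB t p hp (hpd.trans (Nat.gcd_dvd_left _ _))
        have e2 : p ∣ dd W (x j') (y j') (u j' t') := hpd.trans (Nat.gcd_dvd_right _ _)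
        have e3 : dd W (x j') (y j') (u j' t') ≠ 0 := (g6 t').2.1.ne_zero
        have e4 : p ≤ dd W (x j') (y j') (u j' t') := Nat.le_of_dvd (Nat.pos_of_ne_zero e3) e2
        have e5 : dd W (x j') (y j') (u j' t') ≤ y j' := Nat.sub_le _ _
        omega

end Pool.Agent.TH423.SH
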