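import Pool.Agent.TH423.SH.StmB
import Pool.Agent.Helper256.KM.Mertens

/-!
# SH-PRD: product facts PRA, PRB, PRC (job of helper423, written by helper511)
-/

set_option autoImplicit false

open Finset

namespace Pool.Agent.TH423.SH

namespace PrdP

lemma mem_PS {W R p : ℕ} : p ∈ PS W R ↔ (1 ≤ p ∧ p ≤ R) ∧ p.Prime ∧ ¬ p ∣ W := by
  simp [PS]

lemma sum_le_prod (R : ℕ) :
    ∑ n ∈ Icc 1 R, (1 : ℝ) / n ≤ ∏ p ∈ (Icc 1 R).filter Nat.Prime, (1 - 1 / (p : ℝ))⁻¹ := by
  let f : ℕ →* ℝ :=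
    { toFun := fun n => 1 / (n : ℝ)
      map_one' := by simp
      map_mul' := fun a b => by push_cast; rw [one_div_mul_one_div] }
  have h := EulerProduct.summable_and_hasSum_smoothNumbers_prod_primesBelow_geometric (f := f)
    (fun {p} hp => by
      have : (1 : ℝ) < p := by exact_mod_cast hp.one_lt
      show ‖1 / (p : ℝ)‖ < 1
      rw [Real.norm_of_nonneg (by positivity), div_lt_one (by linarith)]
      exact this) (R + 1)
  have hP : (R + 1).primesBelow = (Icc 1 R).filter Nat.Prime := by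
    ext p
    simp only [Nat.primesBelow, mem_filter, mem_range, mem_Icc]
    constructor
    · rintro ⟨h1, h2⟩
      exact ⟨⟨h2.one_lt.le, by omega⟩, h2⟩
    · rintro ⟨⟨_, h1⟩, h2⟩
      exact ⟨by omega, h2⟩
  have h2 := h.2
  rw [hP] at h2
  have hmem : ∀ n ∈ Icc 1 R, n ∈ (R + 1).smoothNumbers := by
    intro n hn
    rw [mem_Icc] at hn
    exact Nat.mem_smoothNumbers_of_lt (by omega) (by omega)
  have e : ∑ n ∈ Icc 1 R, (1 : ℝ) / n =
      ∑ m ∈ (Icc 1 R).attach.map ⟨fun x => (⟨x.1, hmem x.1 x.2⟩ : (R + 1).smoothNumbers),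
        fun a b hab => Subtype.ext (by simpa using hab)⟩, f m := by
    rw [sum_map, ← sum_attach]
    rfl
  rw [e]
  refine sum_le_hasSum _ (fun m _ => ?_) h2
  show (0 : ℝ) ≤ 1 / ((m : ℕ) : ℝ)
  positivity

lemma log_le_sum (R : ℕ) (hR : 1 ≤ R) : Real.log R ≤ ∑ n ∈ Icc 1 R, (1 : ℝ) / n := by
  have h := log_add_one_le_harmonic R
  have e : ((harmonic R : ℚ) : ℝ) = ∑ n ∈ Icc 1 R, (1 : ℝ) / n := by
    rw [harmonic_eq_sum_Icc]
    push_cast
    simp only [one_div]
  rw [e] at h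
  refine le_trans ?_ h
  apply Real.log_le_log
  · exact_mod_cast hR
  · push_cast; linarith

lemma one_sub_nonneg {p : ℕ} (hp : p.Prime) : 0 < 1 - 1 / (p : ℝ) := by
  have h1 : (1 : ℝ) < p := by exact_mod_cast hp.one_lt
  rw [sub_pos, div_lt_one (by linarith)]
  exact h1

lemma one_sub_le {p : ℕ} : 1 - 1 / (p : ℝ) ≤ 1 := by
  have : (0 : ℝ) ≤ 1 / (p : ℝ) := by positivity
  linarith

lemma totient_eq (W : ℕ) :
    (Nat.totient W : ℝ) = W * ∏ p ∈ W.primeFactors, (1 - 1 / (p : ℝ)) := by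
  have h := Nat.totient_eq_mul_prod_factors W
  have h2 : ((Nat.totient W : ℚ) : ℝ) = (((W : ℚ) * ∏ p ∈ W.primeFactors, (1 - (p : ℚ)⁻¹) : ℚ) : ℝ) := by
    rw [h]
  push_cast at h2
  rw [h2]
  simp only [one_div]

end PrdP

open PrdP

theorem pra : PRA := by
  intro W R m hm
  unfold PIj PI1
  rw [← prod_mul_distrib]
  refine prod_congr rfl fun p hp => ?_
  rw [mem_PS] at hp
  have h1 : (1 : ℝ) < p := by exact_mod_cast hp.2.1.one_lt
  have h2 : (p : ℝ) - 1 ≠ 0 := by linarith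
  have h3 : (p : ℝ) ≠ 0 := by linarith
  have h4 : ((m - 1 : ℕ) : ℝ) = m - 1 := by rw [Nat.cast_sub hm]; simp
  rw [h4]
  push_cast
  field_simp
  ring

theorem prb : PRB := by
  intro W R hW hR
  have hlog : 0 ≤ Real.log R := Real.log_natCast_nonneg R
  have h1 : PIj W R 1 * ∏ p ∈ W.primeFactors, (1 - 1 / (p : ℝ)) ≤
      ∏ p ∈ (Icc 1 R).filter Nat.Prime, (1 - 1 / (p : ℝ)) := by
    have e1 : (Icc 1 R).filter Nat.Prime = PS W R ∪ (W.primeFactors.filter (· ≤ R)) := by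
      ext p
      rw [mem_union, mem_PS, mem_filter, mem_filter, mem_Icc, Nat.mem_primeFactors]
      constructor
      · rintro ⟨h1, h2⟩
        by_cases h3 : p ∣ W
        · right; exact ⟨⟨h2, h3, by omega⟩, h1.2⟩
        · left; exact ⟨h1, h2, h3⟩
      · rintro (⟨h1, h2, h3⟩ | ⟨⟨h1, h2, h3⟩, h4⟩)
        · exact ⟨h1, h2⟩
        · exact ⟨⟨h1.one_lt.le, h4⟩, h1⟩
    have hd : Disjoint (PS W R) (W.primeFactors.filter (· ≤ R)) := by
      rw [disjoint_left]
      intro p hp hq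
      rw [mem_PS] at hp
      rw [mem_filter, Nat.mem_primeFactors] at hq
      exact hp.2.2 hq.1.2.1
    rw [e1, prod_union hd]
    unfold PIj
    simp only [Nat.cast_one]
    apply mul_le_mul_of_nonneg_left
    · have e2 := prod_filter_mul_prod_filter_not W.primeFactors (· ≤ R) (fun p => 1 - 1 / (p : ℝ))
      rw [← e2]
      have h3 : ∏ p ∈ W.primeFactors.filter (fun p => ¬ p ≤ R), (1 - 1 / (p : ℝ)) ≤ 1 := by
        apply prod_le_one
        · intro p hp
          exact (one_sub_nonneg (Nat.prime_of_mem_primeFactors (mem_filter.1 hp).1)).le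
        · intro p _
          exact one_sub_le
      have h4 : 0 ≤ ∏ p ∈ W.primeFactors.filter (· ≤ R), (1 - 1 / (p : ℝ)) := by
        apply prod_nonneg
        intro p hp
        exact (one_sub_nonneg (Nat.prime_of_mem_primeFactors (mem_filter.1 hp).1)).le
      nlinarith
    · apply prod_nonneg
      intro p hp
      exact (one_sub_nonneg (mem_PS.1 hp).2.1).le
  have h2 := (log_le_sum R (by omega)).trans (sum_le_prod R)
  rw [prod_inv_distrib] at h2
  set Q := ∏ p ∈ (Icc 1 R).filter Nat.Prime, (1 - 1 / (p : ℝ)) with hQ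
  have hQ0 : 0 < Q := by
    apply prod_pos
    intro p hp
    exact one_sub_nonneg (mem_filter.1 hp).2
  have h3 : Q * Real.log R ≤ 1 := by
    calc Q * Real.log R ≤ Q * Q⁻¹ := by gcongr
      _ = 1 := mul_inv_cancel₀ hQ0.ne'
  rw [totient_eq]
  have hW0 : (0 : ℝ) ≤ W := by positivity
  calc PIj W R 1 * Real.log R * (W * ∏ p ∈ W.primeFactors, (1 - 1 / (p : ℝ)))
      = W * ((PIj W R 1 * ∏ p ∈ W.primeFactors, (1 - 1 / (p : ℝ))) * Real.log R) := by ring
    _ ≤ W * (Q * Real.log R) := by gcongr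
    _ ≤ W * 1 := by gcongr
    _ = W := mul_one _

theorem prc : PRC := by
  intro m W hW hsm
  obtain ⟨C, hC⟩ := Pool.Agent.Helper256.KM.mertens_inv
  obtain ⟨R₁, hR₁⟩ := exists_nat_ge (Real.exp (Real.exp (2 * m * C)))
  refine ⟨2 * m + 1, max 3 R₁, fun R hR => ?_⟩
  have hR3 : 3 ≤ R := (le_max_left _ _).trans hR
  have hR1 : R₁ ≤ R := (le_max_right _ _).trans hR
  have hRr : Real.exp (Real.exp (2 * m * C)) ≤ R := hR₁.trans (by exact_mod_cast hR1)
  have hL : Real.exp (2 * m * C) ≤ Real.log R := by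
    rw [Real.le_log_iff_exp_le (lt_of_lt_of_le (Real.exp_pos _) hRr)]
    exact hRr
  have hL0 : 0 < Real.log R := lt_of_lt_of_le (Real.exp_pos _) hL
  have h0 : ∀ p ∈ PS W R, Real.exp (-(2 * m * (1 / (p : ℝ)))) ≤ 1 - (m : ℝ) / p := by
    intro p hp
    rw [mem_PS] at hp
    have hp2 : 2 * (m + 1) < p := by
      by_contra hle
      exact hp.2.2 (hsm p hp.2.1 (by omega))
    have hp0 : (0 : ℝ) < p := by exact_mod_cast hp.2.1.pos
    have hp3 : (2 : ℝ) * m ≤ p := by
      have : 2 * m ≤ p := by omega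
      exact_mod_cast this
    set x : ℝ := (m : ℝ) / p with hx
    have hx0 : 0 ≤ x := by positivity
    have hx1 : x ≤ 1 / 2 := by
      rw [hx, div_le_div_iff₀ hp0 (by norm_num)]
      linarith
    have e : -(2 * m * (1 / (p : ℝ))) = -(2 * x) := by rw [hx]; ring
    rw [e, Real.exp_neg]
    have h5 : 1 + 2 * x ≤ Real.exp (2 * x) := by
      have := Real.add_one_le_exp (2 * x)
      linarith
    rw [inv_le_comm₀ (Real.exp_pos _) (by linarith)]
    refine le_trans ?_ h5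
    rw [inv_le_iff_one_le_mul₀ (by linarith)]
    nlinarith
  have h1 : Real.exp (∑ p ∈ PS W R, -(2 * m * (1 / (p : ℝ)))) ≤ PIj W R m := by
    rw [Real.exp_sum]
    unfold PIj
    apply prod_le_prod
    · intro p _
      exact (Real.exp_pos _).le
    · exact h0
  have h2 : ∑ p ∈ PS W R, (1 / (p : ℝ)) ≤ Real.log (Real.log R) + C := by
    have h3 : ∑ p ∈ PS W R, (1 / (p : ℝ)) ≤ ∑ p ∈ (Icc 1 R).filter Nat.Prime, (1 : ℝ) / p := by
      apply sum_le_sum_of_subset_of_nonneg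
      · intro p hp
        rw [mem_PS] at hp
        rw [mem_filter, mem_Icc]
        exact ⟨hp.1, hp.2.1⟩
      · intro p _ _
        positivity
    have h4 := (abs_le.1 (hC R hR3)).2
    linarith
  have h3 : -((2 * m : ℕ) : ℝ) * Real.log (Real.log R) - 2 * m * C ≤
      ∑ p ∈ PS W R, -(2 * m * (1 / (p : ℝ))) := by
    rw [sum_neg_distrib, ← mul_sum]
    have : (2 * (m : ℝ)) * ∑ p ∈ PS W R, (1 / (p : ℝ)) ≤ (2 * m) * (Real.log (Real.log R) + C) := by
      gcongr
    push_cast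
    linarith
  refine le_trans ?_ ((Real.exp_le_exp.2 h3).trans h1)
  have h4 : Real.exp (-((2 * m : ℕ) : ℝ) * Real.log (Real.log R) - 2 * m * C) =
      (Real.log R ^ (2 * m))⁻¹ * (Real.exp (2 * m * C))⁻¹ := by
    rw [sub_eq_add_neg, Real.exp_add, neg_mul, Real.exp_neg, Real.exp_neg, Real.exp_nat_mul,
      Real.exp_log hL0]
  rw [h4, one_div, pow_succ, mul_inv]
  have h5 : (Real.log R)⁻¹ ≤ (Real.exp (2 * m * C))⁻¹ := inv_anti₀ (Real.exp_pos _) hL
  gcongr

end Pool.Agent.TH423.SH
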