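import Pool.Agent.TH423.SH.Stm
import Pool.Agent.TH423.SH.PSUb

/-!
Primes in an interval and a residue class, sieved: upper bound (helper713).
-/

set_option autoImplicit false

open Finset H343E Pool.Agent.H398R2.BV

namespace Pool.Agent.TH423.SH.PSUa

lemma crt (m₀ : ℕ) (hm₀ : 1 ≤ m₀) (a : ℕ) (ha : a.Coprime m₀) (c : ℕ → ℕ) (T : Finset ℕ) :
    (∀ p ∈ T, p.Prime ∧ ¬ p ∣ m₀) → (∀ p ∈ T, c p < p ∧ c p ≠ 0) →
    ∃ r, r < m₀ * ∏ p ∈ T, p ∧ r.Coprime (m₀ * ∏ p ∈ T, p) ∧
      ∀ n, (n % m₀ = a % m₀ ∧ ∀ p ∈ T, n % p = c p) ↔ n ≡ r [MOD m₀ * ∏ p ∈ T, p] := by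
  induction T using Finset.induction_on with
  | empty =>
    intro _ _
    refine ⟨a % m₀, ?_, ?_, ?_⟩
    · rw [prod_empty, mul_one]; exact Nat.mod_lt _ (by omega)
    · rw [prod_empty, mul_one]
      unfold Nat.Coprime at ha ⊢
      rw [← Nat.gcd_rec, Nat.gcd_comm]; exact ha
    · intro n
      rw [prod_empty, mul_one]
      constructor
      · rintro ⟨h, -⟩
        unfold Nat.ModEq
        rw [Nat.mod_mod]; exact h
      · intro h
        unfold Nat.ModEq at h
        rw [Nat.mod_mod] at h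
        exact ⟨h, fun p hp => absurd hp (notMem_empty p)⟩
  | insert p T hp ih =>
    intro h1 h2
    obtain ⟨r, hr1, hr2, hr3⟩ := ih (fun q hq => h1 q (mem_insert_of_mem hq))
      (fun q hq => h2 q (mem_insert_of_mem hq))
    obtain ⟨hpp, hpm⟩ := h1 p (mem_insert_self p T)
    obtain ⟨hc1, hc2⟩ := h2 p (mem_insert_self p T)
    obtain ⟨M, hM⟩ : ∃ M, M = m₀ * ∏ p ∈ T, p := ⟨_, rfl⟩
    rw [← hM] at hr1 hr2 hr3
    have hMp : m₀ * ∏ p ∈ insert p T, p = M * p := by
      rw [prod_insert hp, hM]; ring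
    rw [hMp]
    have hco : M.Coprime p := by
      rw [Nat.coprime_comm, Nat.Prime.coprime_iff_not_dvd hpp, hM, hpp.dvd_mul]
      rintro (h | h)
      · exact hpm h
      · rw [Prime.dvd_finset_prod_iff hpp.prime] at h
        obtain ⟨q, hq, hpq⟩ := h
        have := (Nat.prime_dvd_prime_iff_eq hpp (h1 q (mem_insert_of_mem hq)).1).mp hpq
        subst this
        exact hp hq
    have hM0 : M ≠ 0 := by omega
    obtain ⟨s, hs⟩ : ∃ s, s = Nat.chineseRemainder hco r (c p) := ⟨_, rfl⟩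
    have hlt := Nat.chineseRemainder_lt_mul hco r (c p) hM0 hpp.ne_zero
    rw [← hs] at hlt
    have e1 := s.2.1
    have e2 := s.2.2
    refine ⟨s, hlt, ?_, ?_⟩
    · apply Nat.Coprime.mul_right
      · unfold Nat.Coprime
        rw [Nat.ModEq.gcd_eq e1]; exact hr2
      · unfold Nat.Coprime
        rw [Nat.ModEq.gcd_eq e2, Nat.gcd_comm]
        exact Nat.coprime_of_lt_prime hc2 hc1 hpp
    · intro n
      rw [← Nat.modEq_and_modEq_iff_modEq_mul hco]
      constructor
      · rintro ⟨g1, g2⟩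
        constructor
        · exact ((hr3 n).mp ⟨g1, fun q hq => g2 q (mem_insert_of_mem hq)⟩).trans e1.symm
        · refine Nat.ModEq.trans ?_ e2.symm
          unfold Nat.ModEq
          rw [g2 p (mem_insert_self p T), Nat.mod_eq_of_lt hc1]
      · rintro ⟨g1, g2⟩
        obtain ⟨g3, g4⟩ := (hr3 n).mpr (g1.trans e1)
        refine ⟨g3, ?_⟩
        intro q hq
        rcases mem_insert.mp hq with rfl | hq
        · have := g2.trans e2
          unfold Nat.ModEq at this
          rw [this, Nat.mod_eq_of_lt hc1]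
        · exact g4 q hq

lemma tot (m₀ : ℕ) (T : Finset ℕ) : (∀ p ∈ T, p.Prime ∧ ¬ p ∣ m₀) →
    (Nat.totient (m₀ * ∏ p ∈ T, p) : ℝ) = Nat.totient m₀ * ∏ p ∈ T, ((p:ℝ) - 1) := by
  induction T using Finset.induction_on with
  | empty => intro _; simp
  | insert p T hp ih =>
    intro h1
    have ih' := ih (fun q hq => h1 q (mem_insert_of_mem hq))
    obtain ⟨hpp, hpm⟩ := h1 p (mem_insert_self p T)
    have hMp : m₀ * ∏ p ∈ insert p T, p = (m₀ * ∏ p ∈ T, p) * p := by
      rw [prod_insert hp]; ring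
    have hco : (m₀ * ∏ p ∈ T, p).Coprime p := by
      rw [Nat.coprime_comm, Nat.Prime.coprime_iff_not_dvd hpp, hpp.dvd_mul]
      rintro (h | h)
      · exact hpm h
      · rw [Prime.dvd_finset_prod_iff hpp.prime] at h
        obtain ⟨q, hq, hpq⟩ := h
        have := (Nat.prime_dvd_prime_iff_eq hpp (h1 q (mem_insert_of_mem hq)).1).mp hpq
        subst this
        exact hp hq
    rw [hMp, Nat.totient_mul hco, Nat.cast_mul, ih', prod_insert hp, Nat.totient_prime hpp,
      Nat.cast_sub hpp.one_le, Nat.cast_one]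
    ring

lemma cnt (Q : ℕ → Prop) [DecidablePred Q] (u v : ℕ) (huv : u ≤ v) :
    (((Ioc u v).filter Q).card : ℝ) =
      ((Icc 1 v).filter Q).card - ((Icc 1 u).filter Q).card := by
  have h1 : (Icc 1 v).filter Q = (Icc 1 u).filter Q ∪ (Ioc u v).filter Q := by
    ext n
    simp only [mem_filter, mem_union, mem_Icc, mem_Ioc]
    constructor
    · rintro ⟨⟨h1, h2⟩, h3⟩
      rcases le_or_gt n u with h | h
      · exact Or.inl ⟨⟨h1, h⟩, h3⟩
      · exact Or.inr ⟨⟨h, h2⟩, h3⟩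
    · rintro (⟨⟨h1, h2⟩, h3⟩ | ⟨⟨h1, h2⟩, h3⟩)
      · exact ⟨⟨h1, by omega⟩, h3⟩
      · exact ⟨⟨by omega, h2⟩, h3⟩
  have h2 : Disjoint ((Icc 1 u).filter Q) ((Ioc u v).filter Q) := by
    rw [disjoint_left]
    intro n hn hn'
    rw [mem_filter, mem_Icc] at hn
    rw [mem_filter, mem_Ioc] at hn'
    omega
  rw [h1, card_union_of_disjoint h2]
  push_cast
  ring

end Pool.Agent.TH423.SH.PSUa

open Pool.Agent.TH423.SH.PSUa in
theorem Pool.Agent.TH423.SH.psu (h : Pool.Agent.TH423.SH.FLL) : Pool.Agent.TH423.SH.PSU := by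
  obtain ⟨C, hC1, hC⟩ := h
  refine ⟨C, hC1, ?_⟩
  intro κ b m₀ B hb hm₀ hpm
  obtain ⟨X1, hX1⟩ := wsum m₀ (κ + 1) (B + 2) (by omega)
  obtain ⟨X4, hX4⟩ := Filter.eventually_atTop.mp
    ((Real.tendsto_log_atTop.comp (tendsto_natCast_atTop_atTop (R := ℝ))).eventually
      (Filter.eventually_ge_atTop (6 : ℝ)))
  refine ⟨max (max X1 X4) 1, ?_⟩
  intro u v J a hv huv hR ha Om hOm
  classical
  simp only [max_le_iff] at hv
  obtain ⟨⟨v1, v4⟩, v5⟩ := hv
  have e4 := hX4 v v4
  simp only [Function.comp] at e4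
  obtain ⟨R, hRd⟩ : ∃ R, R = 2 ^ 2 ^ J := ⟨_, rfl⟩
  obtain ⟨P, hPd⟩ : ∃ P, P = PS m₀ R := ⟨_, rfl⟩
  have hPmem : ∀ p ∈ P, p.Prime ∧ ¬ p ∣ m₀ ∧ p ≤ R := by
    intro p hp
    rw [hPd] at hp
    unfold PS at hp
    rw [mem_filter, mem_Icc] at hp
    exact ⟨hp.2.1, hp.2.2, hp.1.2⟩
  have hv0 : (0:ℝ) < v := by exact_mod_cast (by omega : 0 < v)
  have hL0 : 0 < Real.log v := by linarith
  rw [← hRd, ← hPd] at hOm
  have hφ0 : (0:ℝ) < Nat.totient m₀ := by exact_mod_cast Nat.totient_pos.mpr (by omega)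
  have key := hC κ b J (C * (κ + 1)) P (fun p => 1 / ((p:ℝ) - 1)) Om hb le_rfl
    (by
      intro p hp
      obtain ⟨h1, h2, h3⟩ := hPmem p hp
      refine ⟨h1, ?_, by rw [← hRd]; exact h3⟩
      by_contra hcon
      push Not at hcon
      exact h2 (hpm p h1 hcon))
    (fun p hp => (hOm p hp).1)
    (by
      intro p hp
      have h1 : (2:ℝ) ≤ p := by exact_mod_cast (hPmem p hp).1.two_le
      exact ⟨by apply div_nonneg <;> linarith, le_rfl⟩)
    ((Ioc u v).filter (fun q => q.Prime ∧ q % m₀ = a % m₀)) (fun _ => 1)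
    ((((Ioc u v).filter Nat.Prime).card : ℝ) / Nat.totient m₀)
    (fun D => ee v (m₀ * D) + ee u (m₀ * D))
    (fun _ _ => zero_le_one) (by positivity)
    (fun D => add_nonneg (ee_nonneg _ _) (ee_nonneg _ _))
    (by
      intro T hT _ c hc
      have hT1 : ∀ p ∈ T, p.Prime ∧ ¬ p ∣ m₀ := fun p hp => by
        obtain ⟨h1, h2, -⟩ := hPmem p (hT hp); exact ⟨h1, h2⟩
      obtain ⟨r, hr1, hr2, hr3⟩ := crt m₀ hm₀ a ha c T hT1 (by
        intro p hp
        obtain ⟨-, h2, h3⟩ := hOm p (hT hp)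
        refine ⟨h3 _ (hc p hp), ?_⟩
        intro h4
        apply h2
        rw [← h4]; exact hc p hp)
      have hM := tot m₀ T hT1
      obtain ⟨M, hMd⟩ : ∃ M, M = m₀ * ∏ p ∈ T, p := ⟨_, rfl⟩
      rw [← hMd] at hr1 hr2 hr3 hM
      beta_reduce
      rw [← hMd]
      have hprod : (((Ioc u v).filter Nat.Prime).card : ℝ) / Nat.totient m₀ *
          ∏ p ∈ T, 1 / ((p:ℝ) - 1) = (pi1 v - pi1 u) / Nat.totient M := by
        rw [hM, cnt _ u v huv, prod_div_distrib, prod_const_one]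
        unfold pi1
        rw [div_mul_div_comm, mul_one]
      have hset : ∑ n ∈ (((Ioc u v).filter (fun q => q.Prime ∧ q % m₀ = a % m₀)).filter
          (fun n => ∀ p ∈ T, n % p = c p)), (1:ℝ) = piAP v M r - piAP u M r := by
        rw [sum_const, nsmul_eq_mul, mul_one, filter_filter]
        unfold piAP
        rw [← cnt _ u v huv]
        congr 2
        apply filter_congr
        intro n _
        rw [← hr3 n, and_assoc]
      rw [hprod, hset]
      have h1 := FF_le_ee v M r hr1 hr2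
      have h2 := FF_le_ee u M r hr1 hr2
      unfold FF at h1 h2
      have h3 : piAP v M r - piAP u M r - (pi1 v - pi1 u) / Nat.totient M =
          (piAP v M r - pi1 v / (Nat.totient M : ℝ)) -
            (piAP u M r - pi1 u / (Nat.totient M : ℝ)) := by ring
      rw [h3]
      refine (abs_sub _ _).trans ?_
      exact add_le_add h1 h2)
  rw [← hRd] at key
  -- the sum of the errors
  obtain ⟨Q, hQd⟩ : ∃ Q, Q = m₀ * R ^ (C * b) := ⟨_, rfl⟩
  have hQ3 : Q ^ 3 ≤ m₀ ^ 3 * v := by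
    rw [hQd, mul_pow]
    exact Nat.mul_le_mul_left _ (by rw [hRd]; exact hR)
  have w1 := hX1 v v1 v le_rfl Q hQ3
  have w2 := hX1 v v1 u huv Q hQ3
  have hsum : ∑ T ∈ P.powerset.filter (fun T : Finset ℕ => ∏ p ∈ T, p ≤ R ^ (C * b)),
      (κ : ℝ) ^ T.card * (ee v (m₀ * ∏ p ∈ T, p) + ee u (m₀ * ∏ p ∈ T, p)) ≤
      2 * (v / Real.log v ^ (B + 2)) := by
    have h1 : ∑ q ∈ Icc 1 Q, ((κ + 1 : ℕ) : ℝ) ^ q.primeFactors.card * (ee v q + ee u q) ≤
        2 * (v / Real.log v ^ (B + 2)) := by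
      simp only [mul_add, sum_add_distrib]
      linarith
    refine le_trans ?_ h1
    have hinj : Set.InjOn (fun T : Finset ℕ => m₀ * ∏ p ∈ T, p)
        (P.powerset.filter (fun T : Finset ℕ => ∏ p ∈ T, p ≤ R ^ (C * b)) : Set (Finset ℕ)) := by
      intro T hT T' hT' hTT
      rw [mem_coe, mem_filter, mem_powerset] at hT hT'
      have h2 : ∏ p ∈ T, p = ∏ p ∈ T', p := Nat.eq_of_mul_eq_mul_left (by omega) hTT
      rw [← Nat.primeFactors_prod (fun p hp => (hPmem p (hT.1 hp)).1),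
        ← Nat.primeFactors_prod (fun p hp => (hPmem p (hT'.1 hp)).1), h2]
    calc ∑ T ∈ P.powerset.filter (fun T : Finset ℕ => ∏ p ∈ T, p ≤ R ^ (C * b)),
        (κ : ℝ) ^ T.card * (ee v (m₀ * ∏ p ∈ T, p) + ee u (m₀ * ∏ p ∈ T, p)) ≤
        ∑ T ∈ P.powerset.filter (fun T : Finset ℕ => ∏ p ∈ T, p ≤ R ^ (C * b)),
        ((κ + 1 : ℕ) : ℝ) ^ (m₀ * ∏ p ∈ T, p).primeFactors.card *
          (ee v (m₀ * ∏ p ∈ T, p) + ee u (m₀ * ∏ p ∈ T, p)) := by
          apply sum_le_sum
          intro T hT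
          rw [mem_filter, mem_powerset] at hT
          apply mul_le_mul_of_nonneg_right _ (add_nonneg (ee_nonneg _ _) (ee_nonneg _ _))
          have h2 : T.card ≤ (m₀ * ∏ p ∈ T, p).primeFactors.card := by
            apply card_le_card
            intro p hp
            rw [Nat.mem_primeFactors]
            refine ⟨(hPmem p (hT.1 hp)).1, (dvd_prod_of_mem (fun p => p) hp).mul_left m₀, ?_⟩
            apply mul_ne_zero (by omega)
            rw [prod_ne_zero_iff]
            intro q hq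
            exact (hPmem q (hT.1 hq)).1.ne_zero
          calc (κ : ℝ) ^ T.card ≤ ((κ + 1 : ℕ) : ℝ) ^ T.card := by
                apply pow_le_pow_left₀ (Nat.cast_nonneg κ)
                push_cast; linarith
            _ ≤ _ := pow_le_pow_right₀ (by push_cast; linarith [Nat.cast_nonneg (α := ℝ) κ]) h2
      _ = ∑ q ∈ (P.powerset.filter (fun T : Finset ℕ => ∏ p ∈ T, p ≤ R ^ (C * b))).image
            (fun T : Finset ℕ => m₀ * ∏ p ∈ T, p),
          ((κ + 1 : ℕ) : ℝ) ^ q.primeFactors.card * (ee v q + ee u q) := by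
          rw [sum_image hinj]
      _ ≤ _ := by
          apply sum_le_sum_of_subset_of_nonneg
          · intro q hq
            rw [mem_image] at hq
            obtain ⟨T, hT, rfl⟩ := hq
            rw [mem_filter, mem_powerset] at hT
            rw [mem_Icc]
            constructor
            · apply Nat.one_le_iff_ne_zero.mpr
              apply mul_ne_zero (by omega)
              rw [prod_ne_zero_iff]
              intro q hq
              exact (hPmem q (hT.1 hq)).1.ne_zero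
            · rw [hQd]
              exact Nat.mul_le_mul_left _ hT.2
          · intro q _ _
            exact mul_nonneg (by positivity) (add_nonneg (ee_nonneg _ _) (ee_nonneg _ _))
  -- the factor `J + 2`
  have hJ : (J : ℝ) + 2 ≤ 3 * Real.log v := by
    have hCb : 1 ≤ C * b := by
      have : 1 ≤ C * (κ + 1) := Nat.one_le_iff_ne_zero.mpr (mul_ne_zero (by omega) (by omega))
      exact Nat.one_le_iff_ne_zero.mpr (mul_ne_zero (by omega) (by omega))
    have h1 : 2 ^ 2 ^ J ≤ v := by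
      refine le_trans ?_ hR
      rw [← pow_mul]
      exact Nat.le_self_pow (by omega) _
    have h2 : Real.log ((2:ℝ) ^ 2 ^ J) ≤ Real.log v :=
      Real.log_le_log (by positivity) (by exact_mod_cast h1)
    rw [Real.log_pow] at h2
    push_cast at h2
    have h3 : J + 1 ≤ 2 ^ J := Nat.lt_two_pow_self
    have h4 : ((J:ℝ) + 1) ≤ 2 ^ J := by exact_mod_cast h3
    have h5 := Real.log_two_gt_d9
    nlinarith
  have hfin : ((J : ℝ) + 2) *
      ∑ T ∈ P.powerset.filter (fun T : Finset ℕ => ∏ p ∈ T, p ≤ R ^ (C * b)),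
      (κ : ℝ) ^ T.card * (ee v (m₀ * ∏ p ∈ T, p) + ee u (m₀ * ∏ p ∈ T, p)) ≤
      v / Real.log v ^ B := by
    calc _ ≤ (3 * Real.log v) * (2 * (v / Real.log v ^ (B + 2))) := by
          apply mul_le_mul hJ hsum _ (by positivity)
          apply sum_nonneg
          intro T _
          exact mul_nonneg (by positivity) (add_nonneg (ee_nonneg _ _) (ee_nonneg _ _))
      _ = v / Real.log v ^ B * (6 / Real.log v) := by
          rw [pow_add]; field_simp; ring
      _ ≤ v / Real.log v ^ B * 1 := by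
          apply mul_le_mul_of_nonneg_left _ (by positivity)
          rw [div_le_one hL0]; exact e4
      _ = _ := mul_one _
  have hk2 := (abs_le.mp key).2
  rw [← hRd, ← hPd]
  have hset : (((Ioc u v).filter (fun q => q.Prime ∧ q % m₀ = a % m₀ ∧
      ∀ p ∈ P, q % p ∉ Om p)).card : ℝ) =
      ∑ n ∈ (((Ioc u v).filter (fun q => q.Prime ∧ q % m₀ = a % m₀)).filter
        (fun n => ∀ p ∈ P, n % p ∉ Om p)), (1:ℝ) := by
    rw [sum_const, nsmul_eq_mul, mul_one, filter_filter]
    congr 2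
    apply filter_congr
    intro n _
    rw [and_assoc]
  have hprod : ∏ p ∈ P, (1 - ((Om p).card : ℝ) * (1 / ((p:ℝ) - 1))) =
      ∏ p ∈ P, (1 - ((Om p).card : ℝ) / ((p:ℝ) - 1)) :=
    prod_congr rfl fun p _ => by rw [mul_one_div]
  rw [hprod] at hk2
  have hset' : (((Ioc u v).filter (fun q => q.Prime ∧ q % m₀ = a % m₀ ∧
      ∀ p ∈ P, q % p ∉ Om p)).card : ℝ) ≤
      (1 + (1 / 2 : ℝ) ^ b) * ((((Ioc u v).filter Nat.Prime).card : ℝ) / Nat.totient m₀) *
        ∏ p ∈ P, (1 - ((Om p).card : ℝ) / ((p : ℝ) - 1)) + v / Real.log v ^ B := by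
    rw [hset]
    linarith
  convert hset' using 4
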