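import Pool.Agent.TH423.SH.StmB

/-!
S0P: the number of sieved pairs (helper126, job 2862)
-/

set_option autoImplicit false

open Finset

namespace Pool.Agent.TH423.SH

theorem s0p_PS_lt {W R k p : ℕ} (h : ∀ p : ℕ, p.Prime → p ≤ k → p ∣ W) (hp : p ∈ PS W R) :
    k < p := by
  unfold PS at hp
  rw [mem_filter] at hp
  by_contra hlt
  exact hp.2.2 (h p hp.2.1 (not_lt.1 hlt))

theorem s0p_factor {m p : ℕ} (h : m < p) : 0 < 1 - (m : ℝ) / p ∧ 1 - (m : ℝ) / p ≤ 1 := by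
  have hp : (0 : ℝ) < p := by
    have : 0 < p := by omega
    exact_mod_cast this
  have hm : (m : ℝ) < p := by exact_mod_cast h
  constructor
  · rw [sub_pos, div_lt_one hp]
    exact hm
  · have : 0 ≤ (m : ℝ) / p := by positivity
    linarith

theorem s0p_PIj_pos {W R m k : ℕ} (h : ∀ p : ℕ, p.Prime → p ≤ k → p ∣ W) (hmk : m ≤ k) :
    0 < PIj W R m := by
  unfold PIj
  exact Finset.prod_pos fun p hp => (s0p_factor (hmk.trans_lt (s0p_PS_lt h hp))).1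

theorem s0p_PIj_mono {W R R' m k : ℕ} (h : ∀ p : ℕ, p.Prime → p ≤ k → p ∣ W) (hmk : m ≤ k)
    (hR : R ≤ R') : PIj W R' m ≤ PIj W R m := by
  have hsub : PS W R ⊆ PS W R' := by
    intro p hp
    unfold PS at hp ⊢
    rw [mem_filter, mem_Icc] at hp ⊢
    exact ⟨⟨hp.1.1, hp.1.2.trans hR⟩, hp.2⟩
  have hpos := s0p_PIj_pos (R := R) h hmk
  unfold PIj at hpos ⊢
  rw [← Finset.prod_sdiff hsub]
  have h1 : ∏ p ∈ PS W R' \ PS W R, (1 - (m : ℝ) / (p : ℝ)) ≤ 1 := by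
    apply Finset.prod_le_one
    · intro p hp
      exact (s0p_factor (hmk.trans_lt (s0p_PS_lt h (mem_sdiff.1 hp).1))).1.le
    · intro p hp
      exact (s0p_factor (hmk.trans_lt (s0p_PS_lt h (mem_sdiff.1 hp).1))).2
  calc _ ≤ 1 * ∏ p ∈ PS W R, (1 - (m : ℝ) / (p : ℝ)) := mul_le_mul_of_nonneg_right h1 hpos.le
    _ = _ := one_mul _

theorem s0p_low (hC : PRC) (m W : ℕ) (hW : 1 ≤ W)
    (h : ∀ p : ℕ, p.Prime → p ≤ 2 * (m + 1) → p ∣ W) :
    ∃ B Y₁ : ℕ, ∀ Y : ℕ, Y₁ ≤ Y → ∀ R : ℕ, 2 ≤ R → R ≤ Y →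
      1 / Real.log Y ^ B ≤ PIj W R m := by
  obtain ⟨B, R₀, hB⟩ := hC m W hW h
  have hc0 : 0 < PIj W R₀ m := s0p_PIj_pos h (by omega)
  have hev : ∀ᶠ Y : ℕ in Filter.atTop, max 1 (1 / PIj W R₀ m) ≤ Real.log Y :=
    (Real.tendsto_log_atTop.comp tendsto_natCast_atTop_atTop).eventually_ge_atTop _
  obtain ⟨Y₁, hY₁⟩ := Filter.eventually_atTop.1 hev
  refine ⟨B + 1, Y₁, ?_⟩
  intro Y hY R hR2 hRY
  have hL := hY₁ Y hY
  have hL1 : 1 ≤ Real.log Y := (le_max_left _ _).trans hL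
  have hL2 : 1 / PIj W R₀ m ≤ Real.log Y := (le_max_right _ _).trans hL
  have hL0 : 0 < Real.log Y := by linarith
  rcases le_or_gt R₀ R with hge | hlt
  · refine le_trans ?_ (hB R hge)
    have hR0 : (1 : ℝ) < R := by
      have : (2 : ℝ) ≤ R := by exact_mod_cast hR2
      linarith
    have hlogR : 0 < Real.log R := Real.log_pos hR0
    have hle : Real.log R ≤ Real.log Y :=
      Real.log_le_log (by linarith) (by exact_mod_cast hRY)
    apply one_div_le_one_div_of_le (pow_pos hlogR B)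
    calc Real.log R ^ B ≤ Real.log Y ^ B := pow_le_pow_left₀ hlogR.le hle B
      _ ≤ Real.log Y ^ (B + 1) := pow_le_pow_right₀ hL1 (Nat.le_succ B)
  · have h1 := s0p_PIj_mono (W := W) (R := R) (R' := R₀) (m := m) h (by omega) hlt.le
    refine le_trans ?_ h1
    have h2 : 1 / Real.log Y ≤ PIj W R₀ m := by
      rw [div_le_iff₀ hL0]
      rw [div_le_iff₀ hc0] at hL2
      linarith
    refine le_trans ?_ h2
    apply one_div_le_one_div_of_le hL0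
    calc Real.log Y = Real.log Y ^ 1 := (pow_one _).symm
      _ ≤ Real.log Y ^ (B + 1) := pow_le_pow_right₀ hL1 (by omega)

theorem s0p_big (c : ℝ) (hc : 0 < c) (B : ℕ) : ∃ Y₀ : ℕ, ∀ Y : ℕ, Y₀ ≤ Y → ∀ E : ℝ, 0 ≤ E →
    E ^ 2 ≤ Y → E * Real.log Y ^ B ≤ c * Y := by
  have h1 : ∀ᶠ x : ℝ in Filter.atTop, ‖Real.log x ^ (2 * B)‖ ≤ c ^ 2 * ‖x‖ := by
    have := (Real.isLittleO_pow_log_id_atTop (n := 2 * B)).bound (c := c ^ 2) (by positivity)
    simpa using this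
  have h2 : ∀ᶠ Y : ℕ in Filter.atTop, ‖Real.log (Y : ℝ) ^ (2 * B)‖ ≤ c ^ 2 * ‖(Y : ℝ)‖ :=
    tendsto_natCast_atTop_atTop.eventually h1
  obtain ⟨Y₀, hY₀⟩ := Filter.eventually_atTop.1 h2
  refine ⟨Y₀ + 1, ?_⟩
  intro Y hY E hE hEY
  have h3 := hY₀ Y (by omega)
  have hY1 : (1 : ℝ) ≤ Y := by
    have : 1 ≤ Y := by omega
    exact_mod_cast this
  have hL : 0 ≤ Real.log Y := Real.log_nonneg hY1
  rw [Real.norm_of_nonneg (pow_nonneg hL _), Real.norm_of_nonneg (by linarith)] at h3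
  rw [← pow_le_pow_iff_left₀ (mul_nonneg hE (pow_nonneg hL _)) (by positivity) two_ne_zero]
  calc (E * Real.log Y ^ B) ^ 2 = E ^ 2 * Real.log Y ^ (2 * B) := by ring
    _ ≤ Y * (c ^ 2 * Y) := mul_le_mul hEY h3 (pow_nonneg hL _) (by linarith)
    _ = (c * Y) ^ 2 := by ring

theorem s0p_num {S T E β N : ℝ} (hβ0 : 0 ≤ β) (hβ1 : β ≤ 1) (hE0 : 0 ≤ E) (hS : E ≤ β * S)
    (hT : E ≤ β * T) (hS0 : 0 ≤ S) (hT0 : 0 ≤ T) (hN : |N - S| ≤ β * S + E) :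
    N * (β * T + E) + |N - S| * T ≤ 16 * β * (S * T) := by
  have h1 : N ≤ S + (β * S + E) := by
    have := (abs_le.1 hN).2
    linarith
  have hST : 0 ≤ S * T := mul_nonneg hS0 hT0
  have h2 : N * (β * T + E) ≤ (S + (β * S + E)) * (β * T + E) :=
    mul_le_mul_of_nonneg_right h1 (by positivity)
  have h3 : |N - S| * T ≤ (β * S + E) * T := mul_le_mul_of_nonneg_right hN hT0
  have e1 : (β * S + E) * T ≤ (2 * β) * (S * T) := by nlinarith
  have e2 : (S + (β * S + E)) * (β * T + E) ≤ (3 * S) * (2 * (β * T)) := by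
    apply mul_le_mul
    · nlinarith
    · linarith
    · positivity
    · positivity
  nlinarith [mul_nonneg hβ0 hST]

theorem s0p_count (W m R X Y : ℕ) : (SZ W m R X Y).card =
    ∑ x ∈ (Ioc X (2 * X)).filter (fun x => ∀ p ∈ PS W R, ¬ p ∣ x),
      ((Ioc Y (2 * Y)).filter (fun y => y % W = 1 % W ∧
        ∀ p ∈ PS W R, ∀ l < m, ¬ p ∣ y - W * (l + 1) * x)).card := by
  classical
  unfold SZ
  rw [Finset.card_filter, Finset.sum_product, Finset.sum_filter]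
  refine Finset.sum_congr rfl fun x _ => ?_
  split_ifs with h
  · rw [Finset.card_filter]
    refine Finset.sum_congr rfl fun y _ => ?_
    refine if_congr ?_ rfl rfl
    constructor
    · rintro ⟨h1, h2⟩
      exact ⟨h1, fun p hp => (h2 p hp).2⟩
    · rintro ⟨h1, h2⟩
      exact ⟨h1, fun p hp => ⟨h p hp, h2 p hp⟩⟩
  · refine Finset.sum_eq_zero fun y _ => if_neg ?_
    rintro ⟨h1, h2⟩
    exact h fun p hp => (h2 p hp).1

open Classical in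
/-- the inner statement of `FLI` -/
def FLIat (C : ℕ) : Prop := ∀ κ b W q : ℕ, C * (κ + 1) ≤ b → 1 ≤ W →
  (∀ p : ℕ, p.Prime → p ≤ C * (κ + 1) → p ∣ W) → 1 ≤ q →
  ∀ u v J a : ℕ, u ≤ v → (∀ p ∈ PS W (2 ^ 2 ^ J), ¬ p ∣ q) →
    ∀ Om : ℕ → Finset ℕ, (∀ p ∈ PS W (2 ^ 2 ^ J), (Om p).card = κ ∧ ∀ c ∈ Om p, c < p) →
    |(((Ioc u v).filter (fun n => n % q = a % q ∧
        ∀ p ∈ PS W (2 ^ 2 ^ J), n % p ∉ Om p)).card : ℝ) -
      (((v : ℝ) - u) / q) * PIj W (2 ^ 2 ^ J) κ| ≤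
      (1 / 2 : ℝ) ^ b * ((((v : ℝ) - u) / q) * PIj W (2 ^ 2 ^ J) κ) +
        ((2 : ℝ) ^ 2 ^ J) ^ (C * b)

open Classical in
theorem s0p_x {C0 : ℕ} (hF : FLIat C0) {b W J k X : ℕ} (hb : C0 * (1 + 1) ≤ b) (hW : 1 ≤ W)
    (hk : C0 * (1 + 1) ≤ k) (hk1 : 1 ≤ k) (hp : ∀ p : ℕ, p.Prime → p ≤ k → p ∣ W) :
    |(((Ioc X (2 * X)).filter (fun x => ∀ p ∈ PS W (2 ^ 2 ^ J), ¬ p ∣ x)).card : ℝ) -
      X * PIj W (2 ^ 2 ^ J) 1| ≤ (1 / 2 : ℝ) ^ b * (X * PIj W (2 ^ 2 ^ J) 1) +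
        ((2 : ℝ) ^ 2 ^ J) ^ (C0 * b) := by
  have h1 := hF 1 b W 1 hb hW (fun p hpp hle => hp p hpp (hle.trans hk)) le_rfl
    X (2 * X) J 0 (by omega) (by
      intro p hpp hdvd
      have h2 := s0p_PS_lt hp hpp
      have h3 := Nat.le_of_dvd one_pos hdvd
      omega) (fun _ => {0}) (by
      intro p hpp
      refine ⟨card_singleton _, ?_⟩
      intro c hc
      rw [mem_singleton] at hc
      have h2 := s0p_PS_lt hp hpp
      omega)
  have e1 : ((Ioc X (2 * X)).filter (fun n => n % 1 = 0 % 1 ∧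
      ∀ p ∈ PS W (2 ^ 2 ^ J), n % p ∉ ({0} : Finset ℕ))) =
      (Ioc X (2 * X)).filter (fun x => ∀ p ∈ PS W (2 ^ 2 ^ J), ¬ p ∣ x) := by
    ext n
    refine (@mem_filter _ _ (_) _ _).trans (Iff.trans ?_ (@mem_filter _ _ (_) _ _).symm)
    refine and_congr_right fun _ => ?_
    simp only [Nat.mod_one, mem_singleton, true_and]
    refine forall₂_congr fun p _ => ?_
    rw [Nat.dvd_iff_mod_eq_zero]
  have e2 : (((2 * X : ℕ) : ℝ) - X) / ((1 : ℕ) : ℝ) * PIj W (2 ^ 2 ^ J) 1 =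
      X * PIj W (2 ^ 2 ^ J) 1 := by
    push_cast
    ring
  rw [e2] at h1
  rw [← e1]
  exact h1

open Classical in
theorem s0p_y {C0 : ℕ} (hF : FLIat C0) {m b W J k X Y x : ℕ} (hb : C0 * (m + 1) ≤ b)
    (hW : 1 ≤ W) (hk : C0 * (m + 1) ≤ k) (hmk : m ≤ k)
    (hp : ∀ p : ℕ, p.Prime → p ≤ k → p ∣ W) (hx2 : x ≤ 2 * X) (hX : W * m * 2 * X ≤ Y)
    (hx3 : ∀ p ∈ PS W (2 ^ 2 ^ J), ¬ p ∣ x) :
    |(((Ioc Y (2 * Y)).filter (fun y => y % W = 1 % W ∧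
      ∀ p ∈ PS W (2 ^ 2 ^ J), ∀ l < m, ¬ p ∣ y - W * (l + 1) * x)).card : ℝ) -
      Y / W * PIj W (2 ^ 2 ^ J) m| ≤ (1 / 2 : ℝ) ^ b * (Y / W * PIj W (2 ^ 2 ^ J) m) +
        ((2 : ℝ) ^ 2 ^ J) ^ (C0 * b) := by
  obtain ⟨Om, hOm⟩ : ∃ Om : ℕ → Finset ℕ,
    Om = fun p => (range m).image (fun l => (W * (l + 1) * x) % p) := ⟨_, rfl⟩
  have hOm1 : ∀ p ∈ PS W (2 ^ 2 ^ J), (Om p).card = m ∧ ∀ c ∈ Om p, c < p := by
    intro p hpp
    have hlt := s0p_PS_lt hp hpp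
    have hprime : p.Prime := by
      unfold PS at hpp
      exact (mem_filter.1 hpp).2.1
    have hpW : ¬ p ∣ W := by
      unfold PS at hpp
      exact (mem_filter.1 hpp).2.2
    have hmp : m < p := by omega
    rw [hOm]
    refine ⟨?_, ?_⟩
    · rw [card_image_of_injOn, card_range]
      intro l hl l' hl' hll
      rw [coe_range, Set.mem_Iio] at hl hl'
      have h2 : W * (l + 1) * x ≡ W * (l' + 1) * x [MOD p] := hll
      have h3 : (l + 1) * (W * x) ≡ (l' + 1) * (W * x) [MOD p] := by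
        have e1 : W * (l + 1) * x = (l + 1) * (W * x) := by ring
        have e2 : W * (l' + 1) * x = (l' + 1) * (W * x) := by ring
        rwa [e1, e2] at h2
      have hcop : Nat.gcd p (W * x) = 1 := by
        rw [← Nat.coprime_iff_gcd_eq_one]
        exact ((hprime.coprime_iff_not_dvd).2 hpW).mul_right
          ((hprime.coprime_iff_not_dvd).2 (hx3 p hpp))
      have h4 := Nat.ModEq.cancel_right_of_coprime hcop h3
      have h5 : (l + 1) % p = (l' + 1) % p := h4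
      rw [Nat.mod_eq_of_lt (by omega), Nat.mod_eq_of_lt (by omega)] at h5
      omega
    · intro c hc
      obtain ⟨l, -, rfl⟩ := mem_image.1 hc
      exact Nat.mod_lt _ hprime.pos
  have h1 := hF m b W W hb hW (fun p hpp hle => hp p hpp (hle.trans hk)) hW
    Y (2 * Y) J 1 (by omega) (by
      intro p hpp
      unfold PS at hpp
      exact (mem_filter.1 hpp).2.2) Om hOm1
  have e1 : ((Ioc Y (2 * Y)).filter (fun n => n % W = 1 % W ∧
      ∀ p ∈ PS W (2 ^ 2 ^ J), n % p ∉ Om p)) = (Ioc Y (2 * Y)).filter (fun y => y % W = 1 % W ∧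
      ∀ p ∈ PS W (2 ^ 2 ^ J), ∀ l < m, ¬ p ∣ y - W * (l + 1) * x) := by
    ext y
    refine (@mem_filter _ _ (_) _ _).trans (Iff.trans ?_ (@mem_filter _ _ (_) _ _).symm)
    refine and_congr_right fun hy => ?_
    rw [mem_Ioc] at hy
    refine and_congr_right fun _ => forall₂_congr fun p _ => ?_
    rw [hOm]
    simp only [mem_image, mem_range, not_exists, not_and]
    refine forall₂_congr fun l hl => ?_
    have hle : W * (l + 1) * x ≤ y := by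
      have h2 : W * (l + 1) * x ≤ W * m * (2 * X) :=
        Nat.mul_le_mul (Nat.mul_le_mul_left _ (by omega)) hx2
      have h5 : W * m * (2 * X) = W * m * 2 * X := by ring
      omega
    rw [← Nat.modEq_iff_dvd' hle]
    rfl
  have e2 : (((2 * Y : ℕ) : ℝ) - Y) / (W : ℝ) * PIj W (2 ^ 2 ^ J) m =
      Y / W * PIj W (2 ^ 2 ^ J) m := by
    push_cast
    ring
  rw [e2] at h1
  rw [← e1]
  exact h1

open Classical in
theorem s0p_sum {W m R X Y : ℕ} {S T β E : ℝ} (hβ0 : 0 ≤ β) (hβ1 : β ≤ 1) (hE0 : 0 ≤ E)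
    (hES : E ≤ β * S) (hET : E ≤ β * T) (hS0 : 0 ≤ S) (hT0 : 0 ≤ T)
    (hN : |(((Ioc X (2 * X)).filter (fun x => ∀ p ∈ PS W R, ¬ p ∣ x)).card : ℝ) - S| ≤
      β * S + E)
    (hNx : ∀ x ∈ (Ioc X (2 * X)).filter (fun x => ∀ p ∈ PS W R, ¬ p ∣ x),
      |(((Ioc Y (2 * Y)).filter (fun y => y % W = 1 % W ∧
      ∀ p ∈ PS W R, ∀ l < m, ¬ p ∣ y - W * (l + 1) * x)).card : ℝ) - T| ≤ β * T + E) :
    |((SZ W m R X Y).card : ℝ) - S * T| ≤ 16 * β * (S * T) := by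
  obtain ⟨Xs, hXs⟩ : ∃ Xs : Finset ℕ, Xs = (Ioc X (2 * X)).filter
    (fun x => ∀ p ∈ PS W R, ¬ p ∣ x) := ⟨_, rfl⟩
  obtain ⟨N, hNd⟩ : ∃ N : ℕ → ℝ, N = fun x => (((Ioc Y (2 * Y)).filter
      (fun y => y % W = 1 % W ∧
        ∀ p ∈ PS W R, ∀ l < m, ¬ p ∣ y - W * (l + 1) * x)).card : ℝ) := ⟨_, rfl⟩
  have hsum : ((SZ W m R X Y).card : ℝ) = ∑ x ∈ Xs, N x := by
    rw [s0p_count, hXs, hNd]
    push_cast
    congr
  rw [← hXs] at hN hNx
  have hNx' : ∀ x ∈ Xs, |N x - T| ≤ β * T + E := by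
    rw [hNd]
    exact hNx
  rw [hsum]
  have key : |∑ x ∈ Xs, N x - S * T| ≤
      (Xs.card : ℝ) * (β * T + E) + |(Xs.card : ℝ) - S| * T := by
    have e : ∑ x ∈ Xs, N x - S * T = ∑ x ∈ Xs, (N x - T) + ((Xs.card : ℝ) - S) * T := by
      rw [Finset.sum_sub_distrib, Finset.sum_const, nsmul_eq_mul]
      ring
    rw [e]
    refine (abs_add_le _ _).trans (add_le_add ?_ ?_)
    · refine (Finset.abs_sum_le_sum_abs _ _).trans ?_
      refine (Finset.sum_le_sum hNx').trans ?_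
      rw [Finset.sum_const, nsmul_eq_mul]
    · rw [abs_mul, abs_of_nonneg hT0]
  exact key.trans (s0p_num hβ0 hβ1 hE0 hES hET hS0 hT0 hN)

open Classical in
theorem s0p_fin {m W K X Y R B1 B2 : ℕ} {β E P1 Pm : ℝ} (hβ0 : 0 < β) (hβ1 : β ≤ 1)
    (hE0 : 0 ≤ E) (hKr : (1 : ℝ) ≤ K) (hWr : (1 : ℝ) ≤ W) (hL : 0 < Real.log Y)
    (hXYr : (Y : ℝ) ≤ 2 * K * X) (hP1 : 1 / Real.log Y ^ B1 ≤ P1)
    (hPm : 1 / Real.log Y ^ B2 ≤ Pm) (h3 : E * Real.log Y ^ B1 ≤ β / (2 * K) * Y)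
    (h4 : E * Real.log Y ^ B2 ≤ β / W * Y)
    (hx : |(((Ioc X (2 * X)).filter (fun x => ∀ p ∈ PS W R, ¬ p ∣ x)).card : ℝ) - X * P1| ≤
      β * (X * P1) + E)
    (hy : ∀ x ≤ 2 * X, (∀ p ∈ PS W R, ¬ p ∣ x) →
      |(((Ioc Y (2 * Y)).filter (fun y => y % W = 1 % W ∧
      ∀ p ∈ PS W R, ∀ l < m, ¬ p ∣ y - W * (l + 1) * x)).card : ℝ) - Y / W * Pm| ≤
        β * (Y / W * Pm) + E) :
    |((SZ W m R X Y).card : ℝ) - ((X : ℝ) * Y / W) * (P1 * Pm)| ≤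
      16 * β * (((X : ℝ) * Y / W) * (P1 * Pm)) := by
  have hP1pos : 0 < P1 := lt_of_lt_of_le (by positivity) hP1
  have hPmpos : 0 < Pm := lt_of_lt_of_le (by positivity) hPm
  have hES : E ≤ β * (X * P1) := by
    have h2 : E ≤ β / (2 * K) * Y / Real.log Y ^ B1 := by
      rw [le_div_iff₀ (pow_pos hL _)]
      exact h3
    refine h2.trans ?_
    calc β / (2 * K) * Y / Real.log Y ^ B1 = β * (Y / (2 * K)) * (1 / Real.log Y ^ B1) := by
          ring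
      _ ≤ β * X * P1 := by
          apply mul_le_mul _ hP1 (by positivity) (by positivity)
          apply mul_le_mul_of_nonneg_left _ hβ0.le
          rw [div_le_iff₀ (by positivity)]
          linarith
      _ = β * (X * P1) := by ring
  have hET : E ≤ β * (Y / W * Pm) := by
    have h2 : E ≤ β / W * Y / Real.log Y ^ B2 := by
      rw [le_div_iff₀ (pow_pos hL _)]
      exact h4
    refine h2.trans ?_
    calc β / W * Y / Real.log Y ^ B2 = β * (Y / W) * (1 / Real.log Y ^ B2) := by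
          ring
      _ ≤ β * (Y / W) * Pm := by
          apply mul_le_mul_of_nonneg_left hPm (by positivity)
      _ = β * (Y / W * Pm) := by ring
  have hfin := s0p_sum (W := W) (m := m) (R := R) (X := X) (Y := Y)
    (S := X * P1) (T := Y / W * Pm) hβ0.le hβ1 hE0 hES hET (by positivity) (by positivity) hx
    (by
      intro x hxx
      have hxx' := (@mem_filter _ _ (_) _ _).1 hxx
      rw [mem_Ioc] at hxx'
      exact hy x hxx'.1.2 hxx'.2)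
  have hmain : (((X : ℕ) : ℝ) * Y / W) * (P1 * Pm) = (X * P1) * (Y / W * Pm) := by
    ring
  rw [hmain]
  exact hfin

theorem s0p (hF : FLI) (hC : PRC) : S0P := by
  obtain ⟨C0, hC0, hF⟩ := hF
  have hF' : FLIat C0 := hF
  refine ⟨2 * C0, by omega, ?_⟩
  intro m b W K hm hb hW hp hK
  have hK1 : 1 ≤ K := by
    have : 1 ≤ W * m * 2 ^ (b + 4) := Nat.one_le_iff_ne_zero.2 (by positivity)
    omega
  have hbig : 4 ≤ 2 * C0 * (m + 1) := by nlinarith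
  have hCm : C0 * (m + 1) ≤ 2 * C0 * (m + 1) := by nlinarith
  have hC2 : C0 * (1 + 1) ≤ 2 * C0 * (m + 1) := by nlinarith
  have h2m : 2 * (m + 1) ≤ 2 * C0 * (m + 1) := by nlinarith
  have h22 : 2 * (1 + 1) ≤ 2 * C0 * (m + 1) := by omega
  have hb0 : 1 ≤ b := by omega
  obtain ⟨B1, Y1, hB1⟩ := s0p_low hC 1 W hW (fun p hpp hle => hp p hpp (hle.trans h22))
  obtain ⟨B2, Y2, hB2⟩ := s0p_low hC m W hW (fun p hpp hle => hp p hpp (hle.trans h2m))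
  obtain ⟨β, hβ⟩ : ∃ β : ℝ, β = (1 / 2 : ℝ) ^ b := ⟨_, rfl⟩
  have hβ0 : 0 < β := by rw [hβ]; positivity
  have hβ1 : β ≤ 1 := by rw [hβ]; exact pow_le_one₀ (by norm_num) (by norm_num)
  have hKr : (1 : ℝ) ≤ K := by exact_mod_cast hK1
  have hWr : (1 : ℝ) ≤ W := by exact_mod_cast hW
  obtain ⟨Y3, hY3⟩ := s0p_big (β / (2 * K)) (by positivity) B1
  obtain ⟨Y4, hY4⟩ := s0p_big (β / W) (by positivity) B2
  refine ⟨Y1 + Y2 + Y3 + Y4 + K + 3, ?_⟩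
  intro Y J hY hJ
  have hR2 : 2 ≤ 2 ^ 2 ^ J := by
    calc 2 = 2 ^ 1 := by norm_num
      _ ≤ 2 ^ 2 ^ J := Nat.pow_le_pow_right (by norm_num) (Nat.one_le_two_pow)
  have hRY : 2 ^ 2 ^ J ≤ Y := by
    refine le_trans ?_ hJ
    have h1 : 1 ≤ 2 * C0 * b := by nlinarith
    calc 2 ^ 2 ^ J = (2 ^ 2 ^ J) ^ 1 := (pow_one _).symm
      _ ≤ (2 ^ 2 ^ J) ^ (2 * C0 * b) := Nat.pow_le_pow_right (by omega) h1
  obtain ⟨E, hE⟩ : ∃ E : ℝ, E = ((2 : ℝ) ^ 2 ^ J) ^ (C0 * b) := ⟨_, rfl⟩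
  have hE0 : 0 ≤ E := by rw [hE]; positivity
  have hE2 : E ^ 2 ≤ Y := by
    rw [hE, ← pow_mul]
    have : C0 * b * 2 = 2 * C0 * b := by ring
    rw [this]
    exact_mod_cast hJ
  have hY3' : (3 : ℝ) ≤ Y := by
    have : 3 ≤ Y := by omega
    exact_mod_cast this
  have hL : 0 < Real.log Y := Real.log_pos (by linarith)
  obtain ⟨X, hX⟩ : ∃ X : ℕ, X = Y / K := ⟨_, rfl⟩
  rw [← hX]
  have hXY : Y ≤ 2 * K * X := by
    have h1 : 1 ≤ X := by rw [hX]; exact (Nat.one_le_div_iff (by omega)).2 (by omega)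
    have h2 : Y < K * (X + 1) := by
      rw [hX]
      exact Nat.lt_mul_div_succ Y (by omega)
    nlinarith
  have hXYr : (Y : ℝ) ≤ 2 * K * X := by exact_mod_cast hXY
  have hKX : K * X ≤ Y := by rw [hX]; exact Nat.mul_div_le Y K
  have hWX : W * m * 2 * X ≤ Y := by
    have h3 : W * m * 2 ≤ K := by
      calc W * m * 2 = W * m * 2 ^ 1 := by norm_num
        _ ≤ W * m * 2 ^ (b + 4) :=
          Nat.mul_le_mul_left _ (Nat.pow_le_pow_right (by norm_num) (by omega))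
        _ ≤ K := hK
    exact (Nat.mul_le_mul_right _ h3).trans hKX
  have hP1 := hB1 Y (by omega) (2 ^ 2 ^ J) hR2 hRY
  have hPm := hB2 Y (by omega) (2 ^ 2 ^ J) hR2 hRY
  have hP1pos : 0 < PIj W (2 ^ 2 ^ J) 1 := s0p_PIj_pos hp (by omega)
  have hPmpos : 0 < PIj W (2 ^ 2 ^ J) m := s0p_PIj_pos hp (by omega)
  have hx := s0p_x (J := J) (X := X) hF' (hC2.trans hb) hW hC2 (by omega) hp
  rw [← hβ, ← hE] at hx
  rw [← hβ]
  refine s0p_fin hβ0 hβ1 hE0 hKr hWr hL hXYr hP1 hPm (hY3 Y (by omega) E hE0 hE2)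
    (hY4 Y (by omega) E hE0 hE2) (by convert hx) ?_
  intro x hx2 hx3
  have hy := s0p_y (J := J) (X := X) (Y := Y) (x := x) hF' (hCm.trans hb) hW hCm
      (by omega) hp hx2 hWX hx3
  rw [← hβ, ← hE] at hy
  convert hy

end Pool.Agent.TH423.SH
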