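import Pool.Agent.TH423.SH.StmB

/-!
`S1P` from `FLI`, `PRC`, `PAI` (helper857, for helper423).
-/

set_option autoImplicit false
set_option linter.style.haveILetI false
set_option linter.unusedVariables false

open Finset

namespace Pool.Agent.TH423.SH.S1PX

/-- the forbidden residue classes -/
def cl (W m i n p : ℕ) (l : ℕ) : ZMod p :=
  if l = i then 0 else -(n : ZMod p) * ((W : ZMod p) * ((i : ZMod p) - (l : ZMod p)))⁻¹

open Classical in
noncomputable def Om (W m i n p : ℕ) : Finset ℕ := (range m).image fun l => (cl W m i n p l).val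

open Classical in
/-- the admissible `x` for `n` -/
noncomputable def G (W m R X i n : ℕ) : Finset ℕ :=
  (Ioc X (2 * X)).filter fun x => ∀ p ∈ PS W R, ¬ p ∣ x ∧
    ∀ l < m, ¬ (p : ℤ) ∣ (n : ℤ) + W * ((i : ℤ) - l) * x

lemma sub_ne {m p i l : ℕ} (hp : p.Prime) (hmp : m < p) (hi : i < m) (hl : l < m) (hil : l ≠ i) :
    ((i : ZMod p) - (l : ZMod p)) ≠ 0 := by
  haveI := Fact.mk hp
  intro h
  rw [sub_eq_zero, ZMod.natCast_eq_natCast_iff'] at h
  rw [Nat.mod_eq_of_lt (hi.trans hmp), Nat.mod_eq_of_lt (hl.trans hmp)] at h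
  exact hil h.symm

lemma form_iff {W m p i l n x : ℕ} (hp : p.Prime) (hmp : m < p) (hi : i < m) (hl : l < m)
    (hil : l ≠ i) (hW : ¬ p ∣ W) :
    (p : ℤ) ∣ (n : ℤ) + W * ((i : ℤ) - l) * x ↔ (x : ZMod p) = cl W m i n p l := by
  haveI := Fact.mk hp
  have h1 := sub_ne hp hmp hi hl hil
  have h2 : (W : ZMod p) ≠ 0 := by
    intro h
    exact hW ((ZMod.natCast_eq_zero_iff W p).mp h)
  rw [← ZMod.intCast_zmod_eq_zero_iff_dvd]
  unfold cl
  rw [if_neg hil]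
  push_cast
  constructor
  · intro h
    have h3 : (W : ZMod p) * ((i : ZMod p) - l) * x = -(n : ZMod p) := by linear_combination h
    rw [← h3]
    field_simp
  · intro h
    rw [h]
    field_simp
    ring

lemma mod_iff {p x : ℕ} (hp : p.Prime) (z : ZMod p) : x % p = z.val ↔ (x : ZMod p) = z := by
  haveI := Fact.mk hp
  constructor
  · intro h
    have h1 : ((x % p : ℕ) : ZMod p) = (z.val : ZMod p) := by rw [h]
    rwa [ZMod.natCast_mod, ZMod.natCast_zmod_val] at h1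
  · intro h
    rw [← h, ZMod.val_natCast]

lemma cl_inj {W m p i n : ℕ} (hp : p.Prime) (hmp : m < p) (hi : i < m) (hW : ¬ p ∣ W)
    (hn : ¬ p ∣ n) {l l' : ℕ} (hl : l < m) (hl' : l' < m)
    (h : cl W m i n p l = cl W m i n p l') : l = l' := by
  haveI := Fact.mk hp
  have h2 : (W : ZMod p) ≠ 0 := by
    intro h
    exact hW ((ZMod.natCast_eq_zero_iff W p).mp h)
  have h3 : (n : ZMod p) ≠ 0 := by
    intro h
    exact hn ((ZMod.natCast_eq_zero_iff n p).mp h)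
  unfold cl at h
  by_cases h4 : l = i
  · by_cases h5 : l' = i
    · rw [h4, h5]
    · exfalso
      rw [if_pos h4, if_neg h5] at h
      have h1 := sub_ne hp hmp hi hl' h5
      exact (mul_ne_zero (neg_ne_zero.mpr h3) (inv_ne_zero (mul_ne_zero h2 h1))) h.symm
  · by_cases h5 : l' = i
    · exfalso
      rw [if_neg h4, if_pos h5] at h
      have h1 := sub_ne hp hmp hi hl h4
      exact (mul_ne_zero (neg_ne_zero.mpr h3) (inv_ne_zero (mul_ne_zero h2 h1))) h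
    · rw [if_neg h4, if_neg h5] at h
      have h6 := mul_left_cancel₀ (neg_ne_zero.mpr h3) h
      have h7 := inv_injective h6
      have h8 := mul_left_cancel₀ h2 h7
      have h9 : (l : ZMod p) = (l' : ZMod p) := by linear_combination -h8
      rw [ZMod.natCast_eq_natCast_iff', Nat.mod_eq_of_lt (hl.trans hmp),
        Nat.mod_eq_of_lt (hl'.trans hmp)] at h9
      exact h9

lemma G_eq {W m R X i n : ℕ} (hi : i < m) (hR : ∀ p ∈ PS W R, m < p)
    (hn : ∀ p ∈ PS W R, ¬ p ∣ n) :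
    G W m R X i n = (Ioc X (2 * X)).filter fun x => x % 1 = 0 % 1 ∧
      ∀ p ∈ PS W R, x % p ∉ Om W m i n p := by
  classical
  unfold G
  ext x
  simp only [mem_filter, and_congr_right_iff, Nat.mod_one, true_and]
  intro _
  refine forall_congr' fun p => forall_congr' fun hp => ?_
  have hp' := hp
  rw [PS, mem_filter] at hp'
  obtain ⟨-, hpp, hpW⟩ := hp'
  have hmp := hR p hp
  have hOm : x % p ∉ Om W m i n p ↔ ∀ l < m, (x : ZMod p) ≠ cl W m i n p l := by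
    unfold Om
    rw [mem_image]
    push Not
    refine forall_congr' fun l => ?_
    rw [mem_range]
    refine forall_congr' fun hl => ?_
    rw [ne_comm, Ne, mod_iff hpp]
  rw [hOm]
  constructor
  · rintro ⟨h1, h2⟩ l hl
    by_cases hil : l = i
    · unfold cl
      rw [if_pos hil]
      intro h
      exact h1 ((ZMod.natCast_eq_zero_iff x p).mp h)
    · intro h
      exact h2 l hl ((form_iff hpp hmp hi hl hil hpW).mpr h)
  · intro h
    constructor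
    · intro h1
      have h2 := h i hi
      unfold cl at h2
      rw [if_pos rfl] at h2
      exact h2 ((ZMod.natCast_eq_zero_iff x p).mpr h1)
    · intro l hl h1
      by_cases hil : l = i
      · subst hil
        rw [sub_self, mul_zero, zero_mul, add_zero] at h1
        exact hn p hp (by exact_mod_cast h1)
      · exact h l hl ((form_iff hpp hmp hi hl hil hpW).mp h1)

open Classical in
/-- the body of `FLI` -/
def FLIc (C : ℕ) : Prop := ∀ κ b W q : ℕ, C * (κ + 1) ≤ b → 1 ≤ W →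
  (∀ p : ℕ, p.Prime → p ≤ C * (κ + 1) → p ∣ W) → 1 ≤ q →
  ∀ u v J a : ℕ, u ≤ v → (∀ p ∈ PS W (2 ^ 2 ^ J), ¬ p ∣ q) →
    ∀ Om : ℕ → Finset ℕ, (∀ p ∈ PS W (2 ^ 2 ^ J), (Om p).card = κ ∧ ∀ c ∈ Om p, c < p) →
    |(((Ioc u v).filter (fun n => n % q = a % q ∧
        ∀ p ∈ PS W (2 ^ 2 ^ J), n % p ∉ Om p)).card : ℝ) -
      (((v : ℝ) - u) / q) * PIj W (2 ^ 2 ^ J) κ| ≤
      (1 / 2 : ℝ) ^ b * ((((v : ℝ) - u) / q) * PIj W (2 ^ 2 ^ J) κ) +
        ((2 : ℝ) ^ 2 ^ J) ^ (C * b)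

lemma fib {CF : ℕ} (hF : FLIc CF)
    {m b W J X i n : ℕ} (hb : CF * (m + 1) ≤ b) (hW : 1 ≤ W)
    (hWp : ∀ p : ℕ, p.Prime → p ≤ CF * (m + 1) → p ∣ W) (hi : i < m)
    (hR : ∀ p ∈ PS W (2 ^ 2 ^ J), m < p) (hn : ∀ p ∈ PS W (2 ^ 2 ^ J), ¬ p ∣ n) :
    |((G W m (2 ^ 2 ^ J) X i n).card : ℝ) - X * PIj W (2 ^ 2 ^ J) m| ≤
      (1 / 2 : ℝ) ^ b * (X * PIj W (2 ^ 2 ^ J) m) + ((2 : ℝ) ^ 2 ^ J) ^ (CF * b) := by
  classical
  have h1 := hF m b W 1 hb hW hWp le_rfl X (2 * X) J 0 (by omega)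
    (fun p hp => by
      rw [PS, mem_filter] at hp
      intro h
      exact hp.2.1.one_lt.ne' (Nat.dvd_one.mp h))
    (Om W m i n) (fun p hp => by
      have hp' := hp
      rw [PS, mem_filter] at hp'
      obtain ⟨-, hpp, hpW⟩ := hp'
      haveI := Fact.mk hpp
      constructor
      · unfold Om
        rw [card_image_of_injOn, card_range]
        intro l hl l' hl' h
        rw [coe_range, Set.mem_Iio] at hl hl'
        exact cl_inj hpp (hR p hp) hi hpW (hn p hp) hl hl' (ZMod.val_injective p h)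
      · intro c hc
        unfold Om at hc
        rw [mem_image] at hc
        obtain ⟨l, -, rfl⟩ := hc
        exact ZMod.val_lt _)
  rw [G_eq hi hR hn]
  have h2 : (((2 * X : ℕ) : ℝ) - X) / ((1 : ℕ) : ℝ) = X := by push_cast; ring
  rw [h2] at h1
  convert h1

/-- small factors -/
lemma small {a b Y : ℕ} (ha : a ^ 8 ≤ Y) (hb : b ^ 8 ≤ Y) (hY : 4 ≤ Y) : a * b * 2 < Y := by
  by_contra h
  push Not at h
  have h1 : Y ^ 8 ≤ (a * b * 2) ^ 8 := Nat.pow_le_pow_left h 8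
  have h2 : (a * b * 2) ^ 8 = 256 * (a ^ 8 * b ^ 8) := by ring
  have h3 : a ^ 8 * b ^ 8 ≤ Y * Y := Nat.mul_le_mul ha hb
  have h4 : Y ^ 8 ≤ 256 * (Y * Y) := by
    rw [h2] at h1
    exact h1.trans (Nat.mul_le_mul_left _ h3)
  have h5 : Y ^ 8 = Y ^ 6 * (Y * Y) := by ring
  rw [h5] at h4
  have h6 : Y ^ 6 ≤ 256 := Nat.le_of_mul_le_mul_right h4 (by positivity)
  have h7 : 4 ^ 6 ≤ Y ^ 6 := Nat.pow_le_pow_left hY 6
  omega

/-- members of `A_E` have no prime factor in `PS` -/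
lemma notdvd {W R Y n : ℕ} {E : Finset ℕ} (hE : okE W R Y E) (hR : R ^ 8 ≤ Y) (hY : 4 ≤ Y)
    (hn : Y ≤ 2 * n) (hA : inA W E n) : ∀ p ∈ PS W R, ¬ p ∣ n := by
  intro p hp h
  obtain ⟨-, e, he, q, hq, rfl⟩ := hA
  obtain ⟨he1, he8, heW, hep⟩ := hE e he
  have hp' := hp
  rw [PS, mem_filter, mem_Icc] at hp'
  obtain ⟨⟨-, hpR⟩, hpp, -⟩ := hp'
  rcases (Nat.Prime.dvd_mul hpp).mp h with h1 | h1
  · exact hep p hp h1
  · have h2 := (Nat.prime_dvd_prime_iff_eq hpp hq).mp h1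
    subst h2
    have h3 := small he8 ((Nat.pow_le_pow_left hpR 8).trans hR) hY
    omega

lemma uniq {W R Y e e' q q' : ℕ} {E : Finset ℕ} (hE : okE W R Y E) (hY : 4 ≤ Y)
    (he : e ∈ E) (he' : e' ∈ E) (hq : q.Prime) (hq' : q'.Prime) (h : e * q = e' * q')
    (hn : Y ≤ 2 * (e * q)) : e = e' ∧ q = q' := by
  obtain ⟨he1, he8, -, -⟩ := hE e he
  obtain ⟨he1', he8', -, -⟩ := hE e' he'
  have h1 : q = q' := by
    by_contra hne
    have h2 : q ∣ e' * q' := ⟨e, by rw [← h, mul_comm]⟩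
    rcases (Nat.Prime.dvd_mul hq).mp h2 with h3 | h3
    · have h4 : q ≤ e' := Nat.le_of_dvd (by omega) h3
      have h5 := small he8 he8' hY
      have h6 : e * q ≤ e * e' := Nat.mul_le_mul_left _ h4
      omega
    · exact hne ((Nat.prime_dvd_prime_iff_eq hq hq').mp h3)
  subst h1
  exact ⟨Nat.eq_of_mul_eq_mul_right hq.pos h, rfl⟩

lemma inv_mod {W e : ℕ} (hW : 1 ≤ W) (he : e.Coprime W) : ∃ a : ℕ, a.Coprime W ∧
    ∀ q : ℕ, (e * q) % W = 1 % W ↔ q % W = a % W := by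
  haveI : NeZero W := ⟨by omega⟩
  set u := ZMod.unitOfCoprime e he with hu
  have hue : (u : ZMod W) = (e : ZMod W) := ZMod.coe_unitOfCoprime e he
  refine ⟨((u⁻¹ : (ZMod W)ˣ) : ZMod W).val, ?_, fun q => ?_⟩
  · exact ZMod.val_coe_unit_coprime u⁻¹
  · have h1 : (e * q) % W = 1 % W ↔ ((e * q : ℕ) : ZMod W) = ((1 : ℕ) : ZMod W) :=
      (ZMod.natCast_eq_natCast_iff' _ _ _).symm
    have h2 : q % W = ((u⁻¹ : (ZMod W)ˣ) : ZMod W).val % W ↔
        (q : ZMod W) = ((((u⁻¹ : (ZMod W)ˣ) : ZMod W).val : ℕ) : ZMod W) :=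
      (ZMod.natCast_eq_natCast_iff' _ _ _).symm
    rw [h1, h2, ZMod.natCast_zmod_val]
    push_cast
    rw [← hue]
    constructor
    · intro h
      exact (Units.eq_inv_mul_iff_mul_eq u).mpr h |>.trans (mul_one _)
    · intro h
      rw [h, Units.mul_inv]

open Classical in
/-- the members of `A_E` in an interval -/
lemma card_inA {W R Y u' v' : ℕ} {E : Finset ℕ} (hW : 1 ≤ W) (hE : okE W R Y E) (hY : 4 ≤ Y)
    (hu : Y ≤ 2 * u') (a : ℕ → ℕ)
    (ha : ∀ e ∈ E, (a e).Coprime W ∧ ∀ q : ℕ, (e * q) % W = 1 % W ↔ q % W = (a e) % W) :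
    ((Ioc u' v').filter (inA W E)).card = ∑ e ∈ E, ((Ioc (u' / e) (v' / e)).filter
      (fun q => q.Prime ∧ q % W = a e % W)).card := by
  rw [← card_sigma]
  symm
  refine card_bij (fun z _ => z.1 * z.2) ?_ ?_ ?_
  · rintro ⟨e, q⟩ hz
    rw [mem_sigma, mem_filter, mem_Ioc] at hz
    obtain ⟨he, ⟨h1, h2⟩, hq, hqa⟩ := hz
    simp only at he h1 h2 hq hqa ⊢
    have he0 : 0 < e := (hE e he).1
    rw [mem_filter, mem_Ioc]
    refine ⟨⟨?_, ?_⟩, ((ha e he).2 q).mpr hqa, e, he, q, hq, rfl⟩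
    · have := (Nat.div_lt_iff_lt_mul he0).mp h1
      rwa [mul_comm] at this
    · have := (Nat.le_div_iff_mul_le he0).mp h2
      rwa [mul_comm] at this
  · rintro ⟨e, q⟩ hz ⟨e', q'⟩ hz' h
    rw [mem_sigma, mem_filter, mem_Ioc] at hz hz'
    obtain ⟨he, ⟨h1, h2⟩, hq, hqa⟩ := hz
    obtain ⟨he', ⟨h1', h2'⟩, hq', hqa'⟩ := hz'
    simp only at he h1 h2 hq hqa he' h1' h2' hq' hqa' h
    have he0 : 0 < e := (hE e he).1
    have h3 := (Nat.div_lt_iff_lt_mul he0).mp h1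
    rw [mul_comm] at h3
    obtain ⟨rfl, rfl⟩ := uniq hE hY he he' hq hq' h (by omega)
    rfl
  · intro n hn
    rw [mem_filter, mem_Ioc] at hn
    obtain ⟨⟨h1, h2⟩, h3, e, he, q, hq, rfl⟩ := hn
    have he0 : 0 < e := (hE e he).1
    refine ⟨⟨e, q⟩, ?_, rfl⟩
    rw [mem_sigma, mem_filter, mem_Ioc]
    refine ⟨he, ⟨?_, ?_⟩, hq, ((ha e he).2 q).mp h3⟩
    · exact (Nat.div_lt_iff_lt_mul he0).mpr (by rw [mul_comm]; exact h1)
    · exact (Nat.le_div_iff_mul_le he0).mpr (by rw [mul_comm]; exact h2)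

open Classical in
/-- upper bound by the fibres -/
lemma upper {W m R X Y i : ℕ} {E : Finset ℕ} (hW : 1 ≤ W) (hi : i < m) (hD : W * m * (2 * X) ≤ Y) :
    ((SZ W m R X Y).filter (fun z => inA W E (z.2 - W * (i + 1) * z.1))).card ≤
      ∑ n ∈ (Ioc (Y - W * m * (2 * X)) (2 * Y)).filter (inA W E), (G W m R X i n).card := by
  rw [← card_sigma]
  refine card_le_card_of_injOn (fun z => (⟨z.2 - W * (i + 1) * z.1, z.1⟩ : Σ _ : ℕ, ℕ)) ?_ ?_
  · rintro ⟨x, y⟩ hz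
    rw [mem_coe, mem_filter, SZ, mem_filter, mem_product, mem_Ioc, mem_Ioc] at hz
    obtain ⟨⟨⟨⟨hx1, hx2⟩, hy1, hy2⟩, hyW, hp⟩, hA⟩ := hz
    simp only at hx1 hx2 hy1 hy2 hyW hp hA
    have hle : ∀ l < m, W * (l + 1) * x ≤ W * m * (2 * X) := fun l hl =>
      Nat.mul_le_mul (Nat.mul_le_mul_left W hl) hx2
    have h1 := hle i hi
    rw [mem_coe, mem_sigma, mem_filter, mem_Ioc]
    refine ⟨⟨⟨?_, ?_⟩, hA⟩, ?_⟩
    · show Y - W * m * (2 * X) < y - W * (i + 1) * x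
      omega
    · show y - W * (i + 1) * x ≤ 2 * Y
      omega
    · show x ∈ G W m R X i (y - W * (i + 1) * x)
      rw [G, mem_filter, mem_Ioc]
      refine ⟨⟨hx1, hx2⟩, fun p hpp => ⟨(hp p hpp).1, fun l hl h => ?_⟩⟩
      apply (hp p hpp).2 l hl
      have h2 := hle l hl
      have h3 : ((y - W * (l + 1) * x : ℕ) : ℤ) =
          ((y - W * (i + 1) * x : ℕ) : ℤ) + W * ((i : ℤ) - l) * x := by
        rw [Nat.cast_sub (by omega), Nat.cast_sub (by omega)]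
        push_cast
        ring
      rw [← h3] at h
      exact_mod_cast h
  · rintro ⟨x, y⟩ hz ⟨x', y'⟩ hz' h
    rw [mem_coe, mem_filter, SZ, mem_filter, mem_product, mem_Ioc, mem_Ioc] at hz hz'
    obtain ⟨⟨⟨⟨hx1, hx2⟩, hy1, hy2⟩, hyW, hp⟩, hA⟩ := hz
    obtain ⟨⟨⟨⟨hx1', hx2'⟩, hy1', hy2'⟩, hyW', hp'⟩, hA'⟩ := hz'
    simp only at hx1 hx2 hy1 hy2 hx1' hx2' hy1' hy2'
    have hle : ∀ x ≤ 2 * X, W * (i + 1) * x ≤ W * m * (2 * X) := fun x hx =>
      Nat.mul_le_mul (Nat.mul_le_mul_left W hi) hx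
    have h1 := hle x hx2
    have h1' := hle x' hx2'
    simp only [Sigma.mk.injEq, heq_eq_eq] at h
    obtain ⟨h2, h3⟩ := h
    subst h3
    have : y = y' := by omega
    rw [this]

open Classical in
/-- lower bound by the fibres -/
lemma lower {W m R X Y i : ℕ} {E : Finset ℕ} (hW : 1 ≤ W) (hi : i < m) (hD : W * m * (2 * X) ≤ Y) :
    ∑ n ∈ (Ioc Y (2 * Y - W * m * (2 * X))).filter (inA W E), (G W m R X i n).card ≤
    ((SZ W m R X Y).filter (fun z => inA W E (z.2 - W * (i + 1) * z.1))).card := by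
  rw [← card_sigma]
  refine card_le_card_of_injOn (fun z => (z.2, z.1 + W * (i + 1) * z.2)) ?_ ?_
  · rintro ⟨n, x⟩ hz
    rw [mem_coe, mem_sigma, mem_filter, mem_Ioc] at hz
    obtain ⟨⟨⟨hn1, hn2⟩, hA⟩, hG⟩ := hz
    simp only at hn1 hn2 hA hG
    rw [G, mem_filter, mem_Ioc] at hG
    obtain ⟨⟨hx1, hx2⟩, hp⟩ := hG
    have h1 : W * (i + 1) * x ≤ W * m * (2 * X) :=
      Nat.mul_le_mul (Nat.mul_le_mul_left W hi) hx2
    rw [mem_coe, mem_filter, SZ, mem_filter, mem_product, mem_Ioc, mem_Ioc]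
    have h5 : n + W * (i + 1) * x - W * (i + 1) * x = n := Nat.add_sub_cancel _ _
    refine ⟨⟨⟨⟨hx1, hx2⟩, ?_, ?_⟩, ?_, ?_⟩, ?_⟩
    · show Y < n + W * (i + 1) * x
      omega
    · show n + W * (i + 1) * x ≤ 2 * Y
      omega
    · show (n + W * (i + 1) * x) % W = 1 % W
      rw [mul_assoc, Nat.add_mul_mod_self_left]
      exact hA.1
    · intro p hpp
      refine ⟨(hp p hpp).1, fun l hl h => (hp p hpp).2 l hl ?_⟩
      have h1' : W * (l + 1) * x ≤ W * m * (2 * X) :=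
        Nat.mul_le_mul (Nat.mul_le_mul_left W hl) hx2
      have h2 : ((n + W * (i + 1) * x - W * (l + 1) * x : ℕ) : ℤ) =
          (n : ℤ) + W * ((i : ℤ) - l) * x := by
        rw [Nat.cast_sub (by omega)]
        push_cast
        ring
      rw [← h2]
      exact_mod_cast h
    · show inA W E (n + W * (i + 1) * x - W * (i + 1) * x)
      rw [h5]
      exact hA
  · rintro ⟨n, x⟩ hz ⟨n', x'⟩ hz' h
    simp only [Prod.mk.injEq] at h
    obtain ⟨h1, h2⟩ := h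
    subst h1
    have : n = n' := by omega
    rw [this]

/-- the count of one `e` -/
lemma one_e {W b : ℕ} {x0 : ℝ} (hW : 1 ≤ W) (hP : ∀ x : ℝ, x0 ≤ x →
    ∀ u v a : ℕ, x / 2 ≤ u → (v : ℝ) ≤ 3 * x → (u : ℝ) + (1 / 2) * x ≤ v → a.Coprime W →
    |(((Ioc u v).filter (fun q => q.Prime ∧ q % W = a % W)).card : ℝ) -
      ((v : ℝ) - u) / (Nat.totient W * Real.log x)| ≤
    ((1 / 2 : ℝ) ^ (b + 2)) * (((v : ℝ) - u) / (Nat.totient W * Real.log x)))
    {Y e u' v' a : ℕ} (hb : 4 ≤ b) (he : 1 ≤ e) (hx0 : x0 ≤ (Y : ℝ) / e)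
    (hx1 : (2 : ℝ) ^ (b + 4) ≤ (Y : ℝ) / e) (ha : a.Coprime W)
    (h1 : (Y : ℝ) * (1 - (1 / 2) ^ (b + 3)) ≤ u') (h2 : (v' : ℝ) ≤ 2 * Y)
    (h3 : |((v' : ℝ) - u') - Y| ≤ (1 / 2) ^ (b + 3) * Y) :
    |(((Ioc (u' / e) (v' / e)).filter (fun q => q.Prime ∧ q % W = a % W)).card : ℝ) -
      ((Y : ℝ) / e) / (Nat.totient W * Real.log ((Y : ℝ) / e))| ≤
    (1 / 2) ^ b * (((Y : ℝ) / e) / (Nat.totient W * Real.log ((Y : ℝ) / e))) := by
  have he0 : (0 : ℝ) < e := by exact_mod_cast he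
  set x : ℝ := (Y : ℝ) / e with hx
  have hYx : (Y : ℝ) = x * e := by rw [hx]; field_simp
  have hd : (1 / 2 : ℝ) ^ (b + 3) = (1 / 2) ^ b / 8 := by rw [pow_add]; norm_num; ring
  have hd2 : (1 / 2 : ℝ) ^ (b + 2) = (1 / 2) ^ b / 4 := by rw [pow_add]; norm_num; ring
  set δ : ℝ := (1 / 2) ^ b with hδ
  have hδ0 : 0 < δ := by positivity
  have hδ1 : δ ≤ 1 / 16 := by
    rw [hδ]
    calc (1 / 2 : ℝ) ^ b ≤ (1 / 2) ^ 4 := pow_le_pow_of_le_one (by norm_num) (by norm_num) hb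
      _ = 1 / 16 := by norm_num
  have hxpow : 16 ≤ δ * x := by
    have h16 : δ * 2 ^ (b + 4) = 16 := by
      rw [hδ, pow_add, one_div, inv_pow]
      field_simp
      norm_num
    rw [← h16]
    exact mul_le_mul_of_nonneg_left hx1 hδ0.le
  have hxpos : 0 < x := by
    have : (0 : ℝ) < 2 ^ (b + 4) := by positivity
    linarith
  have hx16 : 256 ≤ x := by nlinarith
  have hu1 : ((u' / e : ℕ) : ℝ) ≤ (u' : ℝ) / e := Nat.cast_div_le
  have hv1 : ((v' / e : ℕ) : ℝ) ≤ (v' : ℝ) / e := Nat.cast_div_le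
  have hu2 : (u' : ℝ) / e - 1 ≤ ((u' / e : ℕ) : ℝ) := by
    have := Nat.lt_div_mul_add (a := u') (b := e) he
    have h4 : (u' : ℝ) < ((u' / e : ℕ) : ℝ) * e + e := by exact_mod_cast this
    rw [sub_le_iff_le_add, div_le_iff₀ he0, add_mul, one_mul]
    exact h4.le
  have hv2 : (v' : ℝ) / e - 1 ≤ ((v' / e : ℕ) : ℝ) := by
    have := Nat.lt_div_mul_add (a := v') (b := e) he
    have h4 : (v' : ℝ) < ((v' / e : ℕ) : ℝ) * e + e := by exact_mod_cast this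
    rw [sub_le_iff_le_add, div_le_iff₀ he0, add_mul, one_mul]
    exact h4.le
  rw [hd] at h1 h3
  rw [abs_le] at h3
  have hue : x * (1 - δ / 8) ≤ (u' : ℝ) / e := by
    rw [le_div_iff₀ he0]
    calc x * (1 - δ / 8) * e = Y * (1 - δ / 8) := by rw [hYx]; ring
      _ ≤ _ := h1
  have hve : (v' : ℝ) / e ≤ 2 * x := by
    rw [div_le_iff₀ he0]
    calc (v' : ℝ) ≤ 2 * Y := h2
      _ = 2 * x * e := by rw [hYx]; ring
  have hdiff1 : (v' : ℝ) / e - u' / e ≤ x + δ / 8 * x := by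
    rw [← sub_div, div_le_iff₀ he0]
    calc (v' : ℝ) - u' ≤ Y + δ / 8 * Y := by linarith [h3.2]
      _ = (x + δ / 8 * x) * e := by rw [hYx]; ring
  have hdiff2 : x - δ / 8 * x ≤ (v' : ℝ) / e - u' / e := by
    rw [← sub_div, le_div_iff₀ he0]
    calc (x - δ / 8 * x) * e = Y - δ / 8 * Y := by rw [hYx]; ring
      _ ≤ (v' : ℝ) - u' := by linarith [h3.1]
  have hδx : δ * x ≤ 1 / 16 * x := mul_le_mul_of_nonneg_right hδ1 hxpos.le
  have h8 : 1 ≤ δ / 8 * x := by linarith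
  have hue' : x * (1 - δ / 8) = x - δ / 8 * x := by ring
  rw [hue'] at hue
  have h8' : δ / 8 * x = (δ * x) / 8 := by ring
  have h4' : δ / 4 * x = (δ * x) / 4 := by ring
  have hs1 : x / 2 ≤ ((u' / e : ℕ) : ℝ) := by linarith
  have hs2 : ((v' / e : ℕ) : ℝ) ≤ 3 * x := by linarith
  have hs3 : ((u' / e : ℕ) : ℝ) + (1 / 2) * x ≤ ((v' / e : ℕ) : ℝ) := by linarith
  have key := hP x hx0 (u' / e) (v' / e) a hs1 hs2 hs3 ha
  have hlog : 0 < Real.log x := Real.log_pos (by linarith)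
  have hphi : (0 : ℝ) < Nat.totient W := by exact_mod_cast Nat.totient_pos.mpr hW
  set T : ℝ := Nat.totient W * Real.log x with hT
  have hT0 : 0 < T := mul_pos hphi hlog
  have hT1 : 0 < 1 / T := by positivity
  rw [hd2] at key
  set D : ℝ := ((v' / e : ℕ) : ℝ) - ((u' / e : ℕ) : ℝ) with hD
  have hD1 : D ≤ x + δ / 4 * x := by rw [hD]; linarith
  have hD2 : x - δ / 4 * x ≤ D := by rw [hD]; linarith
  have e1 : D / T ≤ x / T + δ / 4 * (x / T) := by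
    calc D / T ≤ (x + δ / 4 * x) / T := div_le_div_of_nonneg_right hD1 hT0.le
      _ = _ := by ring
  have e2 : x / T - δ / 4 * (x / T) ≤ D / T := by
    calc x / T - δ / 4 * (x / T) = (x - δ / 4 * x) / T := by ring
      _ ≤ _ := div_le_div_of_nonneg_right hD2 hT0.le
  have hxT : 0 < x / T := by positivity
  have e3 : δ / 4 * (D / T) ≤ δ / 4 * (x / T + δ / 4 * (x / T)) :=
    mul_le_mul_of_nonneg_left e1 (by positivity)
  have e4 : δ / 4 * (δ / 4 * (x / T)) ≤ δ / 4 * (x / T) := by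
    apply mul_le_mul_of_nonneg_left _ (by positivity)
    have : δ / 4 * (x / T) ≤ 1 * (x / T) := mul_le_mul_of_nonneg_right (by linarith) hxT.le
    linarith
  have e5 : δ / 4 * (x / T + δ / 4 * (x / T)) = δ / 4 * (x / T) + δ / 4 * (δ / 4 * (x / T)) := by
    ring
  have e6 : δ / 4 * (x / T) = (δ * (x / T)) / 4 := by ring
  have e7 : 0 < δ * (x / T) := mul_pos hδ0 hxT
  rw [abs_le] at key ⊢
  obtain ⟨k1, k2⟩ := key
  constructor
  · linarith
  · linarith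

lemma big_div {N Y e : ℕ} (hN : N ^ 2 ≤ Y) (he : 1 ≤ e) (he8 : e ^ 8 ≤ Y) :
    (N : ℝ) ≤ (Y : ℝ) / e := by
  have he0 : (0 : ℝ) < e := by exact_mod_cast he
  rw [le_div_iff₀ he0]
  have h1 : e ^ 2 ≤ Y := (Nat.pow_le_pow_right he (by norm_num)).trans he8
  have h2 : (N * e) ^ 2 ≤ Y ^ 2 := by
    calc (N * e) ^ 2 = N ^ 2 * e ^ 2 := by ring
      _ ≤ Y * Y := Nat.mul_le_mul hN h1
      _ = Y ^ 2 := by ring
  have h3 : N * e ≤ Y := (Nat.pow_le_pow_iff_left (by norm_num)).mp h2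
  exact_mod_cast h3

open Classical in
/-- the count of `A_E` -/
lemma cnt_A {W b : ℕ} {x0 : ℝ} (hW : 1 ≤ W) (hP : ∀ x : ℝ, x0 ≤ x →
    ∀ u v a : ℕ, x / 2 ≤ u → (v : ℝ) ≤ 3 * x → (u : ℝ) + (1 / 2) * x ≤ v → a.Coprime W →
    |(((Ioc u v).filter (fun q => q.Prime ∧ q % W = a % W)).card : ℝ) -
      ((v : ℝ) - u) / (Nat.totient W * Real.log x)| ≤
    ((1 / 2 : ℝ) ^ (b + 2)) * (((v : ℝ) - u) / (Nat.totient W * Real.log x)))
    {R Y N u' v' : ℕ} {E : Finset ℕ} (hE : okE W R Y E) (hY : 4 ≤ Y)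
    (hb : 4 ≤ b) (hN : N ^ 2 ≤ Y) (hN0 : x0 ≤ N) (hN1 : 2 ^ (b + 4) ≤ N)
    (hu : Y ≤ 2 * u')
    (h1 : (Y : ℝ) * (1 - (1 / 2) ^ (b + 3)) ≤ u') (h2 : (v' : ℝ) ≤ 2 * Y)
    (h3 : |((v' : ℝ) - u') - Y| ≤ (1 / 2) ^ (b + 3) * Y) :
    |(((Ioc u' v').filter (inA W E)).card : ℝ) - al E Y * ((Y : ℝ) / Nat.totient W)| ≤
      (1 / 2) ^ b * (al E Y * ((Y : ℝ) / Nat.totient W)) := by
  have hex : ∀ e : ℕ, ∃ a : ℕ, e ∈ E → (a.Coprime W ∧
      ∀ q : ℕ, (e * q) % W = 1 % W ↔ q % W = a % W) := by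
    intro e
    by_cases he : e ∈ E
    · obtain ⟨a, ha⟩ := inv_mod hW (hE e he).2.2.1
      exact ⟨a, fun _ => ha⟩
    · exact ⟨0, fun h => absurd h he⟩
  choose a ha using hex
  rw [card_inA hW hE hY hu a ha]
  have hal : al E Y * ((Y : ℝ) / Nat.totient W) =
      ∑ e ∈ E, ((Y : ℝ) / e) / (Nat.totient W * Real.log ((Y : ℝ) / e)) := by
    unfold al
    rw [sum_mul]
    refine sum_congr rfl fun e he => ?_
    rw [div_mul_div_comm, one_mul, div_div]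
    congr 1
    ring
  rw [hal, Nat.cast_sum, ← sum_sub_distrib, mul_sum]
  refine (abs_sum_le_sum_abs _ _).trans (sum_le_sum fun e he => ?_)
  have hbig := big_div hN (hE e he).1 (hE e he).2.1
  refine one_e hW hP hb (hE e he).1 (hN0.trans hbig) ?_ (ha e he).1 h1 h2 h3
  refine le_trans ?_ hbig
  exact_mod_cast hN1

lemma P_mono {W R Y m : ℕ} (hRY : R ≤ Y) (hm : ∀ p : ℕ, p.Prime → ¬ p ∣ W → m < p) :
    PIj W Y m ≤ PIj W R m := by
  unfold PIj
  have hsub : PS W R ⊆ PS W Y := by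
    unfold PS
    intro p hp
    rw [mem_filter, mem_Icc] at hp ⊢
    exact ⟨⟨hp.1.1, hp.1.2.trans hRY⟩, hp.2⟩
  have hf : ∀ p ∈ PS W Y, 0 ≤ (1 - (m : ℝ) / (p : ℝ)) ∧ (1 - (m : ℝ) / (p : ℝ)) ≤ 1 := by
    intro p hp
    rw [PS, mem_filter] at hp
    have h1 := hm p hp.2.1 hp.2.2
    have h2 : (m : ℝ) < p := by exact_mod_cast h1
    have h3 : (0 : ℝ) ≤ m := Nat.cast_nonneg m
    have h4 : (0 : ℝ) < p := lt_of_le_of_lt h3 h2
    have h5 : (m : ℝ) / p ≤ 1 := (div_le_one h4).mpr h2.le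
    have h6 : 0 ≤ (m : ℝ) / p := by positivity
    constructor <;> linarith
  rw [← prod_sdiff hsub]
  have h1 : ∏ p ∈ PS W Y \ PS W R, (1 - (m : ℝ) / (p : ℝ)) ≤ 1 :=
    prod_le_one (fun p hp => (hf p (sdiff_subset hp)).1) (fun p hp => (hf p (sdiff_subset hp)).2)
  have h2 : 0 ≤ ∏ p ∈ PS W R, (1 - (m : ℝ) / (p : ℝ)) :=
    prod_nonneg fun p hp => (hf p (hsub hp)).1
  calc _ ≤ 1 * ∏ p ∈ PS W R, (1 - (m : ℝ) / (p : ℝ)) := mul_le_mul_of_nonneg_right h1 h2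
    _ = _ := one_mul _

/-- the error is small -/
lemma err_small (K B : ℕ) (hK : 1 ≤ K) (δ : ℝ) (hδ : 0 < δ) : ∃ Y1 : ℕ, ∀ Y : ℕ, Y1 ≤ Y →
    ∀ t : ℝ, 1 ≤ t → t ^ 8 ≤ Y → ∀ P : ℝ, 1 / Real.log Y ^ B ≤ P →
      t ≤ δ * (((Y / K : ℕ) : ℝ) * P) := by
  have hK0 : (0 : ℝ) < K := by exact_mod_cast hK
  have h := (Real.isLittleO_pow_log_id_atTop (n := B)).def (c := δ / (2 * K * 2 ^ B)) (by positivity)
  rw [Filter.eventually_atTop] at h
  obtain ⟨t0, ht0⟩ := h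
  obtain ⟨N, hN⟩ := exists_nat_ge t0
  refine ⟨max (N ^ 2) (max K 3), fun Y hY t ht htY P hP => ?_⟩
  have hYN : N ^ 2 ≤ Y := (le_max_left _ _).trans hY
  have hYK : K ≤ Y := ((le_max_left _ _).trans (le_max_right _ _)).trans hY
  have hY3 : 3 ≤ Y := ((le_max_right _ _).trans (le_max_right _ _)).trans hY
  have hY0 : (0 : ℝ) < Y := by exact_mod_cast (by omega : 0 < Y)
  set s : ℝ := Real.sqrt Y with hs
  have hss : s * s = Y := Real.mul_self_sqrt hY0.le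
  have hs0 : 0 < s := Real.sqrt_pos.mpr hY0
  have hs1 : 1 < s := by
    rw [hs, Real.lt_sqrt (by norm_num)]
    have : (3 : ℝ) ≤ Y := by exact_mod_cast hY3
    linarith
  have hNs : (N : ℝ) ≤ s := by
    rw [hs]
    apply Real.le_sqrt_of_sq_le
    exact_mod_cast hYN
  have hlog : Real.log Y = 2 * Real.log s := by
    rw [← hss, Real.log_mul hs0.ne' hs0.ne']
    ring
  have h1 := ht0 s (hN.trans hNs)
  have hls : 0 < Real.log s := Real.log_pos hs1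
  rw [id, Real.norm_of_nonneg hs0.le, Real.norm_of_nonneg (pow_nonneg hls.le _)] at h1
  have hlB : 0 < Real.log Y ^ B := by
    rw [hlog]
    positivity
  have h2 : 2 * K * Real.log Y ^ B ≤ δ * s := by
    rw [hlog, mul_pow]
    calc 2 * (K : ℝ) * (2 ^ B * Real.log s ^ B) ≤ 2 * K * (2 ^ B * (δ / (2 * K * 2 ^ B) * s)) := by
          gcongr
      _ = δ * s := by field_simp
  have hts : t ≤ s := by
    rw [hs]
    apply Real.le_sqrt_of_sq_le
    exact (pow_le_pow_right₀ ht (by norm_num)).trans htY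
  have hX : (Y : ℝ) / (2 * K) ≤ ((Y / K : ℕ) : ℝ) := by
    rw [div_le_iff₀ (by positivity)]
    have h3 : Y < (Y / K) * K + K := Nat.lt_div_mul_add hK
    have h4 : 1 ≤ Y / K := (Nat.one_le_div_iff hK).mpr hYK
    have h5 : K ≤ (Y / K) * K := Nat.le_mul_of_pos_left K h4
    have h6 : Y ≤ (Y / K) * (2 * K) := by
      have : (Y / K) * (2 * K) = (Y / K) * K + (Y / K) * K := by ring
      omega
    exact_mod_cast h6
  have h7 : (Y : ℝ) / (2 * K) * (1 / Real.log Y ^ B) ≤ ((Y / K : ℕ) : ℝ) * P :=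
    mul_le_mul hX hP (by positivity) (Nat.cast_nonneg _)
  have h8 : t ≤ δ * ((Y : ℝ) / (2 * K) * (1 / Real.log Y ^ B)) := by
    have h9 : δ * ((Y : ℝ) / (2 * K) * (1 / Real.log Y ^ B)) =
        (δ * s) * s / (2 * K * Real.log Y ^ B) := by
      rw [← hss]
      field_simp
    rw [h9, le_div_iff₀ (by positivity)]
    calc t * (2 * K * Real.log Y ^ B) ≤ s * (δ * s) :=
          mul_le_mul hts h2 (by positivity) hs0.le
      _ = δ * s * s := by ring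
  exact h8.trans (mul_le_mul_of_nonneg_left h7 hδ.le)

end Pool.Agent.TH423.SH.S1PX

open Pool.Agent.TH423.SH.S1PX in
theorem Pool.Agent.TH423.SH.s1p (hF : FLI) (hC : PRC) (hP : PAI) : S1P := by
  classical
  obtain ⟨CF, hCF1, hF'⟩ := hF
  have hF'' : FLIc CF := hF'
  refine ⟨8 * CF, by omega, ?_⟩
  intro m b W K hm hb hW hWp hK
  have hbb : 8 * (m + 1) ≤ b := by
    refine le_trans ?_ hb
    exact Nat.mul_le_mul_right _ (by omega)
  have hb16 : 16 ≤ b := by omega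
  have hCFm : CF * (m + 1) ≤ 8 * CF * (m + 1) := Nat.mul_le_mul_right _ (by omega)
  have hCm : 2 * (m + 1) ≤ 8 * CF * (m + 1) := Nat.mul_le_mul_right _ (by omega)
  obtain ⟨B, R0, hR0⟩ := hC m W hW (fun p hp h => hWp p hp (h.trans hCm))
  obtain ⟨x0, hx0⟩ := hP W hW ((1 / 2) ^ (b + 2)) (1 / 2) (by positivity) (by norm_num)
  obtain ⟨N, hN⟩ : ∃ N : ℕ, x0 ≤ N := exists_nat_ge x0
  have hK1 : 1 ≤ K := by
    refine le_trans ?_ hK
    exact Nat.mul_pos (Nat.mul_pos hW hm) (by positivity)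
  obtain ⟨Y1, hY1⟩ := err_small K B hK1 ((1 / 2 : ℝ) ^ b) (by positivity)
  refine ⟨max ((max N (2 ^ (b + 4))) ^ 2) (max Y1 (max R0 4)), ?_⟩
  intro Y J hY hYJ E i hE hi
  have hYN : (max N (2 ^ (b + 4))) ^ 2 ≤ Y := (le_max_left _ _).trans hY
  have hYY1 : Y1 ≤ Y := ((le_max_left _ _).trans (le_max_right _ _)).trans hY
  have hYR0 : R0 ≤ Y :=
    (((le_max_left _ _).trans (le_max_right _ _)).trans (le_max_right _ _)).trans hY
  have hY4 : 4 ≤ Y :=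
    (((le_max_right _ _).trans (le_max_right _ _)).trans (le_max_right _ _)).trans hY
  have hN0 : x0 ≤ ((max N (2 ^ (b + 4)) : ℕ) : ℝ) :=
    hN.trans (by exact_mod_cast le_max_left _ _)
  have hN1 : 2 ^ (b + 4) ≤ max N (2 ^ (b + 4)) := le_max_right _ _
  have hRpos : 1 ≤ 2 ^ 2 ^ J := Nat.one_le_two_pow
  have h8 : 8 ≤ 8 * CF * b := by
    have h1 : 1 ≤ CF * b := Nat.mul_pos hCF1 (by omega)
    calc 8 = 8 * 1 := rfl
      _ ≤ 8 * (CF * b) := Nat.mul_le_mul_left _ h1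
      _ = 8 * CF * b := by ring
  have hR8 : (2 ^ 2 ^ J) ^ 8 ≤ Y := (Nat.pow_le_pow_right hRpos h8).trans hYJ
  have hRY : 2 ^ 2 ^ J ≤ Y := by
    calc 2 ^ 2 ^ J = (2 ^ 2 ^ J) ^ 1 := (pow_one _).symm
      _ ≤ (2 ^ 2 ^ J) ^ 8 := Nat.pow_le_pow_right hRpos (by norm_num)
      _ ≤ Y := hR8
  have hbigp : ∀ p : ℕ, p.Prime → ¬ p ∣ W → m < p := by
    intro p hp hpW
    by_contra h
    push Not at h
    apply hpW
    apply hWp p hp
    omega
  have hPS : ∀ p ∈ PS W (2 ^ 2 ^ J), m < p := by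
    intro p hp
    rw [PS, mem_filter] at hp
    exact hbigp p hp.2.1 hp.2.2
  have hPl : 1 / Real.log Y ^ B ≤ PIj W (2 ^ 2 ^ J) m := (hR0 Y hYR0).trans (P_mono hRY hbigp)
  set δ : ℝ := (1 / 2 : ℝ) ^ b with hδ
  have hδ0 : 0 < δ := by positivity
  have hδ1 : δ ≤ 1 / 16 := by
    rw [hδ]
    calc (1 / 2 : ℝ) ^ b ≤ (1 / 2) ^ 4 :=
          pow_le_pow_of_le_one (by norm_num) (by norm_num) (by omega)
      _ = 1 / 16 := by norm_num
  set t : ℝ := ((2 : ℝ) ^ 2 ^ J) ^ (CF * b) with ht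
  have ht1 : 1 ≤ t := one_le_pow₀ (one_le_pow₀ (by norm_num))
  have ht8 : t ^ 8 ≤ (Y : ℝ) := by
    have h1 : t ^ 8 = (((2 ^ 2 ^ J) ^ (8 * CF * b) : ℕ) : ℝ) := by
      rw [ht, ← pow_mul]
      push_cast
      congr 1
      ring
    rw [h1]
    exact_mod_cast hYJ
  have hterr := hY1 Y hYY1 t ht1 ht8 _ hPl
  set X : ℕ := Y / K with hX
  set P : ℝ := PIj W (2 ^ 2 ^ J) m with hPdef
  have hP0 : 0 ≤ P := by
    refine le_trans ?_ hPl
    have : 0 < Real.log Y := Real.log_pos (by exact_mod_cast (by omega : 1 < Y))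
    positivity
  set Q : ℝ := (X : ℝ) * P with hQ
  have hQ0 : 0 ≤ Q := mul_nonneg (Nat.cast_nonneg _) hP0
  -- the shift
  set D : ℕ := W * m * (2 * X) with hD
  have hD1 : D * 2 ^ (b + 3) ≤ Y := by
    calc D * 2 ^ (b + 3) = (W * m * 2 ^ (b + 4)) * X := by rw [hD, pow_succ 2 (b + 3)]; ring
      _ ≤ K * X := Nat.mul_le_mul_right _ hK
      _ ≤ Y := Nat.mul_div_le Y K
  have h2b : 2 ≤ 2 ^ (b + 3) := by
    calc 2 = 2 ^ 1 := rfl
      _ ≤ 2 ^ (b + 3) := Nat.pow_le_pow_right (by norm_num) (by omega)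
  have hD2 : 2 * D ≤ Y := by
    have := Nat.mul_le_mul_left D h2b
    omega
  have hDY : D ≤ Y := by omega
  have hDr : (D : ℝ) ≤ (1 / 2) ^ (b + 3) * Y := by
    have h1 : (D : ℝ) * 2 ^ (b + 3) ≤ Y := by exact_mod_cast hD1
    have h2 : (1 / 2 : ℝ) ^ (b + 3) * 2 ^ (b + 3) = 1 := by
      rw [← mul_pow]; norm_num
    calc (D : ℝ) = (1 / 2) ^ (b + 3) * (D * 2 ^ (b + 3)) := by
          rw [mul_left_comm, h2, mul_one]
      _ ≤ _ := mul_le_mul_of_nonneg_left h1 (by positivity)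
  have hD0 : (0 : ℝ) ≤ D := Nat.cast_nonneg _
  have hc1 : ((Y - D : ℕ) : ℝ) = Y - D := by rw [Nat.cast_sub hDY]
  have hc2 : ((2 * Y - D : ℕ) : ℝ) = 2 * Y - D := by
    rw [Nat.cast_sub (by omega)]; push_cast; ring
  have hc3 : ((2 * Y : ℕ) : ℝ) = 2 * Y := by push_cast; ring
  have hη : (0 : ℝ) < (1 / 2) ^ (b + 3) := by positivity
  have hηY : (0 : ℝ) ≤ (1 / 2) ^ (b + 3) * Y := by positivity
  -- the two counts
  have hA1 := cnt_A (u' := Y - D) (v' := 2 * Y) hW hx0 hE hY4 (by omega) hYN hN0 hN1 (by omega)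
    (by rw [hc1]; linarith) (by rw [hc3]) (by
      rw [hc1, hc3, abs_le]
      constructor <;> linarith)
  have hA2 := cnt_A (u' := Y) (v' := 2 * Y - D) hW hx0 hE hY4 (by omega) hYN hN0 hN1 (by omega)
    (by linarith) (by rw [hc2]; linarith) (by
      rw [hc2, abs_le]
      constructor <;> linarith)
  rw [← hδ] at hA1 hA2
  set M : ℝ := al E Y * ((Y : ℝ) / Nat.totient W) with hM
  have hM0 : 0 ≤ M := by
    by_contra h
    push Not at h
    have h1 := (abs_nonneg _).trans hA1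
    have h2 := mul_neg_of_pos_of_neg hδ0 h
    linarith
  -- the fibres
  have hfib : ∀ n : ℕ, Y ≤ 2 * n → inA W E n →
      |((G W m (2 ^ 2 ^ J) X i n).card : ℝ) - Q| ≤ 2 * δ * Q := by
    intro n hn hA
    have h1 := fib hF'' (X := X) (i := i) (n := n) (b := b) (m := m) (W := W) (J := J)
      (hCFm.trans hb) hW
      (fun p hp h => hWp p hp (h.trans hCFm)) hi hPS (notdvd hE hR8 hY4 hn hA)
    rw [← hδ, ← hPdef, ← hQ, ← ht] at h1
    refine h1.trans ?_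
    linarith
  have hS1 := upper (W := W) (m := m) (R := 2 ^ 2 ^ J) (X := X) (Y := Y) (i := i) (E := E) hW hi hDY
  have hS2 := lower (W := W) (m := m) (R := 2 ^ 2 ^ J) (X := X) (Y := Y) (i := i) (E := E) hW hi hDY
  rw [← hD] at hS1 hS2
  set S : ℕ := ((SZ W m (2 ^ 2 ^ J) X Y).filter
    (fun z => inA W E (z.2 - W * (i + 1) * z.1))).card with hSdef
  set A1 : Finset ℕ := (Ioc (Y - D) (2 * Y)).filter (inA W E) with hA1def
  set A2 : Finset ℕ := (Ioc Y (2 * Y - D)).filter (inA W E) with hA2def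
  have hup : (S : ℝ) ≤ (A1.card : ℝ) * ((1 + 2 * δ) * Q) := by
    calc (S : ℝ) ≤ ((∑ n ∈ A1, (G W m (2 ^ 2 ^ J) X i n).card : ℕ) : ℝ) := by exact_mod_cast hS1
      _ = ∑ n ∈ A1, ((G W m (2 ^ 2 ^ J) X i n).card : ℝ) := by push_cast; rfl
      _ ≤ ∑ n ∈ A1, ((1 + 2 * δ) * Q) := by
          refine sum_le_sum fun n hn => ?_
          rw [hA1def, mem_filter, mem_Ioc] at hn
          have h1 := (abs_le.mp (hfib n (by omega) hn.2)).2
          linarith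
      _ = _ := by rw [sum_const, nsmul_eq_mul]
  have hlo : (A2.card : ℝ) * ((1 - 2 * δ) * Q) ≤ (S : ℝ) := by
    calc (A2.card : ℝ) * ((1 - 2 * δ) * Q) = ∑ n ∈ A2, ((1 - 2 * δ) * Q) := by
          rw [sum_const, nsmul_eq_mul]
      _ ≤ ∑ n ∈ A2, ((G W m (2 ^ 2 ^ J) X i n).card : ℝ) := by
          refine sum_le_sum fun n hn => ?_
          rw [hA2def, mem_filter, mem_Ioc] at hn
          have h1 := (abs_le.mp (hfib n (by omega) hn.2)).1
          linarith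
      _ = ((∑ n ∈ A2, (G W m (2 ^ 2 ^ J) X i n).card : ℕ) : ℝ) := by push_cast; rfl
      _ ≤ (S : ℝ) := by exact_mod_cast hS2
  have hcard1 : (A1.card : ℝ) ≤ (1 + δ) * M := by
    have := (abs_le.mp hA1).2
    linarith
  have hcard2 : (1 - δ) * M ≤ (A2.card : ℝ) := by
    have := (abs_le.mp hA2).1
    linarith
  have hgoal : al E Y * (((X : ℕ) : ℝ) * Y / Nat.totient W) * P = M * Q := by
    rw [hM, hQ]; ring
  rw [hgoal]
  have hMQ : 0 ≤ M * Q := mul_nonneg hM0 hQ0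
  have hU : (S : ℝ) ≤ (1 + δ) * M * ((1 + 2 * δ) * Q) :=
    hup.trans (mul_le_mul_of_nonneg_right hcard1 (mul_nonneg (by linarith) hQ0))
  have hL : (1 - δ) * M * ((1 - 2 * δ) * Q) ≤ (S : ℝ) :=
    (mul_le_mul_of_nonneg_right hcard2 (mul_nonneg (by linarith) hQ0)).trans hlo
  have e1 : (1 + δ) * M * ((1 + 2 * δ) * Q) = M * Q + 3 * (δ * (M * Q)) + 2 * (δ * (δ * (M * Q))) := by
    ring
  have e2 : (1 - δ) * M * ((1 - 2 * δ) * Q) = M * Q - 3 * (δ * (M * Q)) + 2 * (δ * (δ * (M * Q))) := by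
    ring
  have h1 : 0 ≤ δ * (M * Q) := mul_nonneg hδ0.le hMQ
  have h2 : 0 ≤ δ * (δ * (M * Q)) := mul_nonneg hδ0.le h1
  have h3 : δ * (δ * (M * Q)) ≤ 1 * (δ * (M * Q)) :=
    mul_le_mul_of_nonneg_right (by linarith) h1
  rw [e1] at hU
  rw [e2] at hL
  rw [abs_le]
  constructor
  · linarith
  · linarith

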