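import Pool.Agent.TH423.SH.StmB

/-!
Sieved pairs with two forms in `A_E`, `A_E'`: upper bound, from the upper bound for sieved primes,
the lower bound for the product and the prime number theorem in arithmetic progressions.
-/

set_option autoImplicit false

open Finset

namespace Pool.Agent.TH423.SH

namespace S2PP

/-! ### residue classes -/

/-- the ratio attached to the form `l` -/
noncomputable def gl (p i i' l : ℕ) : ZMod p :=
  if l = i' then 1 else ((i' : ZMod p) - (l : ZMod p)) * ((i : ZMod p) - (l : ZMod p))⁻¹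

/-- the classes to be avoided -/
noncomputable def OmS (m i i' n e' p : ℕ) : Finset ℕ :=
  ((range m).erase i).image (fun l => ((n : ZMod p) * (e' : ZMod p)⁻¹ * gl p i i' l).val)

lemma cast_inj {p a b : ℕ} (ha : a < p) (hb : b < p) (h : (a : ZMod p) = (b : ZMod p)) : a = b := by
  have := (ZMod.natCast_eq_natCast_iff' a b p).1 h
  rwa [Nat.mod_eq_of_lt ha, Nat.mod_eq_of_lt hb] at this

lemma cast_ne {p a : ℕ} (ha : ¬ p ∣ a) : (a : ZMod p) ≠ 0 := by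
  rwa [Ne, ZMod.natCast_eq_zero_iff]

lemma gl_ne {p m i i' l : ℕ} (hp : p.Prime) (hm : m ≤ p) (hi : i < m) (hi' : i' < m)
    (hl : l < m) (hli : l ≠ i) : gl p i i' l ≠ 0 := by
  have := Fact.mk hp
  unfold gl
  split_ifs with h
  · exact one_ne_zero
  · refine mul_ne_zero ?_ (inv_ne_zero ?_)
    · intro h0
      exact h (cast_inj (by omega) (by omega) (sub_eq_zero.1 h0)).symm
    · intro h0
      exact hli (cast_inj (by omega) (by omega) (sub_eq_zero.1 h0)).symm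

lemma gl_inj {p m i i' l l' : ℕ} (hp : p.Prime) (hm : m ≤ p) (hi : i < m) (hi' : i' < m)
    (hii : i ≠ i') (hl : l < m) (hli : l ≠ i) (hl' : l' < m) (hli' : l' ≠ i)
    (h : gl p i i' l = gl p i i' l') : l = l' := by
  have := Fact.mk hp
  have hII : (i : ZMod p) - (i' : ZMod p) ≠ 0 := fun h0 =>
    hii (cast_inj (by omega) (by omega) (sub_eq_zero.1 h0))
  have h1 : (i : ZMod p) - (l : ZMod p) ≠ 0 := fun h0 =>
    hli (cast_inj (by omega) (by omega) (sub_eq_zero.1 h0)).symm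
  have h2 : (i : ZMod p) - (l' : ZMod p) ≠ 0 := fun h0 =>
    hli' (cast_inj (by omega) (by omega) (sub_eq_zero.1 h0)).symm
  unfold gl at h
  split_ifs at h with a b b
  · omega
  · exfalso
    rw [eq_mul_inv_iff_mul_eq₀ h2, one_mul] at h
    apply hII
    linear_combination h
  · exfalso
    rw [mul_inv_eq_iff_eq_mul₀ h1, one_mul] at h
    apply hII
    linear_combination -h
  · rw [mul_inv_eq_iff_eq_mul₀ h1] at h
    have h3 : ((i' : ZMod p) - (l : ZMod p)) * ((i : ZMod p) - (l' : ZMod p)) =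
        ((i' : ZMod p) - (l' : ZMod p)) * ((i : ZMod p) - (l : ZMod p)) := by
      rw [h]
      field_simp
    have h4 : ((i : ZMod p) - (i' : ZMod p)) * ((l : ZMod p) - (l' : ZMod p)) = 0 := by
      linear_combination -h3
    rcases mul_eq_zero.1 h4 with h5 | h5
    · exact absurd h5 hII
    · exact cast_inj (by omega) (by omega) (sub_eq_zero.1 h5)

lemma OmS_card {p m i i' n e' : ℕ} (hp : p.Prime) (hm : m ≤ p) (hi : i < m) (hi' : i' < m)
    (hii : i ≠ i') (hn : ¬ p ∣ n) (he : ¬ p ∣ e') : (OmS m i i' n e' p).card = m - 1 := by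
  have := Fact.mk hp
  unfold OmS
  rw [card_image_of_injOn, card_erase_of_mem (mem_range.2 hi), card_range]
  intro l hl l' hl' h
  rw [mem_coe, mem_erase, mem_range] at hl hl'
  have h1 := ZMod.val_injective p h
  have h2 : (n : ZMod p) * (e' : ZMod p)⁻¹ ≠ 0 := mul_ne_zero (cast_ne hn) (inv_ne_zero (cast_ne he))
  exact gl_inj hp hm hi hi' hii hl.2 hl.1 hl'.2 hl'.1 (mul_left_cancel₀ h2 h1)

lemma OmS_zero {p m i i' n e' : ℕ} (hp : p.Prime) (hm : m ≤ p) (hi : i < m) (hi' : i' < m)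
    (hn : ¬ p ∣ n) (he : ¬ p ∣ e') : 0 ∉ OmS m i i' n e' p := by
  have := Fact.mk hp
  unfold OmS
  rw [mem_image]
  rintro ⟨l, hl, h⟩
  rw [mem_erase, mem_range] at hl
  rw [ZMod.val_eq_zero] at h
  exact mul_ne_zero (mul_ne_zero (cast_ne hn) (inv_ne_zero (cast_ne he)))
    (gl_ne hp hm hi hi' hl.2 hl.1) h

lemma OmS_lt {p m i i' n e' : ℕ} (hp : p.Prime) : ∀ c ∈ OmS m i i' n e' p, c < p := by
  have := Fact.mk hp
  unfold OmS
  intro c hc
  rw [mem_image] at hc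
  obtain ⟨l, -, rfl⟩ := hc
  exact ZMod.val_lt _

lemma OmS_avoid {p m i i' e' q x y W : ℕ} (hp : p.Prime) (hm : m ≤ p) (hi : i < m) (hi' : i' < m)
    (hii : i ≠ i') (hW : ¬ p ∣ W) (he : ¬ p ∣ e') (hy : W * m * x ≤ y)
    (hx : ¬ p ∣ x) (hL : ∀ l < m, ¬ p ∣ y - W * (l + 1) * x)
    (hq : y - W * (i' + 1) * x = e' * q) :
    q % p ∉ OmS m i i' (y - W * (i + 1) * x) e' p := by
  have := Fact.mk hp
  have hcast : ∀ l < m, (((y - W * (l + 1) * x : ℕ)) : ZMod p) = y - W * (l + 1) * x := by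
    intro l hl
    have h1 : W * (l + 1) * x ≤ y := le_trans
      (Nat.mul_le_mul_right _ (Nat.mul_le_mul_left _ hl)) hy
    rw [Nat.cast_sub h1]
    push_cast
    ring
  have hx' := cast_ne hx
  have hW' := cast_ne hW
  have he' := cast_ne he
  have hII : (i : ZMod p) - (i' : ZMod p) ≠ 0 := fun h0 =>
    hii (cast_inj (by omega) (by omega) (sub_eq_zero.1 h0))
  unfold OmS
  rw [mem_image]
  rintro ⟨l, hl, h⟩
  rw [mem_erase, mem_range] at hl
  have h1 : ((q % p : ℕ) : ZMod p) = ((y - W * (i + 1) * x : ℕ) : ZMod p) * (e' : ZMod p)⁻¹ *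
      gl p i i' l := by
    rw [← h, ZMod.natCast_val, ZMod.cast_id', id]
  rw [ZMod.natCast_mod] at h1
  have h2 : (e' : ZMod p) * q = ((y - W * (i + 1) * x : ℕ) : ZMod p) * gl p i i' l := by
    rw [h1]
    field_simp
  have h3 : (e' : ZMod p) * q = y - W * (i' + 1) * x := by
    rw [← hcast i' hi', hq]
    push_cast
    ring
  rw [h3, hcast i hi] at h2
  unfold gl at h2
  split_ifs at h2 with a
  · have h4 : (W : ZMod p) * ((i : ZMod p) - i') * x = 0 := by linear_combination h2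
    exact mul_ne_zero (mul_ne_zero hW' hII) hx' h4
  · have h5 : (i : ZMod p) - (l : ZMod p) ≠ 0 := fun h0 =>
      hl.1 (cast_inj (by omega) (by omega) (sub_eq_zero.1 h0)).symm
    have h6 := cast_ne (hL l hl.2)
    rw [hcast l hl.2] at h6
    have h7 : ((y : ZMod p) - W * (i' + 1) * x) * ((i : ZMod p) - l) =
        ((y : ZMod p) - W * (i + 1) * x) * ((i' : ZMod p) - l) := by
      rw [h2]
      field_simp
    have h8 : ((i : ZMod p) - i') * ((y : ZMod p) - W * (l + 1) * x) = 0 := by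
      linear_combination h7
    exact mul_ne_zero hII h6 h8

/-! ### products -/

lemma fac_nonneg {W m p : ℕ} (hm : 1 ≤ m) (hW : ∀ p : ℕ, p.Prime → p ≤ m + 1 → p ∣ W)
    (hp : p.Prime) (hpW : ¬ p ∣ W) : (m : ℝ) + 2 ≤ p ∧
    0 ≤ 1 - ((m - 1 : ℕ) : ℝ) / ((p : ℝ) - 1) ∧ 1 - ((m - 1 : ℕ) : ℝ) / ((p : ℝ) - 1) ≤ 1 ∧
    0 ≤ 1 - (m : ℝ) / p ∧ 1 - (m : ℝ) / p ≤ 1 - ((m - 1 : ℕ) : ℝ) / ((p : ℝ) - 1) := by
  have h1 : m + 2 ≤ p := by
    by_contra h
    exact hpW (hW p hp (by omega))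
  have h2 : (m : ℝ) + 2 ≤ p := by exact_mod_cast h1
  have h3 : ((m - 1 : ℕ) : ℝ) = m - 1 := by rw [Nat.cast_sub hm]; simp
  have hm1 : (1 : ℝ) ≤ m := by exact_mod_cast hm
  have hp1 : (0 : ℝ) < (p : ℝ) - 1 := by linarith
  have hp0 : (0 : ℝ) < (p : ℝ) := by linarith
  rw [h3]
  refine ⟨h2, ?_, ?_, ?_, ?_⟩
  · rw [sub_nonneg, div_le_one hp1]; linarith
  · have : 0 ≤ ((m : ℝ) - 1) / ((p : ℝ) - 1) := div_nonneg (by linarith) hp1.le
    linarith
  · rw [sub_nonneg, div_le_one hp0]; linarith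
  · have : ((m : ℝ) - 1) / ((p : ℝ) - 1) ≤ m / p := by
      rw [div_le_div_iff₀ hp1 hp0]
      nlinarith
    linarith

lemma pi1_lower {W m R R' : ℕ} (hR : R ≤ R') (hm : 1 ≤ m)
    (hW : ∀ p : ℕ, p.Prime → p ≤ m + 1 → p ∣ W) : PIj W R' m ≤ PI1 W R (m - 1) := by
  have h1 : PIj W R' m ≤ PI1 W R' (m - 1) := by
    unfold PIj PI1
    refine prod_le_prod (fun p hp => ?_) (fun p hp => ?_)
    · obtain ⟨-, hp2⟩ := mem_filter.1 hp
      exact (fac_nonneg hm hW hp2.1 hp2.2).2.2.2.1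
    · obtain ⟨-, hp2⟩ := mem_filter.1 hp
      exact (fac_nonneg hm hW hp2.1 hp2.2).2.2.2.2
  refine h1.trans ?_
  have hsub : PS W R ⊆ PS W R' := by
    intro p hp
    unfold PS at hp ⊢
    rw [mem_filter, mem_Icc] at hp ⊢
    exact ⟨⟨hp.1.1, hp.1.2.trans hR⟩, hp.2⟩
  unfold PI1
  rw [← prod_sdiff hsub]
  have h2 : ∏ p ∈ PS W R' \ PS W R, (1 - ((m - 1 : ℕ) : ℝ) / ((p : ℝ) - 1)) ≤ 1 := by
    refine prod_le_one (fun p hp => ?_) (fun p hp => ?_)
    · obtain ⟨-, hp2⟩ := mem_filter.1 (mem_sdiff.1 hp).1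
      exact (fac_nonneg hm hW hp2.1 hp2.2).2.1
    · obtain ⟨-, hp2⟩ := mem_filter.1 (mem_sdiff.1 hp).1
      exact (fac_nonneg hm hW hp2.1 hp2.2).2.2.1
  have h3 : 0 ≤ ∏ p ∈ PS W R, (1 - ((m - 1 : ℕ) : ℝ) / ((p : ℝ) - 1)) :=
    prod_nonneg fun p hp => by
      obtain ⟨-, hp2⟩ := mem_filter.1 hp
      exact (fac_nonneg hm hW hp2.1 hp2.2).2.1
  nlinarith

/-! ### elementary facts -/

lemma exists_inv (m0 e n : ℕ) (hm0 : 1 ≤ m0) (he : e.Coprime m0) (hn : n.Coprime m0) :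
    ∃ a : ℕ, a.Coprime m0 ∧ ∀ q : ℕ, (e * q) % m0 = n % m0 → q % m0 = a % m0 := by
  have : NeZero m0 := ⟨by omega⟩
  refine ⟨((n : ZMod m0) * (e : ZMod m0)⁻¹).val, ?_, fun q hq => ?_⟩
  · rw [← ZMod.isUnit_iff_coprime, ZMod.natCast_zmod_val]
    have h1 : IsUnit (n : ZMod m0) := (ZMod.isUnit_iff_coprime n m0).2 hn
    have h2 : (e : ZMod m0) * (e : ZMod m0)⁻¹ = 1 := ZMod.coe_mul_inv_eq_one e he
    exact h1.mul (IsUnit.of_mul_eq_one_right _ h2)
  · rw [← ZMod.natCast_eq_natCast_iff', ZMod.natCast_zmod_val]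
    have h1 : ((e * q : ℕ) : ZMod m0) = n := (ZMod.natCast_eq_natCast_iff' _ _ _).2 hq
    have h2 : (e : ZMod m0) * (e : ZMod m0)⁻¹ = 1 := ZMod.coe_mul_inv_eq_one e he
    rw [← h1]
    push_cast
    calc (q : ZMod m0) = q * ((e : ZMod m0) * (e : ZMod m0)⁻¹) := by rw [h2, mul_one]
      _ = _ := by ring

lemma div_bounds (a e : ℕ) (he : 1 ≤ e) :
    (a : ℝ) / e - 1 ≤ ((a / e : ℕ) : ℝ) ∧ ((a / e : ℕ) : ℝ) ≤ (a : ℝ) / e := by
  have he0 : (0 : ℝ) < e := by exact_mod_cast he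
  constructor
  · have h := Nat.lt_mul_div_succ a (by omega : 0 < e)
    have h' : (a : ℝ) < e * (((a / e : ℕ) : ℝ) + 1) := by exact_mod_cast h
    have : (a : ℝ) / e < ((a / e : ℕ) : ℝ) + 1 := by
      rw [div_lt_iff₀ he0]; linarith
    linarith
  · exact Nat.cast_div_le

lemma totient_mul_of_primes {W h : ℕ} (hW : 1 ≤ W) (hh : 1 ≤ h)
    (H : ∀ p : ℕ, p.Prime → p ∣ h → p ∣ W) :
    (Nat.totient (W * h) : ℝ) = h * Nat.totient W := by
  have h1 : (W * h).primeFactors = W.primeFactors := by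
    rw [Nat.primeFactors_mul (by omega) (by omega)]
    refine union_eq_left.2 fun p hp => ?_
    rw [Nat.mem_primeFactors] at hp ⊢
    exact ⟨hp.1, H p hp.1 hp.2.1, by omega⟩
  have h2 := Nat.totient_eq_mul_prod_factors (W * h)
  have h3 := Nat.totient_eq_mul_prod_factors W
  rw [h1] at h2
  have h4 : ((Nat.totient (W * h) : ℕ) : ℚ) = h * Nat.totient W := by
    rw [h2, h3]
    push_cast
    ring
  exact_mod_cast h4

lemma eps_bound {b : ℕ} (hb : 2 ≤ b) :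
    (1 + (1 / 2 : ℝ) ^ b) ^ 6 ≤ 1 + 16 * (1 / 2 : ℝ) ^ b := by
  have h0 : 0 < (1 / 2 : ℝ) ^ b := by positivity
  have h1 : (1 / 2 : ℝ) ^ b ≤ 1 / 4 := by
    calc (1 / 2 : ℝ) ^ b ≤ (1 / 2 : ℝ) ^ 2 :=
          pow_le_pow_of_le_one (by norm_num) (by norm_num) hb
      _ = 1 / 4 := by norm_num
  set t := (1 / 2 : ℝ) ^ b
  have e : (1 + t) ^ 6 = 1 + t * (6 + 15 * t + 20 * t ^ 2 + 15 * t ^ 3 + 6 * t ^ 4 + t ^ 5) := by
    ring
  rw [e]
  have h2 : t ^ 2 ≤ t := by nlinarith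
  have h3 : t ^ 3 ≤ t ^ 2 := by nlinarith [sq_nonneg t]
  have h4 : t ^ 4 ≤ t ^ 3 := by nlinarith [pow_pos h0 3]
  have h5 : t ^ 5 ≤ t ^ 4 := by nlinarith [pow_pos h0 4]
  have h6 : t ^ 2 ≤ 1 / 16 := by nlinarith
  have h7 : t ^ 3 ≤ 1 / 64 := by nlinarith [sq_nonneg t]
  have h8 : t ^ 4 ≤ 1 / 64 := by linarith
  have h9 : t ^ 5 ≤ 1 / 64 := by linarith
  nlinarith

/-! ### the number of first members -/

open Classical in
/-- the first members -/
noncomputable def NS (W R Y D : ℕ) (E : Finset ℕ) : Finset ℕ :=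
  (Ioc (Y - D) (2 * Y)).filter (fun n => inA W E n ∧ ∀ p ∈ PS W R, ¬ p ∣ n)

lemma mem_NS {W R Y D : ℕ} {E : Finset ℕ} {n : ℕ} : n ∈ NS W R Y D E ↔
    (Y - D < n ∧ n ≤ 2 * Y) ∧ inA W E n ∧ ∀ p ∈ PS W R, ¬ p ∣ n := by
  simp only [NS, mem_filter, mem_Ioc]

lemma NS_card {W R Y D : ℕ} {E : Finset ℕ} {t xb : ℝ} (hW : 1 ≤ W) (ht : 0 < t) (ht1 : t ≤ 1)
    (hb : ∀ x : ℝ, xb ≤ x → ∀ u v a : ℕ, x / 2 ≤ u → (v : ℝ) ≤ 3 * x →
      (u : ℝ) + 1 / 2 * x ≤ v → a.Coprime W →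
      |(((Ioc u v).filter (fun q => q.Prime ∧ q % W = a % W)).card : ℝ) -
        ((v : ℝ) - u) / (Nat.totient W * Real.log x)| ≤
      t * (((v : ℝ) - u) / (Nat.totient W * Real.log x)))
    (hE : ∀ e ∈ E, 1 ≤ e ∧ e.Coprime W ∧ xb ≤ (Y : ℝ) / e ∧ 8 / t ≤ (Y : ℝ) / e)
    (hD : 8 * (D : ℝ) ≤ t * Y) :
    ((NS W R Y D E).card : ℝ) ≤ (1 + t) ^ 2 * ((Y : ℝ) / Nat.totient W * al E Y) := by
  classical
  have hφ : (0 : ℝ) < Nat.totient W := by exact_mod_cast Nat.totient_pos.2 (by omega)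
  -- the class of `p`
  have ha : ∀ e ∈ E, ∃ a : ℕ, a.Coprime W ∧ ∀ q : ℕ, (e * q) % W = 1 % W → q % W = a % W :=
    fun e he => exists_inv W e 1 hW (hE e he).2.1 (Nat.coprime_one_left W)
  choose! a ha1 ha2 using ha
  have hsub : NS W R Y D E ⊆ E.biUnion (fun e => ((Ioc ((Y - D) / e) ((2 * Y) / e)).filter
      (fun q => q.Prime ∧ q % W = a e % W)).image (fun q => e * q)) := by
    intro n hn
    obtain ⟨⟨h1, h2⟩, ⟨h3, e, he, q, hq, rfl⟩, -⟩ := mem_NS.1 hn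
    rw [mem_biUnion]
    refine ⟨e, he, mem_image.2 ⟨q, mem_filter.2 ⟨mem_Ioc.2 ⟨?_, ?_⟩, hq, ha2 e he q h3⟩, rfl⟩⟩
    · rw [Nat.div_lt_iff_lt_mul (by have := (hE e he).1; omega), mul_comm]
      exact h1
    · rw [Nat.le_div_iff_mul_le (by have := (hE e he).1; omega), mul_comm]
      exact h2
  have h1 : ((NS W R Y D E).card : ℝ) ≤ ∑ e ∈ E, (((Ioc ((Y - D) / e) ((2 * Y) / e)).filter
      (fun q => q.Prime ∧ q % W = a e % W)).card : ℝ) := by
    have h2 := (card_le_card hsub).trans card_biUnion_le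
    have h3 : ∑ e ∈ E, ((((Ioc ((Y - D) / e) ((2 * Y) / e)).filter
      (fun q => q.Prime ∧ q % W = a e % W)).image (fun q => e * q)).card) ≤
      ∑ e ∈ E, ((Ioc ((Y - D) / e) ((2 * Y) / e)).filter
      (fun q => q.Prime ∧ q % W = a e % W)).card := sum_le_sum fun e _ => card_image_le
    exact_mod_cast h2.trans h3
  refine h1.trans ?_
  unfold al
  rw [mul_sum, mul_sum]
  refine sum_le_sum fun e he => ?_
  obtain ⟨he1, he2, he3, he4⟩ := hE e he
  have he0 : (0 : ℝ) < e := by exact_mod_cast he1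
  set x : ℝ := (Y : ℝ) / e with hx
  have hx8 : 8 ≤ x := by
    refine le_trans ?_ he4
    rw [le_div_iff₀ ht]; nlinarith
  have hY0 : (Y : ℝ) = x * e := by rw [hx]; field_simp
  have hDY : D ≤ Y := by
    have : (D : ℝ) ≤ Y := by
      have : (0 : ℝ) ≤ Y := Nat.cast_nonneg _
      nlinarith
    exact_mod_cast this
  have hDe : 8 * ((D : ℝ) / e) ≤ t * x := by
    rw [hx, ← mul_div_assoc, ← mul_div_assoc]
    exact div_le_div_of_nonneg_right hD he0.le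
  have hD0 : 0 ≤ (D : ℝ) / e := by positivity
  have hu := div_bounds (Y - D) e he1
  have hv := div_bounds (2 * Y) e he1
  rw [Nat.cast_sub hDY, sub_div, ← hx] at hu
  rw [Nat.cast_mul, mul_div_assoc, ← hx] at hv
  push_cast at hv
  have htx : t * x ≤ x := by nlinarith
  have h8t : 8 ≤ t * x := by
    rw [div_le_iff₀ ht] at he4
    linarith
  have key := hb x he3 ((Y - D) / e) ((2 * Y) / e) (a e) (by linarith) (by linarith)
    (by linarith) (ha1 e he)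
  have hlog : 0 < Real.log x := Real.log_pos (by linarith)
  have h5 := (abs_le.1 key).2
  have hφl : 0 < (Nat.totient W : ℝ) * Real.log x := mul_pos hφ hlog
  have h6 : (((2 * Y / e : ℕ) : ℝ) - (((Y - D) / e : ℕ) : ℝ)) ≤ (1 + t) * x := by linarith
  have h7 : (((2 * Y / e : ℕ) : ℝ) - (((Y - D) / e : ℕ) : ℝ)) / (Nat.totient W * Real.log x) ≤
      (1 + t) * x / (Nat.totient W * Real.log x) :=
    div_le_div_of_nonneg_right h6 hφl.le
  have h8 : (1 + t) ^ 2 * ((Y : ℝ) / Nat.totient W * (1 / ((e : ℝ) * Real.log x))) =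
      (1 + t) * ((1 + t) * x / (Nat.totient W * Real.log x)) := by
    rw [hY0]
    field_simp
  rw [h8]
  have h9 := mul_le_mul_of_nonneg_left h7 (by linarith : 0 ≤ 1 + t)
  linarith

/-! ### the number of second members -/

/-- the error term of the sieve bound -/
lemma err_bound {t x LY v φ W X e' PI : ℝ} {K B0 : ℕ} (hK : 1 ≤ K) (ht : 0 < t)
    (hx : 0 < x) (hLY : 0 < LY) (hlx : 0 < Real.log x) (hlxY : Real.log x ≤ LY)
    (hv3 : v ≤ 3 * x) (hlv : LY / 8 ≤ Real.log v)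
    (hφ : 0 < φ) (hφW : φ ≤ W) (hX : x / (2 * K) ≤ X / e')
    (hPI : 1 / LY ^ B0 ≤ PI) (hL : 6 * K * 8 ^ (B0 + 2) ≤ t * LY) :
    v / Real.log v ^ (B0 + 2) ≤ t * (W / φ * (X / (e' * Real.log x)) * PI) := by
  have hK0 : (0 : ℝ) < K := by exact_mod_cast hK
  have h1 : v / Real.log v ^ (B0 + 2) ≤ 3 * x / (LY / 8) ^ (B0 + 2) := by
    have h2 : 0 < (LY / 8) ^ (B0 + 2) := by positivity
    have h3 : (LY / 8) ^ (B0 + 2) ≤ Real.log v ^ (B0 + 2) :=
      pow_le_pow_left₀ (by positivity) hlv _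
    calc v / Real.log v ^ (B0 + 2) ≤ 3 * x / Real.log v ^ (B0 + 2) :=
          div_le_div_of_nonneg_right hv3 (h2.le.trans h3)
      _ ≤ _ := div_le_div_of_nonneg_left (by positivity) h2 h3
  refine h1.trans ?_
  have h4 : 1 ≤ W / φ := by rwa [le_div_iff₀ hφ, one_mul]
  have h5 : x / (2 * K) / LY ≤ X / (e' * Real.log x) := by
    have e0 : X / (e' * Real.log x) = X / e' / Real.log x := by rw [div_div]
    rw [e0]
    have : 0 < x / (2 * K) := by positivity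
    exact div_le_div₀ (this.le.trans hX) hX hlx hlxY
  have h6 : 0 < 1 / LY ^ B0 := by positivity
  have h7 : 0 < x / (2 * K) / LY := by positivity
  have h8 : 1 * (x / (2 * K) / LY) * (1 / LY ^ B0) ≤ W / φ * (X / (e' * Real.log x)) * PI := by
    have h9 : 1 * (x / (2 * K) / LY) ≤ W / φ * (X / (e' * Real.log x)) :=
      mul_le_mul h4 h5 h7.le (by linarith)
    exact mul_le_mul h9 hPI h6.le (by linarith)
  refine le_trans ?_ (mul_le_mul_of_nonneg_left h8 ht.le)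
  have e1 : 3 * x / (LY / 8) ^ (B0 + 2) =
      (6 * K * 8 ^ (B0 + 2)) * (x / (2 * K) / LY * (1 / LY ^ B0) / LY) := by
    rw [div_pow]
    field_simp
    ring
  have e2 : t * (1 * (x / (2 * K) / LY) * (1 / LY ^ B0)) =
      (t * LY) * (x / (2 * K) / LY * (1 / LY ^ B0) / LY) := by
    field_simp
  rw [e1, e2]
  exact mul_le_mul_of_nonneg_right hL (by positivity)

lemma PS_mul {W h R : ℕ} (H : ∀ p : ℕ, p.Prime → p ∣ h → p ∣ W) : PS (W * h) R = PS W R := by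
  unfold PS
  refine filter_congr fun p _ => ?_
  constructor
  · rintro ⟨h1, h2⟩
    exact ⟨h1, fun h3 => h2 (Dvd.dvd.mul_right h3 h)⟩
  · rintro ⟨h1, h2⟩
    refine ⟨h1, fun h3 => ?_⟩
    rcases (Nat.Prime.dvd_mul h1).1 h3 with h4 | h4
    · exact h2 h4
    · exact h2 (H p h1 h4)

lemma pow_aux {t : ℝ} (ht : 0 < t) : (1 + t) ^ 3 + t ≤ (1 + t) ^ 4 := by
  have h7 : 1 ≤ (1 + t) ^ 3 := one_le_pow₀ (by linarith)
  nlinarith

open Classical in
/-- the second members -/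
noncomputable def QS (W h R m i i' X n e' a : ℕ) : Finset ℕ :=
  (Ioc ((n + W * h * X) / e') ((n + 2 * (W * h * X)) / e')).filter (fun q => q.Prime ∧
    q % (W * h) = a % (W * h) ∧ ∀ p ∈ PS (W * h) R, q % p ∉ OmS m i i' n e' p)

set_option maxHeartbeats 1000000 in
open Classical in
lemma QS_card {m b W K h J X Y e' n i i' B0 X0 C0 a : ℕ} {t xa : ℝ} {E : Finset ℕ}
    (htb : t = (1 / 2 : ℝ) ^ b) (ht : 0 < t) (ht1 : t ≤ 1) (hW : 1 ≤ W) (hh : 1 ≤ h)
    (hhm : h < m) (hK : 1 ≤ K) (hi : i < m) (hi' : i' < m) (hii : i ≠ i')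
    (hpW : ∀ p : ℕ, p.Prime → p ≤ m + 1 → p ∣ W)
    (hpsu : ∀ u v J a : ℕ, X0 ≤ v → u ≤ v → ((2 ^ 2 ^ J) ^ (C0 * b)) ^ 3 ≤ v →
      a.Coprime (W * h) →
      ∀ Om : ℕ → Finset ℕ, (∀ p ∈ PS (W * h) (2 ^ 2 ^ J), (Om p).card ≤ m - 1 ∧ 0 ∉ Om p ∧
        ∀ c ∈ Om p, c < p) →
      (((Ioc u v).filter (fun q => q.Prime ∧ q % (W * h) = a % (W * h) ∧
        ∀ p ∈ PS (W * h) (2 ^ 2 ^ J), q % p ∉ Om p)).card : ℝ) ≤
        (1 + (1 / 2 : ℝ) ^ b) * ((((Ioc u v).filter Nat.Prime).card : ℝ) /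
          Nat.totient (W * h)) *
          ∏ p ∈ PS (W * h) (2 ^ 2 ^ J), (1 - ((Om p).card : ℝ) / ((p : ℝ) - 1)) +
        v / Real.log v ^ (B0 + 2))
    (hpai : ∀ x : ℝ, xa ≤ x → ∀ u v a : ℕ, x / 2 ≤ u → (v : ℝ) ≤ 3 * x →
      (u : ℝ) + ((W : ℝ) / (4 * K)) * x ≤ v → a.Coprime 1 →
      |(((Ioc u v).filter (fun q => q.Prime ∧ q % 1 = a % 1)).card : ℝ) -
        ((v : ℝ) - u) / (Nat.totient 1 * Real.log x)| ≤
      t * (((v : ℝ) - u) / (Nat.totient 1 * Real.log x)))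
    (hXe : X = Y / K) (hn : n ∈ NS W (2 ^ 2 ^ J) Y (2 * (W * m * X)) E)
    (hD : 16 * ((W : ℝ) * m * X) ≤ t * Y)
    (he1 : 1 ≤ e') (hep : ∀ p ∈ PS W (2 ^ 2 ^ J), ¬ p ∣ e')
    (ha : a.Coprime (W * h))
    (hx1 : xa ≤ (Y : ℝ) / e') (hx2 : 2 * (X0 : ℝ) ≤ (Y : ℝ) / e')
    (hx3 : 2 * (((2 : ℝ) ^ 2 ^ J) ^ (C0 * b)) ^ 3 ≤ (Y : ℝ) / e')
    (hx4 : 4 * K / t ≤ (Y : ℝ) / e') (hx5 : (Y : ℝ) ≤ ((Y : ℝ) / e' / 2) ^ 8)
    (hx6 : 8 ≤ (Y : ℝ) / e')
    (hL : 6 * K * 8 ^ (B0 + 2) ≤ t * Real.log Y)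
    (hPI : 1 / Real.log Y ^ B0 ≤ PI1 W (2 ^ 2 ^ J) (m - 1)) :
    ((QS W h (2 ^ 2 ^ J) m i i' X n e' a).card : ℝ) ≤ (1 + t) ^ 4 *
      ((W : ℝ) / Nat.totient W * ((X : ℝ) / (e' * Real.log ((Y : ℝ) / e'))) *
        PI1 W (2 ^ 2 ^ J) (m - 1)) := by
  have hn' := mem_NS.1 hn
  have hph : ∀ p : ℕ, p.Prime → p ∣ h → p ∣ W := fun p hp hph =>
    hpW p hp (by have := Nat.le_of_dvd (by omega) hph; omega)
  have hPS : PS (W * h) (2 ^ 2 ^ J) = PS W (2 ^ 2 ^ J) := PS_mul hph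
  have hK0 : (0 : ℝ) < K := by exact_mod_cast hK
  have hW0 : (1 : ℝ) ≤ W := by exact_mod_cast hW
  have hh0 : (1 : ℝ) ≤ h := by exact_mod_cast hh
  have hhm' : (h : ℝ) ≤ m := by exact_mod_cast hhm.le
  have he0 : (0 : ℝ) < e' := by exact_mod_cast he1
  have he1' : (1 : ℝ) ≤ e' := by exact_mod_cast he1
  have hφ : (0 : ℝ) < Nat.totient W := by exact_mod_cast Nat.totient_pos.2 (by omega)
  have hφW : (Nat.totient W : ℝ) ≤ W := by exact_mod_cast Nat.totient_le W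
  set x : ℝ := (Y : ℝ) / e' with hx
  have hY0 : (Y : ℝ) = x * e' := by rw [hx]; field_simp
  have hxY : x ≤ Y := by
    rw [hx]; exact div_le_self (Nat.cast_nonneg _) he1'
  have hx0 : 0 < x := by linarith
  -- `ω`
  set ω : ℝ := (W : ℝ) * h * X / e' with hω
  have hX0 : (0 : ℝ) ≤ X := Nat.cast_nonneg _
  have hWhX : (W : ℝ) * h * X ≤ W * m * X :=
    mul_le_mul_of_nonneg_right (mul_le_mul_of_nonneg_left hhm' (by linarith)) hX0
  have hD' : 16 * ((W : ℝ) * m * X / e') ≤ t * x := by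
    rw [hx, ← mul_div_assoc, ← mul_div_assoc]
    exact div_le_div_of_nonneg_right hD he0.le
  have hω1 : ω ≤ (W : ℝ) * m * X / e' := div_le_div_of_nonneg_right hWhX he0.le
  have hω0 : 0 ≤ ω := by positivity
  have htx : t * x ≤ x := mul_le_of_le_one_left hx0.le ht1
  -- lower bound for `X`
  have h4K : 4 * K ≤ t * x := by
    rw [div_le_iff₀ ht] at hx4; linarith
  have hXl : (Y : ℝ) / (2 * K) ≤ X := by
    have h1 := (div_bounds Y K hK).1
    rw [← hXe] at h1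
    have h2 : (Y : ℝ) / K = (Y : ℝ) / (2 * K) + (Y : ℝ) / (2 * K) := by
      field_simp; ring
    have h3 : 1 ≤ (Y : ℝ) / (2 * K) := by
      rw [le_div_iff₀ (by positivity)]
      linarith
    linarith
  have hXe' : x / (2 * K) ≤ (X : ℝ) / e' := by
    have h1 : x / (2 * K) = (Y : ℝ) / (2 * K) / e' := by
      rw [hx]; field_simp
    rw [h1]
    exact div_le_div_of_nonneg_right hXl he0.le
  have hωl : W * (x / (2 * K)) ≤ ω := by
    have h1 : ω = W * h * (X / e') := by rw [hω]; field_simp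
    rw [h1]
    have h2 : 0 < x / (2 * K) := by positivity
    have h3 : (W : ℝ) ≤ W * h := le_mul_of_one_le_right (by linarith) hh0
    exact mul_le_mul h3 hXe' h2.le (by positivity)
  have hxK : 2 ≤ t * (x / (2 * K)) := by
    rw [← mul_div_assoc, le_div_iff₀ (by positivity)]
    linarith
  have hxK0 : 0 < x / (2 * K) := by positivity
  have hxK1 : t * (x / (2 * K)) ≤ x / (2 * K) := mul_le_of_le_one_left hxK0.le ht1
  have hωt : 1 ≤ t * ω := by
    have h1 : x / (2 * K) ≤ W * (x / (2 * K)) := le_mul_of_one_le_left hxK0.le hW0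
    have h2 : t * (x / (2 * K)) ≤ t * ω := mul_le_mul_of_nonneg_left (h1.trans hωl) ht.le
    linarith
  -- bounds for the end points
  obtain ⟨⟨hn1, hn2⟩, -, hn3⟩ := hn'
  have hnl : x - 2 * ((W : ℝ) * m * X / e') ≤ (n : ℝ) / e' := by
    have h1 : Y ≤ n + 2 * (W * m * X) := by omega
    have h2 : (Y : ℝ) ≤ n + 2 * (W * m * X) := by exact_mod_cast h1
    have h3 : (Y : ℝ) / e' ≤ (n + 2 * (W * m * X)) / e' := div_le_div_of_nonneg_right h2 he0.le
    rw [add_div, mul_div_assoc] at h3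
    linarith
  have hnu : (n : ℝ) / e' ≤ 2 * x := by
    have h2 : (n : ℝ) ≤ 2 * Y := by exact_mod_cast hn2
    have h3 := div_le_div_of_nonneg_right h2 he0.le
    rwa [mul_div_assoc] at h3
  have hu := div_bounds (n + W * h * X) e' he1
  have hv := div_bounds (n + 2 * (W * h * X)) e' he1
  have hu' : (((n + W * h * X : ℕ)) : ℝ) / e' = (n : ℝ) / e' + ω := by
    rw [hω]; push_cast; rw [add_div]
  have hv' : (((n + 2 * (W * h * X) : ℕ)) : ℝ) / e' = (n : ℝ) / e' + 2 * ω := by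
    rw [hω]; push_cast; rw [add_div, mul_div_assoc]
  rw [hu'] at hu
  rw [hv'] at hv
  unfold QS
  set u := (n + W * h * X) / e' with hudef
  set v := (n + 2 * (W * h * X)) / e' with hvdef
  have huv : u ≤ v := Nat.div_le_div_right (by omega)
  have hxv : x / 2 ≤ v := by linarith
  have hv3 : (v : ℝ) ≤ 3 * x := by linarith
  have hux : x / 2 ≤ u := by linarith
  have hvu : (v : ℝ) - u ≤ (1 + t) * ω := by linarith
  -- the number of primes
  have hlx : 0 < Real.log x := Real.log_pos (by linarith)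
  have hcx : (u : ℝ) + ((W : ℝ) / (4 * K)) * x ≤ v := by
    have h1 : ((W : ℝ) / (4 * K)) * x = W * (x / (2 * K)) / 2 := by
      field_simp; ring
    have h2 : x / (2 * K) ≤ W * (x / (2 * K)) := le_mul_of_one_le_left hxK0.le hW0
    rw [h1]
    linarith
  have hP0 : ((Ioc u v).filter (fun q => q.Prime ∧ q % 1 = 1 % 1)) =
      (Ioc u v).filter Nat.Prime := by
    ext q
    simp [Nat.mod_one]
  have hP := (abs_le.1 (hpai x hx1 u v 1 hux hv3 hcx (Nat.coprime_one_right 1))).2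
  rw [hP0, Nat.totient_one, Nat.cast_one, one_mul] at hP
  have hP1 : (((Ioc u v).filter Nat.Prime).card : ℝ) ≤ (1 + t) ^ 2 * (ω / Real.log x) := by
    have h1 : ((v : ℝ) - u) / Real.log x ≤ (1 + t) * ω / Real.log x :=
      div_le_div_of_nonneg_right hvu hlx.le
    have h2 := mul_le_mul_of_nonneg_left h1 (by linarith : 0 ≤ 1 + t)
    have h3 : (1 + t) ^ 2 * (ω / Real.log x) = (1 + t) * ((1 + t) * ω / Real.log x) := by ring
    rw [h3]
    linarith
  -- the sieve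
  have hOm : ∀ p ∈ PS (W * h) (2 ^ 2 ^ J), (OmS m i i' n e' p).card = m - 1 ∧
      0 ∉ OmS m i i' n e' p ∧ ∀ c ∈ OmS m i i' n e' p, c < p := by
    intro p hp
    rw [hPS] at hp
    have hp' := hp
    unfold PS at hp'
    rw [mem_filter] at hp'
    have hpm : m ≤ p := by
      by_contra hc
      exact hp'.2.2 (hpW p hp'.2.1 (by omega))
    exact ⟨OmS_card hp'.2.1 hpm hi hi' hii (hn3 p hp) (hep p hp),
      OmS_zero hp'.2.1 hpm hi hi' (hn3 p hp) (hep p hp), OmS_lt hp'.2.1⟩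
  have hv1 : X0 ≤ v := by
    have : (X0 : ℝ) ≤ v := by linarith
    exact_mod_cast this
  have hv2 : ((2 ^ 2 ^ J) ^ (C0 * b)) ^ 3 ≤ v := by
    have : ((((2 ^ 2 ^ J) ^ (C0 * b)) ^ 3 : ℕ) : ℝ) ≤ v := by
      push_cast
      linarith
    exact_mod_cast this
  have hS := hpsu u v J a hv1 huv hv2 ha (OmS m i i' n e')
    (fun p hp => ⟨(hOm p hp).1.le, (hOm p hp).2⟩)
  refine le_trans (le_of_eq (by congr!)) (hS.trans ?_)
  have hprod : ∏ p ∈ PS (W * h) (2 ^ 2 ^ J), (1 - ((OmS m i i' n e' p).card : ℝ) /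
      ((p : ℝ) - 1)) = PI1 W (2 ^ 2 ^ J) (m - 1) := by
    unfold PI1
    rw [← hPS]
    exact prod_congr rfl fun p hp => by rw [(hOm p hp).1]
  rw [hprod, ← htb]
  have hLY : 0 < Real.log Y := Real.log_pos (by linarith)
  have hlxY : Real.log x ≤ Real.log Y := Real.log_le_log hx0 hxY
  have hlv : Real.log Y / 8 ≤ Real.log v := by
    have h1 : Real.log Y ≤ Real.log ((x / 2) ^ 8) := Real.log_le_log (by linarith) hx5
    have h2 : Real.log (x / 2) ≤ Real.log v := Real.log_le_log (by linarith) hxv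
    rw [Real.log_pow] at h1
    push_cast at h1
    linarith
  have hPI0 : 0 < PI1 W (2 ^ 2 ^ J) (m - 1) := lt_of_lt_of_le (by positivity) hPI
  have herr := err_bound (t := t) (x := x) (LY := Real.log Y) (v := (v : ℝ))
    (φ := (Nat.totient W : ℝ)) (W := (W : ℝ)) (X := (X : ℝ)) (e' := (e' : ℝ))
    (PI := PI1 W (2 ^ 2 ^ J) (m - 1)) (K := K) (B0 := B0) hK ht hx0 hLY hlx hlxY hv3 hlv hφ hφW
    hXe' hPI hL
  refine (add_le_add_right herr _).trans ?_
  set M : ℝ := (W : ℝ) / Nat.totient W * ((X : ℝ) / (e' * Real.log x)) *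
        PI1 W (2 ^ 2 ^ J) (m - 1) with hM
  have hM0 : 0 ≤ M := by positivity
  have hmain : (1 + t) * ((((Ioc u v).filter Nat.Prime).card : ℝ) / Nat.totient (W * h)) *
      PI1 W (2 ^ 2 ^ J) (m - 1) ≤ (1 + t) ^ 3 * M := by
    rw [totient_mul_of_primes hW hh hph]
    have h1 : (((Ioc u v).filter Nat.Prime).card : ℝ) / (h * Nat.totient W) ≤
        (1 + t) ^ 2 * (ω / Real.log x) / (h * Nat.totient W) :=
      div_le_div_of_nonneg_right hP1 (by positivity)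
    have h2 : (1 + t) ^ 2 * (ω / Real.log x) / (h * Nat.totient W) =
        (1 + t) ^ 2 * ((W : ℝ) / Nat.totient W * ((X : ℝ) / (e' * Real.log x))) := by
      rw [hω]
      field_simp
    rw [h2] at h1
    have h3 := mul_le_mul_of_nonneg_left h1 (by linarith : 0 ≤ 1 + t)
    have h4 := mul_le_mul_of_nonneg_right h3 hPI0.le
    refine h4.trans (le_of_eq ?_)
    rw [hM]; ring
  have h5 : (1 + t) ^ 3 * M + t * M ≤ (1 + t) ^ 4 * M := by
    have h6 : (1 + t) ^ 3 + t ≤ (1 + t) ^ 4 := pow_aux ht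
    rw [← add_mul]
    exact mul_le_mul_of_nonneg_right h6 hM0
  linarith

/-! ### fibres -/

open Classical in
/-- the sieved pairs with two forms in `A_E`, `A_E'` -/
noncomputable def ZS (W m R X Y : ℕ) (E E' : Finset ℕ) (i i' : ℕ) : Finset (ℕ × ℕ) :=
  (SZ W m R X Y).filter
        (fun z => inA W E (z.2 - W * (i + 1) * z.1) ∧
          inA W E' (z.2 - W * (i' + 1) * z.1))

lemma mem_SZ {W m R X Y : ℕ} {z : ℕ × ℕ} : z ∈ SZ W m R X Y ↔
    ((X < z.1 ∧ z.1 ≤ 2 * X) ∧ (Y < z.2 ∧ z.2 ≤ 2 * Y)) ∧ z.2 % W = 1 % W ∧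
    ∀ p ∈ PS W R, ¬ p ∣ z.1 ∧ ∀ l < m, ¬ p ∣ z.2 - W * (l + 1) * z.1 := by
  simp only [SZ, mem_filter, mem_product, mem_Ioc]

lemma mem_ZS {W m R X Y : ℕ} {E E' : Finset ℕ} {i i' : ℕ} {z : ℕ × ℕ} :
    z ∈ ZS W m R X Y E E' i i' ↔ z ∈ SZ W m R X Y ∧ inA W E (z.2 - W * (i + 1) * z.1) ∧
          inA W E' (z.2 - W * (i' + 1) * z.1) := by
  simp only [ZS, mem_filter]

lemma mem_QS {W h R m i i' X n e' a q : ℕ} : q ∈ QS W h R m i i' X n e' a ↔
    ((n + W * h * X) / e' < q ∧ q ≤ (n + 2 * (W * h * X)) / e') ∧ q.Prime ∧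
    q % (W * h) = a % (W * h) ∧ ∀ p ∈ PS (W * h) R, q % p ∉ OmS m i i' n e' p := by
  simp only [QS, mem_filter, mem_Ioc]

lemma ZS_card {W m R X Y : ℕ} {E E' : Finset ℕ} {i i' : ℕ} (hW : 1 ≤ W)
    (hi : i < m) (hii : i' < i)
    (hpW : ∀ p : ℕ, p.Prime → p ≤ m + 1 → p ∣ W) (hD : 2 * (W * m * X) ≤ Y)
    (hE' : ∀ e ∈ E', 1 ≤ e ∧ ∀ p ∈ PS W R, ¬ p ∣ e) (a : ℕ → ℕ → ℕ)
    (ha : ∀ n ∈ NS W R Y (2 * (W * m * X)) E, ∀ e ∈ E', ∀ q : ℕ,
      (e * q) % (W * (i - i')) = n % (W * (i - i')) →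
      q % (W * (i - i')) = a n e % (W * (i - i'))) :
    (ZS W m R X Y E E' i i').card ≤ ∑ n ∈ NS W R Y (2 * (W * m * X)) E, ∑ e ∈ E',
      (QS W (i - i') R m i i' X n e (a n e)).card := by
  obtain ⟨h, rfl⟩ : ∃ h, i = i' + h := ⟨i - i', by omega⟩
  have hh : 1 ≤ h := by omega
  rw [Nat.add_sub_cancel_left] at *
  have hph : ∀ p : ℕ, p.Prime → p ∣ h → p ∣ W := fun p hp hph =>
    hpW p hp (by have := Nat.le_of_dvd (by omega) hph; omega)
  have hPS : PS (W * h) R = PS W R := PS_mul hph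
  -- facts on a pair
  have hfact : ∀ z ∈ SZ W m R X Y, W * m * z.1 ≤ z.2 ∧
      z.2 - W * (i' + 1) * z.1 = z.2 - W * (i' + h + 1) * z.1 + W * h * z.1 ∧
      z.2 = z.2 - W * (i' + h + 1) * z.1 + W * (i' + h + 1) * z.1 ∧
      W * (i' + h + 1) * z.1 ≤ 2 * (W * m * X) := by
    intro z hz
    rw [mem_SZ] at hz
    have h1 : W * m * z.1 ≤ W * m * (2 * X) := Nat.mul_le_mul_left _ hz.1.1.2
    have h2 : W * m * (2 * X) = 2 * (W * m * X) := by ring
    have h3 : W * (i' + h + 1) * z.1 ≤ W * m * z.1 :=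
      Nat.mul_le_mul_right _ (Nat.mul_le_mul_left _ (by omega))
    have h4 : W * (i' + h + 1) * z.1 = W * (i' + 1) * z.1 + W * h * z.1 := by ring
    refine ⟨by omega, by omega, by omega, by omega⟩
  let f : ℕ × ℕ → ℕ × ℕ := fun z => (z.2 - W * (i' + h + 1) * z.1, z.2 - W * (i' + 1) * z.1)
  have hinj : Set.InjOn f (ZS W m R X Y E E' (i' + h) i' : Set (ℕ × ℕ)) := by
    intro z hz z' hz' hzz
    rw [mem_coe, mem_ZS] at hz hz'
    obtain ⟨-, b1, b2, -⟩ := hfact z hz.1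
    obtain ⟨-, b3, b4, -⟩ := hfact z' hz'.1
    simp only [f, Prod.mk.injEq] at hzz
    obtain ⟨c1, c2⟩ := hzz
    have h1 : W * h * z.1 = W * h * z'.1 := by omega
    have h2 : z.1 = z'.1 := Nat.eq_of_mul_eq_mul_left (Nat.mul_pos hW hh) h1
    have h3 : z.2 = z'.2 := by
      rw [b2, b4, c1, h2]
    exact Prod.ext h2 h3
  have hsub : (ZS W m R X Y E E' (i' + h) i').image f ⊆
      (NS W R Y (2 * (W * m * X)) E).biUnion (fun n => E'.biUnion (fun e =>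
        (QS W h R m (i' + h) i' X n e (a n e)).image (fun q => (n, e * q)))) := by
    intro w hw
    rw [mem_image] at hw
    obtain ⟨z, hz, rfl⟩ := hw
    rw [mem_ZS] at hz
    obtain ⟨hz1, hz2, hz3⟩ := hz
    obtain ⟨b0, b1, b2, b3⟩ := hfact z hz1
    have hz4 := mem_SZ.1 hz1
    obtain ⟨⟨⟨x1, x2⟩, ⟨y1, y2⟩⟩, hz5, hz6⟩ := hz4
    have hnN : z.2 - W * (i' + h + 1) * z.1 ∈ NS W R Y (2 * (W * m * X)) E :=
      mem_NS.2 ⟨⟨by omega, by omega⟩, hz2, fun p hp => (hz6 p hp).2 (i' + h) hi⟩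
    obtain ⟨-, e, he, q, hq, hqe⟩ := hz3
    have he1 := (hE' e he).1
    rw [mem_biUnion]
    refine ⟨_, hnN, mem_biUnion.2 ⟨e, he, mem_image.2 ⟨q, mem_QS.2 ⟨⟨?_, ?_⟩, hq, ?_, ?_⟩, ?_⟩⟩⟩
    · rw [Nat.div_lt_iff_lt_mul (by omega), mul_comm q e, ← hqe, b1]
      have : W * h * X < W * h * z.1 := Nat.mul_lt_mul_of_pos_left x1 (Nat.mul_pos hW hh)
      omega
    · rw [Nat.le_div_iff_mul_le (by omega), mul_comm q e, ← hqe, b1]
      have h1 : W * h * z.1 ≤ W * h * (2 * X) := Nat.mul_le_mul_left _ x2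
      have h2 : W * h * (2 * X) = 2 * (W * h * X) := by ring
      omega
    · refine ha _ hnN e he q ?_
      rw [← hqe, b1, Nat.add_mul_mod_self_left]
    · intro p hp
      rw [hPS] at hp
      have hp' := hp
      unfold PS at hp'
      rw [mem_filter] at hp'
      have hpm : m ≤ p := by
        by_contra hc
        exact hp'.2.2 (hpW p hp'.2.1 (by omega))
      exact OmS_avoid hp'.2.1 hpm hi (by omega) (by omega) hp'.2.2 ((hE' e he).2 p hp) b0
        (hz6 p hp).1 (hz6 p hp).2 hqe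
    · simp only [f]
      rw [← hqe]
  rw [← card_image_of_injOn hinj]
  refine (card_le_card hsub).trans (card_biUnion_le.trans (sum_le_sum fun n _ => ?_))
  refine card_biUnion_le.trans (sum_le_sum fun e _ => card_image_le)

/-- the conditions on `Y / e` -/
lemma x_facts {Y e G : ℕ} {M : ℝ} (hM : 0 ≤ M) (hMY : M ^ 8 ≤ Y) (hY : 4 ≤ Y) (he : 1 ≤ e)
    (he8 : e ^ 8 ≤ Y) (hG : G ^ 8 ≤ Y) :
    M ≤ (Y : ℝ) / e ∧ 2 * (G : ℝ) ^ 3 ≤ (Y : ℝ) / e ∧ (Y : ℝ) ≤ ((Y : ℝ) / e / 2) ^ 8 := by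
  have hY0 : (4 : ℝ) ≤ Y := by exact_mod_cast hY
  have he0 : (0 : ℝ) < e := by exact_mod_cast he
  have hx0 : 0 ≤ (Y : ℝ) / e := by positivity
  have he8' : (e : ℝ) ^ 8 ≤ Y := by exact_mod_cast he8
  have hG' : (G : ℝ) ^ 8 ≤ Y := by exact_mod_cast hG
  have h7 : (Y : ℝ) ^ 7 ≤ ((Y : ℝ) / e) ^ 8 := by
    rw [div_pow, le_div_iff₀ (by positivity)]
    calc (Y : ℝ) ^ 7 * (e : ℝ) ^ 8 ≤ (Y : ℝ) ^ 7 * Y :=
          mul_le_mul_of_nonneg_left he8' (by positivity)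
      _ = (Y : ℝ) ^ 8 := by ring
  have h256 : 256 * (Y : ℝ) ^ 3 ≤ (Y : ℝ) ^ 7 := by
    have h1 : (4 : ℝ) ^ 4 ≤ (Y : ℝ) ^ 4 := pow_le_pow_left₀ (by norm_num) hY0 4
    have h2 : (Y : ℝ) ^ 7 = (Y : ℝ) ^ 4 * (Y : ℝ) ^ 3 := by ring
    rw [h2]
    exact mul_le_mul_of_nonneg_right (by linarith) (by positivity)
  have hY13 : (Y : ℝ) ≤ (Y : ℝ) ^ 3 := le_self_pow₀ (by linarith) (by norm_num)
  have hY3 : 0 ≤ (Y : ℝ) ^ 3 := by positivity
  refine ⟨?_, ?_, ?_⟩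
  · refine (pow_le_pow_iff_left₀ hM hx0 (by norm_num : 8 ≠ 0)).1 ?_
    linarith
  · refine (pow_le_pow_iff_left₀ (by positivity) hx0 (by norm_num : 8 ≠ 0)).1 ?_
    have h1 : (2 * (G : ℝ) ^ 3) ^ 8 = 256 * ((G : ℝ) ^ 8) ^ 3 := by ring
    rw [h1]
    have h2 : ((G : ℝ) ^ 8) ^ 3 ≤ (Y : ℝ) ^ 3 := pow_le_pow_left₀ (by positivity) hG' 3
    linarith
  · have h1 : ((Y : ℝ) / e / 2) ^ 8 = ((Y : ℝ) / e) ^ 8 / 256 := by
      rw [div_pow _ (2 : ℝ)]; norm_num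
    rw [h1]
    linarith

lemma al_nonneg {E : Finset ℕ} {Y : ℕ} (hE : ∀ e ∈ E, (1 : ℝ) ≤ (Y : ℝ) / e) : 0 ≤ al E Y := by
  unfold al
  refine sum_nonneg fun e he => ?_
  have := Real.log_nonneg (hE e he)
  positivity

end S2PP

open S2PP in
set_option maxHeartbeats 1000000 in
theorem s2p (hU : PSU) (hC : PRC) (hP : PAI) : S2P := by
  obtain ⟨C0, hC0, hU⟩ := hU
  refine ⟨8 * C0 + 8, by omega, fun m b W K hm hb hW hpW hK => ?_⟩
  have hm1 : m + 1 ≤ (8 * C0 + 8) * (m + 1) := Nat.le_mul_of_pos_left _ (by omega)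
  have hCm : C0 * (m + 1) ≤ (8 * C0 + 8) * (m + 1) := Nat.mul_le_mul_right _ (by omega)
  have h2m : 2 * (m + 1) ≤ (8 * C0 + 8) * (m + 1) := Nat.mul_le_mul_right _ (by omega)
  have hCm1 : C0 * (m - 1 + 1) ≤ C0 * (m + 1) := Nat.mul_le_mul_left _ (by omega)
  have hb2 : 2 ≤ b := by omega
  have hK1 : 1 ≤ K := by
    have : 0 < W * m * 2 ^ (b + 4) := by positivity
    omega
  obtain ⟨B0, R0, hR0⟩ := hC m W hW (fun p hp h => hpW p hp (by omega))
  have hU' : ∀ h : ℕ, 1 ≤ h → _ := fun h hh => hU (m - 1) b (W * h) (B0 + 2) (by omega)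
    (Nat.mul_pos hW hh) (fun p hp h => Dvd.dvd.mul_right (hpW p hp (by omega)) _)
  choose! X0f hX0f using hU'
  set t : ℝ := (1 / 2 : ℝ) ^ b with htb
  have ht : 0 < t := by positivity
  have ht1 : t ≤ 1 := pow_le_one₀ (by norm_num) (by norm_num)
  have hK0 : (0 : ℝ) < K := by exact_mod_cast hK1
  have hW0 : (0 : ℝ) < W := by exact_mod_cast hW
  obtain ⟨xa, hxa⟩ := hP 1 le_rfl t ((W : ℝ) / (4 * K)) ht (by positivity)
  obtain ⟨xb, hxb⟩ := hP W hW t (1 / 2) ht (by norm_num)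
  -- the threshold
  set M : ℝ := |xa| + |xb| + 2 * (∑ h ∈ range m, (X0f h : ℝ)) + 4 * K / t + 8 / t + 8 with hM
  have hs0 : 0 ≤ ∑ h ∈ range m, (X0f h : ℝ) := sum_nonneg fun _ _ => Nat.cast_nonneg _
  have hM0 : 0 ≤ M := by positivity
  obtain ⟨Y1, hY1⟩ := exists_nat_ge (M ^ 8)
  obtain ⟨Y2, hY2⟩ := exists_nat_ge (Real.exp (6 * K * 8 ^ (B0 + 2) / t))
  refine ⟨Y1 + Y2 + R0 + 4, fun Y J hY hJ => ?_⟩
  set R := 2 ^ 2 ^ J with hR
  have hYM : M ^ 8 ≤ Y := hY1.trans (by exact_mod_cast (by omega : Y1 ≤ Y))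
  have hY4 : 4 ≤ Y := by omega
  have hYL : 6 * K * 8 ^ (B0 + 2) ≤ t * Real.log Y := by
    have h1 : Real.exp (6 * K * 8 ^ (B0 + 2) / t) ≤ Y :=
      hY2.trans (by exact_mod_cast (by omega : Y2 ≤ Y))
    have h2 := (Real.le_log_iff_exp_le (by positivity)).2 h1
    rw [div_le_iff₀ ht] at h2
    linarith
  have hR1 : 2 ≤ R := by
    rw [hR]
    calc 2 = 2 ^ 1 := by norm_num
      _ ≤ 2 ^ 2 ^ J := Nat.pow_le_pow_right (by norm_num) Nat.one_le_two_pow
  have hG : (R ^ (C0 * b)) ^ 8 ≤ Y := by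
    refine le_trans ?_ hJ
    rw [← pow_mul]
    refine Nat.pow_le_pow_right (by omega) ?_
    have : (8 * C0 + 8) * b = C0 * b * 8 + 8 * b := by ring
    omega
  have hRY : R ≤ Y := by
    refine le_trans ?_ hJ
    refine Nat.le_self_pow (by positivity) _
  set X := Y / K with hX
  -- `D`
  have hD : 16 * ((W : ℝ) * m * X) ≤ t * Y := by
    have h1 : X * K ≤ Y := Nat.div_mul_le_self Y K
    have h2 : X * (W * m * 2 ^ (b + 4)) ≤ Y := (Nat.mul_le_mul_left _ hK).trans h1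
    have h3 : (X : ℝ) * (W * m * 2 ^ (b + 4)) ≤ Y := by exact_mod_cast h2
    have h4 : 16 * ((W : ℝ) * m * X) = t * (X * (W * m * 2 ^ (b + 4))) := by
      rw [htb, pow_add]
      have : (1 / 2 : ℝ) ^ b * 2 ^ b = 1 := by rw [← mul_pow]; norm_num
      linear_combination (-(16 * ((W : ℝ) * m * X))) * this
    rw [h4]
    exact mul_le_mul_of_nonneg_left h3 ht.le
  have hDY : 2 * (W * m * X) ≤ Y := by
    have h1 : 16 * ((W : ℝ) * m * X) ≤ Y :=
      hD.trans (mul_le_of_le_one_left (Nat.cast_nonneg _) ht1)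
    have h2 : 16 * (W * m * X) ≤ Y := by exact_mod_cast h1
    omega
  have hPI : 1 / Real.log Y ^ B0 ≤ PI1 W R (m - 1) := by
    have h1 := pi1_lower (W := W) (R := R) (R' := max R R0) (le_max_left _ _) hm
      (fun p hp h => hpW p hp (by omega))
    refine le_trans ?_ h1
    refine le_trans ?_ (hR0 (max R R0) (le_max_right _ _))
    have h2 : (2 : ℝ) ≤ (max R R0 : ℕ) := by exact_mod_cast hR1.trans (le_max_left _ _)
    have h3 : ((max R R0 : ℕ) : ℝ) ≤ Y := by exact_mod_cast max_le hRY (by omega)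
    have h4 : 0 < Real.log (max R R0 : ℕ) := Real.log_pos (by linarith)
    exact one_div_le_one_div_of_le (by positivity)
      (pow_le_pow_left₀ h4.le (Real.log_le_log (by linarith) h3) _)
  have hLY : 0 < Real.log Y := Real.log_pos (by
    have : (4 : ℝ) ≤ Y := by exact_mod_cast hY4
    linarith)
  have hPI0 : 0 < PI1 W R (m - 1) := lt_of_lt_of_le (by positivity) hPI
  -- facts about the members of the sets
  have hxf : ∀ e : ℕ, 1 ≤ e → e ^ 8 ≤ Y → xa ≤ (Y : ℝ) / e ∧ xb ≤ (Y : ℝ) / e ∧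
      (∀ h < m, 2 * (X0f h : ℝ) ≤ (Y : ℝ) / e) ∧ 4 * K / t ≤ (Y : ℝ) / e ∧
      8 / t ≤ (Y : ℝ) / e ∧ 8 ≤ (Y : ℝ) / e ∧
      2 * (((2 : ℝ) ^ 2 ^ J) ^ (C0 * b)) ^ 3 ≤ (Y : ℝ) / e ∧
      (Y : ℝ) ≤ ((Y : ℝ) / e / 2) ^ 8 := by
    intro e he he8
    obtain ⟨h1, h2, h3⟩ := x_facts hM0 hYM hY4 he he8 hG
    have i1 := le_abs_self xa
    have i2 := le_abs_self xb
    have i3 := abs_nonneg xa
    have i4 := abs_nonneg xb
    have i5 : 0 < 4 * K / t := by positivity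
    have i6 : 0 < 8 / t := by positivity
    refine ⟨by linarith, by linarith, fun h hh => ?_, by linarith, by linarith, by linarith, ?_, h3⟩
    · have : (X0f h : ℝ) ≤ ∑ h ∈ range m, (X0f h : ℝ) :=
        single_le_sum (f := fun h => (X0f h : ℝ)) (fun _ _ => Nat.cast_nonneg _) (mem_range.2 hh)
      linarith
    · rw [hR] at h2
      push_cast at h2
      exact h2
  -- the main estimate
  have main : ∀ (E E' : Finset ℕ) (i i' : ℕ), okE W R Y E → okE W R Y E' →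
      i < m → i' < m → i' < i →
      ((ZS W m R X Y E E' i i').card : ℝ) ≤
      (1 + 16 * t) * (al E Y * al E' Y *
        ((X : ℝ) * Y * W / (Nat.totient W : ℝ) ^ 2) * PI1 W R (m - 1)) := by
    intro E E' i i' hE hE' hi hi' hii
    have hh : 1 ≤ i - i' := by omega
    have hph : ∀ p : ℕ, p.Prime → p ∣ i - i' → p ∣ W := fun p hp hph =>
      hpW p hp (by have := Nat.le_of_dvd (by omega) hph; omega)
    have hcop : ∀ n : ℕ, n.Coprime W → n.Coprime (W * (i - i')) := by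
      intro n hn
      refine Nat.Coprime.mul_right hn ?_
      by_contra hc
      obtain ⟨p, hp, hp1, hp2⟩ := Nat.Prime.not_coprime_iff_dvd.1 hc
      exact (Nat.Prime.not_coprime_iff_dvd.2 ⟨p, hp, hp1, hph p hp hp2⟩) hn
    have hWh : 1 ≤ W * (i - i') := Nat.mul_pos hW hh
    have hnW : ∀ n ∈ NS W R Y (2 * (W * m * X)) E, n.Coprime W := by
      intro n hn
      have h1 := (mem_NS.1 hn).2.1.1
      unfold Nat.Coprime
      rw [Nat.gcd_comm, Nat.gcd_rec, h1, ← Nat.gcd_rec, Nat.gcd_one_right]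
    have hex : ∀ n ∈ NS W R Y (2 * (W * m * X)) E, ∀ e ∈ E', ∃ a : ℕ,
        a.Coprime (W * (i - i')) ∧ ∀ q : ℕ, (e * q) % (W * (i - i')) = n % (W * (i - i')) →
          q % (W * (i - i')) = a % (W * (i - i')) := by
      intro n hn e he
      exact exists_inv _ e n hWh (hcop e (hE' e he).2.2.1) (hcop n (hnW n hn))
    choose! a ha1 ha2 using hex
    have hZ := ZS_card (W := W) (m := m) (R := R) (X := X) (Y := Y) (E := E) (E' := E')
      (i := i) (i' := i') hW hi hii (fun p hp h => hpW p hp (by omega)) hDY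
      (fun e he => ⟨(hE' e he).1, (hE' e he).2.2.2⟩) a ha2
    have hZ' : ((ZS W m R X Y E E' i i').card : ℝ) ≤
        ∑ n ∈ NS W R Y (2 * (W * m * X)) E, ∑ e ∈ E',
          ((QS W (i - i') R m i i' X n e (a n e)).card : ℝ) := by exact_mod_cast hZ
    have hQ : ∀ n ∈ NS W R Y (2 * (W * m * X)) E, ∑ e ∈ E',
          ((QS W (i - i') R m i i' X n e (a n e)).card : ℝ) ≤ (1 + t) ^ 4 *
          ((W : ℝ) / Nat.totient W * X * PI1 W R (m - 1)) * al E' Y := by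
      intro n hn
      unfold al
      rw [mul_sum]
      refine sum_le_sum fun e he => ?_
      obtain ⟨he1, he8, heW, hep⟩ := hE' e he
      obtain ⟨k1, k2, k3, k4, k5, k6, k7, k8⟩ := hxf e he1 he8
      have := QS_card (m := m) (b := b) (W := W) (K := K) (h := i - i') (J := J) (X := X)
        (Y := Y) (e' := e) (n := n) (i := i) (i' := i') (B0 := B0) (X0 := X0f (i - i'))
        (C0 := C0) (a := a n e) (t := t) (xa := xa) (E := E) htb ht ht1 hW hh (by omega) hK1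
        hi hi' (by omega) (fun p hp h => hpW p hp (by omega)) (hX0f (i - i') hh) hxa hX hn hD
        he1 hep (ha1 n hn e he) k1 (k3 _ (by omega)) k7 k4 k8 k6 hYL hPI
      refine this.trans (le_of_eq ?_)
      have he0 : (0 : ℝ) < e := by exact_mod_cast he1
      have : 0 < Real.log ((Y : ℝ) / e) := Real.log_pos (by linarith)
      rw [← hR]
      field_simp
    have hN := NS_card (W := W) (R := R) (Y := Y) (D := 2 * (W * m * X)) (E := E) (t := t)
      (xb := xb) hW ht ht1 hxb (fun e he => ⟨(hE e he).1, (hE e he).2.2.1,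
        (hxf e (hE e he).1 (hE e he).2.1).2.1, (hxf e (hE e he).1 (hE e he).2.1).2.2.2.2.1⟩)
      (by push_cast; linarith)
    have hal : 0 ≤ al E Y := al_nonneg fun e he => by
      have := (hxf e (hE e he).1 (hE e he).2.1).2.2.2.2.2.1
      linarith
    have hal' : 0 ≤ al E' Y := al_nonneg fun e he => by
      have := (hxf e (hE' e he).1 (hE' e he).2.1).2.2.2.2.2.1
      linarith
    have hφ : (0 : ℝ) < Nat.totient W := by exact_mod_cast Nat.totient_pos.2 (by omega)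
    have hsum := sum_le_sum hQ
    rw [sum_const, nsmul_eq_mul] at hsum
    have hc : 0 ≤ (1 + t) ^ 4 * ((W : ℝ) / Nat.totient W * X * PI1 W R (m - 1)) * al E' Y := by
      positivity
    have h1 := mul_le_mul_of_nonneg_right hN hc
    have h2 : (1 + t) ^ 2 * ((Y : ℝ) / Nat.totient W * al E Y) *
        ((1 + t) ^ 4 * ((W : ℝ) / Nat.totient W * X * PI1 W R (m - 1)) * al E' Y) =
        (1 + t) ^ 6 * (al E Y * al E' Y *
        ((X : ℝ) * Y * W / (Nat.totient W : ℝ) ^ 2) * PI1 W R (m - 1)) := by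
      field_simp
    have h3 : (1 + t) ^ 6 ≤ 1 + 16 * t := eps_bound hb2
    have h4 : 0 ≤ al E Y * al E' Y *
        ((X : ℝ) * Y * W / (Nat.totient W : ℝ) ^ 2) * PI1 W R (m - 1) := by positivity
    have h5 := mul_le_mul_of_nonneg_right h3 h4
    linarith
  intro E E' i i' hE hE' hi hi' hii
  rcases Nat.lt_or_gt_of_ne hii with h | h
  · have := main E' E i' i hE' hE hi' hi h
    have e1 : ZS W m R X Y E' E i' i = ZS W m R X Y E E' i i' := by
      ext z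
      rw [mem_ZS, mem_ZS]
      tauto
    rw [e1, mul_comm (al E' Y)] at this
    exact this
  · exact main E E' i i' hE hE' hi hi' h

end Pool.Agent.TH423.SH
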