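import Mathlib
import Pool.Agent.TH423.SH.Stm
import Pool.Agent.H343R2.EH.Psi
import Pool.Agent.H343R2.EH.Primes
import Pool.Agent.Helper256.KM.Mertens

/-!
# SH-SIG: the sum of the reciprocals of the primes `≡ 1 (mod M)` in `(t, t ^ 2]`
(job of helper423, written by helper75)
-/

set_option autoImplicit false

open Finset Filter Topology

namespace Pool.Agent.TH423.SH

namespace SigP

/-- the prime number theorem in the progression `1 (mod M)`, relative form -/
lemma pap (M : ℕ) (hM : 1 ≤ M) : ∃ x0 : ℕ, ∀ x : ℕ, x0 ≤ x →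
    |H343E.piAP x M (1 % M) - H343E.pi1 x / (Nat.totient M : ℝ)| ≤ x / Real.log x ^ 2 := by
  obtain ⟨B, x1, h⟩ := H343E.primes_of 2 (H343E.unsmoothed (2 + 2))
  have hlim : Tendsto (fun x : ℝ => Real.log x ^ B / x) atTop (𝓝 0) := by
    have := (Real.isLittleO_pow_log_id_atTop (n := B)).tendsto_div_nhds_zero
    simpa using this
  have hM2 : (0 : ℝ) < 1 / (M : ℝ) ^ 2 := by
    have : (0 : ℝ) < M := by exact_mod_cast hM
    positivity
  obtain ⟨x2, hx2⟩ := eventually_atTop.1 (tendsto_natCast_atTop_atTop.eventually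
    ((hlim.eventually (gt_mem_nhds hM2)).and (eventually_ge_atTop (Real.exp 1))))
  refine ⟨max x1 x2, fun x hx => ?_⟩
  obtain ⟨h1, h2⟩ := hx2 x ((le_max_right _ _).trans hx)
  have hx0 : (0 : ℝ) < x := lt_of_lt_of_le (Real.exp_pos 1) h2
  have hlog : 1 ≤ Real.log x := by
    rw [← Real.log_exp 1]
    exact Real.log_le_log (Real.exp_pos _) h2
  have hL0 : 0 < Real.log x := by linarith
  have hB : 0 < Real.log x ^ B := by positivity
  have hM1 : (1 : ℝ) ≤ M := by exact_mod_cast hM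
  have hq4 : (M : ℝ) ^ 2 * Real.log x ^ B ≤ x := by
    have h3 : Real.log x ^ B / x < 1 / (M : ℝ) ^ 2 := h1
    rw [div_lt_div_iff₀ hx0 (by positivity)] at h3
    linarith
  classical
  have hmain := h x ((le_max_left _ _).trans hx) 1 le_rfl M (by
      rw [le_div_iff₀ hB]
      refine le_trans ?_ hq4
      gcongr
      nlinarith) (by
      rw [one_mul, le_div_iff₀ hB]; exact hq4)
    (fun q' => if q' = M then {1 % M} else ∅) ⟨by
      intro q' a' ha'
      split_ifs at ha' with hqq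
      · rw [mem_singleton] at ha'
        rw [ha', hqq]
        refine ⟨Nat.mod_lt _ hM, ?_⟩
        rw [Nat.coprime_iff_gcd_eq_one, ← Nat.gcd_rec, Nat.gcd_one_right]
      · exact absurd ha' (notMem_empty _), by
      intro q'
      split_ifs
      · simp
      · simp⟩
  rw [one_mul] at hmain
  have hq' : M ∈ Icc 1 M := mem_Icc.2 ⟨hM, le_rfl⟩
  have h3 := single_le_sum (f := fun q' => ∑ a' ∈ (if q' = M then ({1 % M} : Finset ℕ) else ∅),
    |H343E.piAP x q' a' - H343E.pi1 x / (Nat.totient q' : ℝ)|)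
    (fun i _ => sum_nonneg fun _ _ => abs_nonneg _) hq'
  beta_reduce at h3
  rw [if_pos rfl, sum_singleton] at h3
  exact h3.trans hmain

/-- the weight -/
noncomputable def w (M n : ℕ) : ℝ :=
  (if n.Prime ∧ n % M = 1 % M then 1 else 0) - (if n.Prime then 1 else 0) / (Nat.totient M : ℝ)

/-- the error term -/
noncomputable def E (M n : ℕ) : ℝ := ∑ m ∈ Icc 1 n, w M m

lemma E_eq (M n : ℕ) : E M n =
    H343E.piAP n M (1 % M) - H343E.pi1 n / (Nat.totient M : ℝ) := by
  unfold E w H343E.piAP H343E.pi1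
  rw [sum_sub_distrib, ← sum_div, sum_boole, sum_boole]
  congr 3
  refine filter_congr fun m _ => ?_
  unfold Nat.ModEq
  rw [Nat.mod_mod]

lemma abel (M t : ℕ) : ∀ T : ℕ, t ≤ T →
    ∑ n ∈ Ioc t T, w M n / n = E M T / T - E M t / t +
      ∑ n ∈ Ico t T, E M n * (1 / (n : ℝ) - 1 / ((n : ℝ) + 1)) := by
  intro T hT
  induction T, hT using Nat.le_induction with
  | base => simp
  | succ T hT ih =>
    have hI : Ioc t (T + 1) = insert (T + 1) (Ioc t T) := by
      ext x
      simp only [mem_insert, mem_Ioc]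
      omega
    have hE : E M (T + 1) = E M T + w M (T + 1) := by
      unfold E
      rw [sum_Icc_succ_top (by omega)]
    have h0 : ((T : ℝ) + 1) ≠ 0 := by positivity
    rw [hI, sum_insert (by simp), ih, sum_Ico_succ_top hT, hE]
    push_cast
    ring

lemma harm (t : ℕ) (ht : 1 ≤ t) : ∀ T : ℕ, t ≤ T →
    ∑ n ∈ Ico t T, 1 / ((n : ℝ) + 1) ≤ Real.log T - Real.log t := by
  intro T hT
  induction T, hT using Nat.le_induction with
  | base => simp
  | succ T hT ih =>
    rw [sum_Ico_succ_top hT]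
    have hT0 : (0 : ℝ) < T := by exact_mod_cast (by omega : 0 < T)
    have h1 := Real.one_sub_inv_le_log_of_pos (x := ((T : ℝ) + 1) / T) (by positivity)
    rw [Real.log_div (by positivity) hT0.ne'] at h1
    have h2 : 1 - (((T : ℝ) + 1) / T)⁻¹ = 1 / ((T : ℝ) + 1) := by
      field_simp
      ring
    rw [h2] at h1
    push_cast
    linarith

/-- lower bound for all the primes -/
lemma all_low : ∃ t0 : ℕ, ∀ t : ℕ, t0 ≤ t →
    (1 : ℝ) / 4 ≤ ∑ p ∈ (Ioc t (t ^ 2)).filter Nat.Prime, (1 : ℝ) / p := by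
  obtain ⟨C, hC⟩ := Pool.Agent.Helper256.KM.mertens_log
  have hC0 : 0 ≤ C := (abs_nonneg _).trans (hC 1 le_rfl)
  refine ⟨⌈Real.exp (4 * C + 1)⌉₊, fun t ht => ?_⟩
  have h1 : Real.exp (4 * C + 1) ≤ t := (Nat.le_ceil _).trans (by exact_mod_cast ht)
  have ht0 : (0 : ℝ) < t := lt_of_lt_of_le (Real.exp_pos _) h1
  have ht1 : 1 ≤ t := by exact_mod_cast ht0
  have hlog : 4 * C + 1 ≤ Real.log t := by
    rw [← Real.log_exp (4 * C + 1)]
    exact Real.log_le_log (Real.exp_pos _) h1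
  have hl0 : 0 < Real.log t := by linarith
  have htt : t ≤ t ^ 2 := Nat.le_self_pow (by norm_num) t
  have h2 := abs_le.1 (hC t ht1)
  have h3 := abs_le.1 (hC (t ^ 2) (ht1.trans htt))
  have hsplit : ∑ p ∈ (Icc 1 (t ^ 2)).filter Nat.Prime, Real.log p / p =
      ∑ p ∈ (Icc 1 t).filter Nat.Prime, Real.log p / p +
        ∑ p ∈ (Ioc t (t ^ 2)).filter Nat.Prime, Real.log p / p := by
    rw [← sum_union]
    · congr 1
      ext p
      simp only [mem_filter, mem_union, mem_Icc, mem_Ioc]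
      constructor
      · rintro ⟨⟨h4, h5⟩, h6⟩
        rcases le_or_gt p t with h | h
        · exact Or.inl ⟨⟨h4, h⟩, h6⟩
        · exact Or.inr ⟨⟨h, h5⟩, h6⟩
      · rintro (⟨⟨h4, h5⟩, h6⟩ | ⟨⟨h4, h5⟩, h6⟩)
        · exact ⟨⟨h4, h5.trans htt⟩, h6⟩
        · exact ⟨⟨h6.pos, h5⟩, h6⟩
    · rw [disjoint_left]
      intro p h4 h5
      simp only [mem_filter, mem_Icc, mem_Ioc] at h4 h5
      omega
  have hlogT : Real.log ((t ^ 2 : ℕ) : ℝ) = 2 * Real.log t := by
    push_cast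
    rw [Real.log_pow]
    push_cast
    ring
  rw [hsplit, hlogT] at h3
  have h4 : ∑ p ∈ (Ioc t (t ^ 2)).filter Nat.Prime, Real.log p / p ≤
      2 * Real.log t * ∑ p ∈ (Ioc t (t ^ 2)).filter Nat.Prime, (1 : ℝ) / p := by
    rw [mul_sum]
    refine sum_le_sum fun p hp => ?_
    rw [mem_filter, mem_Ioc] at hp
    have hp0 : (0 : ℝ) < p := by exact_mod_cast hp.2.pos
    have h5 : Real.log p ≤ 2 * Real.log t := by
      rw [← hlogT]
      exact Real.log_le_log hp0 (by exact_mod_cast hp.1.2)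
    rw [mul_one_div]
    exact div_le_div_of_nonneg_right h5 hp0.le
  have h5 : Real.log t - 2 * C ≤
      2 * Real.log t * ∑ p ∈ (Ioc t (t ^ 2)).filter Nat.Prime, (1 : ℝ) / p := by
    linarith [h2.2, h3.1]
  by_contra hcon
  rw [not_le] at hcon
  have h6 : 2 * Real.log t * ∑ p ∈ (Ioc t (t ^ 2)).filter Nat.Prime, (1 : ℝ) / p <
      2 * Real.log t * (1 / 4) := mul_lt_mul_of_pos_left hcon (by linarith)
  linarith

end SigP

open SigP in
theorem sig : SIG := by
  intro M hM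
  have hφ : (0 : ℝ) < Nat.totient M := by exact_mod_cast Nat.totient_pos.2 hM
  obtain ⟨t1, h1⟩ := pap M hM
  obtain ⟨t2, h2⟩ := all_low
  refine ⟨1 / (8 * Nat.totient M), by positivity,
    max (max t1 t2) ⌈Real.exp (24 * Nat.totient M + 1)⌉₊, fun t ht => ?_⟩
  have ht1 : t1 ≤ t := ((le_max_left _ _).trans (le_max_left _ _)).trans ht
  have ht2 : t2 ≤ t := ((le_max_right _ _).trans (le_max_left _ _)).trans ht
  have ht3 : Real.exp (24 * Nat.totient M + 1) ≤ t :=
    (Nat.le_ceil _).trans (by exact_mod_cast (le_max_right _ _).trans ht)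
  have ht0 : (0 : ℝ) < t := lt_of_lt_of_le (Real.exp_pos _) ht3
  have htn : 1 ≤ t := by exact_mod_cast ht0
  have hlog : 24 * (Nat.totient M : ℝ) + 1 ≤ Real.log t := by
    rw [← Real.log_exp (24 * (Nat.totient M : ℝ) + 1)]
    exact Real.log_le_log (Real.exp_pos _) ht3
  have hl1 : 1 ≤ Real.log t := by linarith
  have hl0 : 0 < Real.log t := by linarith
  have htt : t ≤ t ^ 2 := Nat.le_self_pow (by norm_num) t
  have hlogT : Real.log ((t ^ 2 : ℕ) : ℝ) = 2 * Real.log t := by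
    push_cast
    rw [Real.log_pow]
    push_cast
    ring
  -- the error terms
  have hE : ∀ n : ℕ, t ≤ n → |E M n| ≤ n / Real.log t ^ 2 := by
    intro n hn
    rw [E_eq]
    refine (h1 n (ht1.trans hn)).trans ?_
    have hn0 : (0 : ℝ) < n := by exact_mod_cast (by omega : 0 < n)
    have h3 : Real.log t ≤ Real.log n := Real.log_le_log ht0 (by exact_mod_cast hn)
    gcongr
  have hEn : ∀ n : ℕ, t ≤ n → |E M n / n| ≤ 1 / Real.log t ^ 2 := by
    intro n hn
    have hn0 : (0 : ℝ) < n := by exact_mod_cast (by omega : 0 < n)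
    rw [abs_div, abs_of_pos hn0, div_le_iff₀ hn0]
    refine (hE n hn).trans (le_of_eq ?_)
    ring
  have hF : |∑ n ∈ Ioc t (t ^ 2), w M n / n| ≤ 3 / Real.log t := by
    rw [abel M t (t ^ 2) htt]
    have h3 : |∑ n ∈ Ico t (t ^ 2), E M n * (1 / (n : ℝ) - 1 / ((n : ℝ) + 1))| ≤
        1 / Real.log t := by
      refine (abs_sum_le_sum_abs _ _).trans ?_
      have h4 : ∀ n ∈ Ico t (t ^ 2), |E M n * (1 / (n : ℝ) - 1 / ((n : ℝ) + 1))| ≤
          1 / Real.log t ^ 2 * (1 / ((n : ℝ) + 1)) := by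
        intro n hn
        rw [mem_Ico] at hn
        have hn0 : (0 : ℝ) < n := by exact_mod_cast (by omega : 0 < n)
        have e : E M n * (1 / (n : ℝ) - 1 / ((n : ℝ) + 1)) = E M n / n * (1 / ((n : ℝ) + 1)) := by
          field_simp
          ring
        rw [e, abs_mul, abs_of_nonneg (by positivity : (0 : ℝ) ≤ 1 / ((n : ℝ) + 1))]
        exact mul_le_mul_of_nonneg_right (hEn n hn.1) (by positivity)
      refine (sum_le_sum h4).trans ?_
      rw [← mul_sum]
      have h5 := harm t htn (t ^ 2) htt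
      rw [hlogT] at h5
      calc 1 / Real.log t ^ 2 * ∑ n ∈ Ico t (t ^ 2), 1 / ((n : ℝ) + 1) ≤
          1 / Real.log t ^ 2 * Real.log t :=
            mul_le_mul_of_nonneg_left (by linarith) (by positivity)
        _ = 1 / Real.log t := by
            field_simp
    have h6 := hEn (t ^ 2) htt
    have h7 := hEn t le_rfl
    have h8 : 1 / Real.log t ^ 2 ≤ 1 / Real.log t := by
      apply one_div_le_one_div_of_le hl0
      nlinarith
    calc |E M (t ^ 2) / ((t ^ 2 : ℕ) : ℝ) - E M t / t +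
        ∑ n ∈ Ico t (t ^ 2), E M n * (1 / (n : ℝ) - 1 / ((n : ℝ) + 1))| ≤
        |E M (t ^ 2) / ((t ^ 2 : ℕ) : ℝ) - E M t / t| +
          |∑ n ∈ Ico t (t ^ 2), E M n * (1 / (n : ℝ) - 1 / ((n : ℝ) + 1))| := abs_add_le _ _
      _ ≤ (|E M (t ^ 2) / ((t ^ 2 : ℕ) : ℝ)| + |E M t / t|) +
          |∑ n ∈ Ico t (t ^ 2), E M n * (1 / (n : ℝ) - 1 / ((n : ℝ) + 1))| :=
          add_le_add_left (abs_sub _ _) _
      _ ≤ 3 / Real.log t := by
          have : 3 / Real.log t = 1 / Real.log t + 1 / Real.log t + 1 / Real.log t := by ring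
          linarith
  -- the decomposition
  have hdec : ∑ n ∈ Ioc t (t ^ 2), w M n / n =
      ∑ q ∈ (Ioc t (t ^ 2)).filter (fun q => q.Prime ∧ q % M = 1 % M), (1 : ℝ) / q -
        (∑ p ∈ (Ioc t (t ^ 2)).filter Nat.Prime, (1 : ℝ) / p) / Nat.totient M := by
    rw [sum_filter, sum_filter, sum_div, ← sum_sub_distrib]
    refine sum_congr rfl fun n _ => ?_
    unfold w
    split_ifs <;> ring
  have h9 := (abs_le.1 hF).1
  rw [hdec] at h9
  have h10 : 1 / 4 / (Nat.totient M : ℝ) ≤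
      (∑ p ∈ (Ioc t (t ^ 2)).filter Nat.Prime, (1 : ℝ) / p) / Nat.totient M :=
    div_le_div_of_nonneg_right (h2 t ht2) hφ.le
  have h11 : 3 / Real.log t ≤ 1 / (8 * (Nat.totient M : ℝ)) := by
    rw [div_le_div_iff₀ hl0 (by positivity)]
    linarith
  have h12 : 1 / 4 / (Nat.totient M : ℝ) =
      1 / (8 * (Nat.totient M : ℝ)) + 1 / (8 * (Nat.totient M : ℝ)) := by
    field_simp
    norm_num
  linarith

end Pool.Agent.TH423.SH
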