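import Pool.Agent.TH423.SH.ShapeQ
import Pool.Agent.TH423.SH.MS
import Pool.Agent.TH423.SH.FLLP
import Pool.Agent.TH423.SH.PSUP
import Pool.Agent.TH423.SH.SIGP
import Pool.Agent.TH423.SH.PAIP
import Pool.Agent.TH423.SH.FLIP
import Pool.Agent.TH423.SH.PRDP
import Pool.Agent.TH423.SH.GRPP
import Pool.Agent.TH423.SH.S0PP
import Pool.Agent.TH423.SH.S1PP
import Pool.Agent.TH423.SH.S2PP

/-! The shape lemma. -/

namespace Pool.Agent.TH423.SH

theorem msp_all : MSP :=
  msp (shp (s0p (fli fll) prc) (s1p (fli fll) prc pai) (s2p (psu fll) prc pai) (grp sig) pra prb prc)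

end Pool.Agent.TH423.SH
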