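import Pool.Agent.TH423.SH.StmB

/-!
The second moment argument, abstract form (helper423).
-/

set_option autoImplicit false

open Finset

namespace Pool.Agent.TH423.SH

theorem cheb {α ι : Type*} [DecidableEq α] [DecidableEq ι] (S : Finset α) (I : Finset ι)
    (A : ι → Finset α) (κ : ι → ℝ) (Z ε : ℝ) (hκ : ∀ i ∈ I, 0 < κ i) (hZ : 0 ≤ Z)
    (hε : 0 ≤ ε) (hA : ∀ i ∈ I, A i ⊆ S) (h0 : (S.card : ℝ) ≤ (1 + ε) * Z)
    (h1 : ∀ i ∈ I, (1 - ε) * (κ i * Z) ≤ ((A i).card : ℝ))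
    (h1' : ∀ i ∈ I, ((A i).card : ℝ) ≤ (1 + ε) * (κ i * Z))
    (h2 : ∀ i ∈ I, ∀ j ∈ I, i ≠ j → ((A i ∩ A j).card : ℝ) ≤ (1 + ε) * (κ i * κ j * Z)) :
    ((S.filter (fun z => ∀ i ∈ I, z ∉ A i)).card : ℝ) * (I.card : ℝ) ^ 2 ≤
      Z * (4 * ε * (I.card : ℝ) ^ 2 + (1 + ε) * ∑ i ∈ I, 1 / κ i) := by
  classical
  set n : ℝ := (I.card : ℝ) with hn
  have hn0 : 0 ≤ n := Nat.cast_nonneg _
  set f : α → ℝ := fun z => ∑ i ∈ I, (if z ∈ A i then 1 / κ i else 0) with hf
  have hsum1 : ∑ z ∈ S, f z = ∑ i ∈ I, ((A i).card : ℝ) * (1 / κ i) := by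
    simp only [hf]
    rw [Finset.sum_comm]
    refine Finset.sum_congr rfl fun i hi => ?_
    rw [← Finset.sum_filter, Finset.sum_const, nsmul_eq_mul]
    congr 2
    rw [Finset.filter_mem_eq_inter, Finset.inter_eq_right.mpr (hA i hi)]
  have hsum2 : ∑ z ∈ S, f z ^ 2 =
      ∑ i ∈ I, ∑ j ∈ I, ((A i ∩ A j).card : ℝ) * (1 / κ i * (1 / κ j)) := by
    have e1 : ∀ z ∈ S, f z ^ 2 = ∑ i ∈ I, ∑ j ∈ I,
        (if z ∈ A i ∩ A j then 1 / κ i * (1 / κ j) else 0) := by
      intro z _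
      simp only [hf]
      rw [sq, Finset.sum_mul_sum]
      refine Finset.sum_congr rfl fun i _ => Finset.sum_congr rfl fun j _ => ?_
      by_cases hi : z ∈ A i <;> by_cases hj : z ∈ A j <;> simp [hi, hj]
    rw [Finset.sum_congr rfl e1, Finset.sum_comm]
    refine Finset.sum_congr rfl fun i hi => ?_
    rw [Finset.sum_comm]
    refine Finset.sum_congr rfl fun j hj => ?_
    rw [← Finset.sum_filter, Finset.sum_const, nsmul_eq_mul]
    congr 2
    rw [Finset.filter_mem_eq_inter, Finset.inter_eq_right.mpr]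
    exact (Finset.inter_subset_left).trans (hA i hi)
  have hbd1 : n * ((1 - ε) * Z) ≤ ∑ z ∈ S, f z := by
    rw [hsum1]
    have : ∑ _i ∈ I, (1 - ε) * Z ≤ ∑ i ∈ I, ((A i).card : ℝ) * (1 / κ i) := by
      refine Finset.sum_le_sum fun i hi => ?_
      have hk := hκ i hi
      rw [mul_one_div, le_div_iff₀ hk]
      have := h1 i hi
      nlinarith
    rw [Finset.sum_const, nsmul_eq_mul] at this
    exact this
  have hbd2 : ∑ z ∈ S, f z ^ 2 ≤ n ^ 2 * ((1 + ε) * Z) + (1 + ε) * Z * ∑ i ∈ I, 1 / κ i := by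
    rw [hsum2]
    have e2 : ∀ i ∈ I, ∑ j ∈ I, ((A i ∩ A j).card : ℝ) * (1 / κ i * (1 / κ j)) ≤
        n * ((1 + ε) * Z) + (1 + ε) * Z * (1 / κ i) := by
      intro i hi
      have hki := hκ i hi
      have e3 : ∀ j ∈ I, ((A i ∩ A j).card : ℝ) * (1 / κ i * (1 / κ j)) ≤
          (1 + ε) * Z + (if i = j then (1 + ε) * Z * (1 / κ i) else 0) := by
        intro j hj
        have hkj := hκ j hj
        by_cases hij : i = j
        · subst hij
          rw [if_pos rfl, Finset.inter_self]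
          have h := h1' i hi
          have hpos : 0 ≤ (1 + ε) * Z := by positivity
          have : ((A i).card : ℝ) * (1 / κ i * (1 / κ i)) ≤ (1 + ε) * Z * (1 / κ i) := by
            calc ((A i).card : ℝ) * (1 / κ i * (1 / κ i))
                ≤ ((1 + ε) * (κ i * Z)) * (1 / κ i * (1 / κ i)) :=
                  mul_le_mul_of_nonneg_right h (by positivity)
              _ = (1 + ε) * Z * (1 / κ i) := by field_simp
          linarith
        · rw [if_neg hij, add_zero]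
          calc ((A i ∩ A j).card : ℝ) * (1 / κ i * (1 / κ j))
              ≤ ((1 + ε) * (κ i * κ j * Z)) * (1 / κ i * (1 / κ j)) :=
                mul_le_mul_of_nonneg_right (h2 i hi j hj hij) (by positivity)
            _ = (1 + ε) * Z := by field_simp
      refine (Finset.sum_le_sum e3).trans ?_
      rw [Finset.sum_add_distrib, Finset.sum_const, nsmul_eq_mul, Finset.sum_ite_eq, if_pos hi]
    refine (Finset.sum_le_sum e2).trans ?_
    rw [Finset.sum_add_distrib, Finset.sum_const, nsmul_eq_mul, ← Finset.mul_sum]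
    have : (I.card : ℝ) = n := rfl
    rw [this]
    exact le_of_eq (by ring)
  have hvar : ∑ z ∈ S, (f z - n) ^ 2 ≤
      Z * (4 * ε * n ^ 2 + (1 + ε) * ∑ i ∈ I, 1 / κ i) := by
    have e4 : ∑ z ∈ S, (f z - n) ^ 2 =
        ∑ z ∈ S, f z ^ 2 - 2 * n * ∑ z ∈ S, f z + n ^ 2 * (S.card : ℝ) := by
      have : ∀ z ∈ S, (f z - n) ^ 2 = f z ^ 2 - 2 * n * f z + n ^ 2 := fun z _ => by ring
      rw [Finset.sum_congr rfl this, Finset.sum_add_distrib, Finset.sum_sub_distrib,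
        ← Finset.mul_sum, Finset.sum_const, nsmul_eq_mul]
      ring
    rw [e4]
    have h5 : 2 * n * (n * ((1 - ε) * Z)) ≤ 2 * n * ∑ z ∈ S, f z :=
      mul_le_mul_of_nonneg_left hbd1 (by positivity)
    have h6 : n ^ 2 * (S.card : ℝ) ≤ n ^ 2 * ((1 + ε) * Z) :=
      mul_le_mul_of_nonneg_left h0 (by positivity)
    nlinarith [hbd2]
  refine le_trans ?_ hvar
  have hsub : ∑ z ∈ S.filter (fun z => ∀ i ∈ I, z ∉ A i), (f z - n) ^ 2 ≤
      ∑ z ∈ S, (f z - n) ^ 2 :=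
    Finset.sum_le_sum_of_subset_of_nonneg (Finset.filter_subset _ _) fun _ _ _ => sq_nonneg _
  refine le_trans (le_of_eq ?_) hsub
  have e5 : ∀ z ∈ S.filter (fun z => ∀ i ∈ I, z ∉ A i), (f z - n) ^ 2 = n ^ 2 := by
    intro z hz
    have hz' := (Finset.mem_filter.mp hz).2
    have : f z = 0 := by
      simp only [hf]
      refine Finset.sum_eq_zero fun i hi => ?_
      rw [if_neg (hz' i hi)]
    rw [this]; ring
  rw [Finset.sum_congr rfl e5, Finset.sum_const, nsmul_eq_mul]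

end Pool.Agent.TH423.SH
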