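import Pool.Agent.H343R2.EH.Psi
import Pool.Agent.H343R2.EH.Primes

/-!
Bombieri-Vinogradov with weights `κ ^ ω(q)` and arbitrary endpoints `u ≤ v` (helper713).
-/

set_option autoImplicit false

open Finset H343E Pool.Agent.H398R2.BV

namespace Pool.Agent.TH423.SH.PSUa

/-- reduced residues -/
def Rd (q : ℕ) : Finset ℕ := (range q).filter (fun a => a.Coprime q)

/-- the error in a residue class -/
noncomputable def FF (x q a : ℕ) : ℝ := |piAP x q a - pi1 x / (Nat.totient q : ℝ)|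

open Classical in
/-- the residue class with the largest error -/
noncomputable def LL (x q : ℕ) : Finset ℕ :=
  if h : ∃ a ∈ Rd q, ∀ b ∈ Rd q, FF x q b ≤ FF x q a then {h.choose} else ∅

/-- the largest error -/
noncomputable def ee (x q : ℕ) : ℝ := ∑ a ∈ LL x q, FF x q a

lemma LL_sub (x q : ℕ) : LL x q ⊆ Rd q := by
  unfold LL
  split_ifs with h
  · intro a ha
    rw [mem_singleton] at ha
    subst ha
    exact h.choose_spec.1
  · exact empty_subset _

lemma LL_card (x q : ℕ) : (LL x q).card ≤ 1 := by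
  unfold LL
  split_ifs with h
  · rw [card_singleton]
  · rw [card_empty]; omega

lemma LL_fam (x : ℕ) : Fam 1 (LL x) := by
  constructor
  · intro q a ha
    have := LL_sub x q ha
    unfold Rd at this
    rw [mem_filter, mem_range] at this
    exact this
  · intro q
    exact_mod_cast LL_card x q

lemma FF_nonneg (x q a : ℕ) : 0 ≤ FF x q a := abs_nonneg _

lemma ee_nonneg (x q : ℕ) : 0 ≤ ee x q := sum_nonneg fun _ _ => FF_nonneg _ _ _

lemma FF_le_ee (x q a : ℕ) (h1 : a < q) (h2 : a.Coprime q) : FF x q a ≤ ee x q := by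
  have ha : a ∈ Rd q := by
    unfold Rd; rw [mem_filter, mem_range]; exact ⟨h1, h2⟩
  have h : ∃ a ∈ Rd q, ∀ b ∈ Rd q, FF x q b ≤ FF x q a :=
    exists_max_image (Rd q) (FF x q) ⟨a, ha⟩
  unfold ee LL
  rw [dif_pos h, sum_singleton]
  exact h.choose_spec.2 a ha

lemma FF_le (x q a : ℕ) (hq : 1 ≤ q) : FF x q a ≤ x / (Nat.totient q : ℝ) + 1 := by
  have hφ : (0 : ℝ) < Nat.totient q := by exact_mod_cast Nat.totient_pos.mpr (by omega)
  have hφq : (Nat.totient q : ℝ) ≤ q := by exact_mod_cast Nat.totient_le q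
  have h1 : piAP x q a ≤ x / q + 1 := by
    refine le_trans ?_ (card_mod x q a hq)
    unfold piAP
    apply Nat.cast_le.mpr
    apply card_le_card
    intro p hp
    rw [mem_filter] at hp ⊢
    exact ⟨hp.1, hp.2.2⟩
  have h2 : pi1 x ≤ x := by
    unfold pi1
    exact_mod_cast (card_filter_le _ _).trans (by simp)
  have h3 : 0 ≤ piAP x q a := Nat.cast_nonneg _
  have h4 : 0 ≤ pi1 x := Nat.cast_nonneg _
  have h5 : pi1 x / (Nat.totient q : ℝ) ≤ x / (Nat.totient q : ℝ) :=
    div_le_div_of_nonneg_right h2 hφ.le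
  have h6 : (x : ℝ) / q ≤ x / (Nat.totient q : ℝ) :=
    div_le_div_of_nonneg_left (Nat.cast_nonneg x) hφ hφq
  have h7 : 0 ≤ pi1 x / (Nat.totient q : ℝ) := by positivity
  unfold FF
  rw [abs_le]
  constructor <;> linarith

lemma ee_le (x q : ℕ) (hq : 1 ≤ q) : ee x q ≤ x / (Nat.totient q : ℝ) + 1 := by
  have h0 : (0:ℝ) ≤ x / (Nat.totient q : ℝ) + 1 := by positivity
  have h1 : ee x q ≤ ∑ a ∈ LL x q, (x / (Nat.totient q : ℝ) + 1) :=
    sum_le_sum fun a _ => FF_le x q a hq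
  rw [sum_const, nsmul_eq_mul] at h1
  have h2 : ((LL x q).card : ℝ) ≤ 1 := by exact_mod_cast LL_card x q
  nlinarith

/-- `m (log v)^k ≤ v ^ c` for large `v` -/
lemma ev (m : ℝ) (k : ℕ) (c : ℝ) (hc : 0 < c) : ∃ X : ℕ, ∀ v : ℕ, X ≤ v →
    m * Real.log v ^ k ≤ (v : ℝ) ^ c := by
  have h := (isLittleO_log_rpow_rpow_atTop (k : ℝ) hc).bound
      (show (0:ℝ) < 1 / (|m| + 1) by positivity)
  have h2 := (tendsto_natCast_atTop_atTop (R := ℝ)).eventually
    (h.and (Filter.eventually_ge_atTop (1:ℝ)))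
  obtain ⟨X, hX⟩ := Filter.eventually_atTop.mp h2
  refine ⟨X, fun v hv => ?_⟩
  obtain ⟨h3, h4⟩ := hX v hv
  rw [Real.norm_eq_abs, Real.norm_eq_abs, Real.rpow_natCast,
      abs_of_nonneg (pow_nonneg (Real.log_nonneg h4) _),
      abs_of_nonneg (Real.rpow_nonneg (by linarith) _)] at h3
  rw [div_mul_eq_mul_div, one_mul, le_div_iff₀ (by positivity)] at h3
  have h5 : 0 ≤ Real.log v ^ k := pow_nonneg (Real.log_nonneg h4) _
  have h6 : m ≤ |m| + 1 := by linarith [le_abs_self m]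
  calc m * Real.log v ^ k ≤ (|m| + 1) * Real.log v ^ k := mul_le_mul_of_nonneg_right h6 h5
    _ ≤ _ := by linarith

end Pool.Agent.TH423.SH.PSUa
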