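import Pool.Agent.TH423.SH.Cheb

/-!
The shape lemma from the moment computations (helper423).
-/

set_option autoImplicit false

open Finset

namespace Pool.Agent.TH423.SH

open Classical in
/-- pairs with a common prime factor are rare -/
theorem noncop (W m R X Y : ℕ) (hR : 1 ≤ R) :
    (((SZ W m R X Y).filter (fun z => ¬ z.1.Coprime z.2)).card : ℝ) ≤ 4 * X * Y / R := by
  have hsub : (SZ W m R X Y).filter (fun z => ¬ z.1.Coprime z.2) ⊆
      (Ioc R (2 * X)).biUnion (fun p => ((Ioc 0 (2 * X)).filter (p ∣ ·)) ×ˢ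
        ((Ioc 0 (2 * Y)).filter (p ∣ ·))) := by
    intro z hz
    rw [Finset.mem_filter] at hz
    obtain ⟨hzS, hzc⟩ := hz
    unfold SZ at hzS
    rw [Finset.mem_filter, Finset.mem_product, Finset.mem_Ioc, Finset.mem_Ioc] at hzS
    obtain ⟨⟨⟨hx1, hx2⟩, hy1, hy2⟩, hmod, hp⟩ := hzS
    obtain ⟨p, hpp, hpx, hpy⟩ := Nat.Prime.not_coprime_iff_dvd.mp hzc
    have hpW : ¬ p ∣ W := by
      intro h
      have h1 : z.2 ≡ 1 [MOD W] := hmod
      have h2 : z.2 ≡ 1 [MOD p] := h1.of_dvd h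
      have h3 : 1 ≡ 0 [MOD p] := h2.symm.trans ((Nat.modEq_zero_iff_dvd).mpr hpy)
      have := (Nat.modEq_zero_iff_dvd).mp h3
      exact hpp.one_lt.ne' (Nat.dvd_one.mp this)
    have hpR : R < p := by
      by_contra hcon
      push Not at hcon
      have : p ∈ PS W R := by
        unfold PS
        rw [Finset.mem_filter, Finset.mem_Icc]
        exact ⟨⟨hpp.one_lt.le, hcon⟩, hpp, hpW⟩
      exact (hp p this).1 hpx
    rw [Finset.mem_biUnion]
    refine ⟨p, Finset.mem_Ioc.mpr ⟨hpR, (Nat.le_of_dvd (by omega) hpx).trans hx2⟩, ?_⟩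
    rw [Finset.mem_product, Finset.mem_filter, Finset.mem_filter, Finset.mem_Ioc, Finset.mem_Ioc]
    exact ⟨⟨⟨by omega, hx2⟩, hpx⟩, ⟨by omega, hy2⟩, hpy⟩
  have h1 : (((SZ W m R X Y).filter (fun z => ¬ z.1.Coprime z.2)).card : ℝ) ≤
      ∑ p ∈ Ioc R (2 * X), (4 * X * Y : ℝ) * (1 / (p : ℝ) ^ 2) := by
    have h2 := (Finset.card_le_card hsub).trans Finset.card_biUnion_le
    have h3 : (((SZ W m R X Y).filter (fun z => ¬ z.1.Coprime z.2)).card : ℝ) ≤
      ∑ p ∈ Ioc R (2 * X), ((((Ioc 0 (2 * X)).filter (p ∣ ·)) ×ˢ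
        ((Ioc 0 (2 * Y)).filter (p ∣ ·))).card : ℝ) := by exact_mod_cast h2
    refine h3.trans (Finset.sum_le_sum fun p hp => ?_)
    have hp0 : 0 < p := by have := (Finset.mem_Ioc.mp hp).1; omega
    rw [Finset.card_product, Nat.Ioc_filter_dvd_card_eq_div, Nat.Ioc_filter_dvd_card_eq_div]
    push_cast
    have h4 : (((2 * X) / p : ℕ) : ℝ) ≤ (2 * X : ℝ) / p := by
      have := @Nat.cast_div_le ℝ _ _ _ (2 * X) p
      push_cast at this; exact this
    have h5 : (((2 * Y) / p : ℕ) : ℝ) ≤ (2 * Y : ℝ) / p := by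
      have := @Nat.cast_div_le ℝ _ _ _ (2 * Y) p
      push_cast at this; exact this
    have hpR : (0 : ℝ) < p := by exact_mod_cast hp0
    calc (((2 * X) / p : ℕ) : ℝ) * (((2 * Y) / p : ℕ) : ℝ)
        ≤ ((2 * X : ℝ) / p) * ((2 * Y : ℝ) / p) := by gcongr
      _ = (4 * X * Y : ℝ) * (1 / (p : ℝ) ^ 2) := by field_simp; ring
  refine h1.trans ?_
  rw [← Finset.mul_sum]
  have h6 : ∑ p ∈ Ioc R (2 * X), (1 / (p : ℝ) ^ 2) ≤ 1 / (R : ℝ) := by
    have h7 : ∀ N : ℕ, R ≤ N → ∑ p ∈ Ioc R N, (1 / (p : ℝ) ^ 2) ≤ 1 / (R : ℝ) - 1 / (N : ℝ) := by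
      intro N hN
      induction N, hN using Nat.le_induction with
      | base => simp
      | succ N hN ih =>
        rw [← Finset.insert_Ioc_right_eq_Ioc_add_one (by omega : R ≤ N), Finset.sum_insert (by simp)]
        have hN0 : (0 : ℝ) < N := by exact_mod_cast (by omega : 0 < N)
        have : (1 : ℝ) / ((N + 1 : ℕ) : ℝ) ^ 2 ≤ 1 / N - 1 / ((N + 1 : ℕ) : ℝ) := by
          push_cast
          rw [div_sub_div _ _ hN0.ne' (by positivity), div_le_div_iff₀ (by positivity) (by positivity)]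
          nlinarith
        linarith
    by_cases hX : R ≤ 2 * X
    · have := h7 _ hX
      have h8 : (0 : ℝ) ≤ 1 / ((2 * X : ℕ) : ℝ) := by positivity
      linarith
    · rw [Finset.Ioc_eq_empty (by omega), Finset.sum_empty]; positivity
  have hpos : (0 : ℝ) ≤ 4 * X * Y := by positivity
  calc (4 * X * Y : ℝ) * ∑ p ∈ Ioc R (2 * X), (1 / (p : ℝ) ^ 2)
      ≤ (4 * X * Y : ℝ) * (1 / R) := mul_le_mul_of_nonneg_left h6 hpos
    _ = 4 * X * Y / R := by ring

theorem pick {k m : ℕ} (hk : 1 ≤ k) (hm : 1 ≤ m) (S : Finset (ℕ × ℕ))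
    (A : Fin m → Fin k → Finset (ℕ × ℕ)) (κ : Fin k → ℝ) (Z ε κ0 : ℝ) (bad : Finset (ℕ × ℕ))
    (hA : ∀ i c, A i c ⊆ S) (hZ : 0 < Z) (hε : 0 ≤ ε) (hε' : ε * (64 * k) ≤ 1)
    (hκ0 : 32 * k ≤ κ0 * m) (hκ : ∀ c, κ0 ≤ κ c)
    (h0 : (S.card : ℝ) ≤ (1 + ε) * Z) (h0' : (1 - ε) * Z ≤ (S.card : ℝ))
    (h1 : ∀ i c, (1 - ε) * (κ c * Z) ≤ ((A i c).card : ℝ))
    (h1' : ∀ i c, ((A i c).card : ℝ) ≤ (1 + ε) * (κ c * Z))
    (h2 : ∀ i c i' c', i ≠ i' → ((A i c ∩ A i' c').card : ℝ) ≤ (1 + ε) * (κ c * κ c' * Z))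
    (hbad : (bad.card : ℝ) ≤ Z / 4)
    (I : Fin k → Finset (Fin m)) (c : Fin k → Fin m → Fin k) (hI : ∀ t, m ≤ 2 * (I t).card) :
    ∃ z ∈ S, z ∉ bad ∧ ∀ t, ∃ i ∈ I t, z ∈ A i (c t i) := by
  classical
  by_contra hcon
  push Not at hcon
  have hkR : (1 : ℝ) ≤ k := by exact_mod_cast hk
  have hmR : (1 : ℝ) ≤ m := by exact_mod_cast hm
  have hκ0pos : 0 < κ0 := by
    by_contra h
    push Not at h
    nlinarith
  have hε1 : ε ≤ 1 / 64 := by
    nlinarith
  have hB : ∀ t : Fin k, (((S.filter (fun z => ∀ i ∈ I t, z ∉ A i (c t i))).card : ℝ)) ≤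
      Z * (3 / (16 * k)) := by
    intro t
    have hIc := hI t
    have hIpos : (0 : ℝ) < ((I t).card : ℝ) := by
      exact_mod_cast (by omega : 0 < (I t).card)
    have hIm : (m : ℝ) ≤ 2 * ((I t).card : ℝ) := by exact_mod_cast hIc
    have h := cheb S (I t) (fun i => A i (c t i)) (fun i => κ (c t i)) Z ε
      (fun i _ => lt_of_lt_of_le hκ0pos (hκ _)) hZ.le hε (fun i _ => hA _ _) h0
      (fun i _ => h1 _ _) (fun i _ => h1' _ _) (fun i _ j _ hij => h2 _ _ _ _ hij)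
    have hs : ∑ i ∈ I t, 1 / κ (c t i) ≤ ((I t).card : ℝ) * (1 / κ0) := by
      have : ∑ i ∈ I t, 1 / κ (c t i) ≤ ∑ _i ∈ I t, 1 / κ0 :=
        Finset.sum_le_sum fun i _ => one_div_le_one_div_of_le hκ0pos (hκ _)
      rwa [Finset.sum_const, nsmul_eq_mul] at this
    set n : ℝ := ((I t).card : ℝ) with hn
    have h3 : (((S.filter (fun z => ∀ i ∈ I t, z ∉ A i (c t i))).card : ℝ)) * n ^ 2 ≤
        Z * (4 * ε * n ^ 2 + (1 + ε) * (n * (1 / κ0))) := by
      have h1e : 0 ≤ 1 + ε := by linarith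
      have h30 : Z * (4 * ε * n ^ 2 + (1 + ε) * ∑ i ∈ I t, 1 / κ (c t i)) ≤
          Z * (4 * ε * n ^ 2 + (1 + ε) * (n * (1 / κ0))) := by gcongr
      have h31 := h.trans h30
      refine le_trans (le_of_eq ?_) h31
      congr!
    have h4 : (((S.filter (fun z => ∀ i ∈ I t, z ∉ A i (c t i))).card : ℝ)) ≤
        Z * (4 * ε + (1 + ε) * (1 / (n * κ0))) := by
      have h5 : Z * (4 * ε * n ^ 2 + (1 + ε) * (n * (1 / κ0))) =
          Z * (4 * ε + (1 + ε) * (1 / (n * κ0))) * n ^ 2 := by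
        field_simp
      rw [h5] at h3
      exact le_of_mul_le_mul_right h3 (by positivity)
    refine h4.trans ?_
    refine mul_le_mul_of_nonneg_left ?_ hZ.le
    have h6 : 1 / (n * κ0) ≤ 1 / (16 * k) := by
      apply one_div_le_one_div_of_le (by positivity)
      nlinarith
    have h7 : 4 * ε ≤ 1 / (16 * k) := by
      rw [le_div_iff₀ (by positivity)]
      nlinarith
    have h8 : (1 + ε) * (1 / (n * κ0)) ≤ 2 * (1 / (16 * k)) := by
      have : 0 ≤ 1 / (n * κ0) := by positivity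
      have h9 : (1 + ε) ≤ 2 := by linarith
      calc (1 + ε) * (1 / (n * κ0)) ≤ 2 * (1 / (n * κ0)) := by gcongr
        _ ≤ 2 * (1 / (16 * k)) := by gcongr
    have h10 : (3 : ℝ) / (16 * k) = 1 / (16 * k) + 2 * (1 / (16 * k)) := by ring
    rw [h10]
    linarith
  have hcov : S ⊆ bad ∪ (Finset.univ : Finset (Fin k)).biUnion
      (fun t => S.filter (fun z => ∀ i ∈ I t, z ∉ A i (c t i))) := by
    intro z hz
    by_cases hb : z ∈ bad
    · exact Finset.mem_union_left _ hb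
    · obtain ⟨t, ht⟩ := hcon z hz hb
      refine Finset.mem_union_right _ (Finset.mem_biUnion.mpr ⟨t, Finset.mem_univ _, ?_⟩)
      exact Finset.mem_filter.mpr ⟨hz, ht⟩
  have hcard : (S.card : ℝ) ≤ Z / 4 + ∑ _t : Fin k, Z * (3 / (16 * k)) := by
    have h3 := (Finset.card_le_card hcov).trans (Finset.card_union_le _ _)
    have h4 := h3.trans (Nat.add_le_add_left Finset.card_biUnion_le _)
    have h5 : (S.card : ℝ) ≤ (bad.card : ℝ) + ∑ t : Fin k,
        (((S.filter (fun z => ∀ i ∈ I t, z ∉ A i (c t i))).card : ℝ)) := by exact_mod_cast h4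
    refine h5.trans (add_le_add hbad (Finset.sum_le_sum fun t _ => hB t))
  rw [Finset.sum_const, Finset.card_univ, Fintype.card_fin, nsmul_eq_mul] at hcard
  have h11 : (k : ℝ) * (Z * (3 / (16 * k))) = Z * (3 / 16) := by
    field_simp
  rw [h11] at hcard
  nlinarith

end Pool.Agent.TH423.SH
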