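import Pool.Agent.TH423.SH.Shape

/-!
The shape lemma from the moment computations: assembly (helper423).
-/

set_option autoImplicit false

open Finset

namespace Pool.Agent.TH423.SH

theorem log_pow_le (n c : ℕ) : ∃ R₁ : ℕ, ∀ R : ℕ, R₁ ≤ R →
    (c : ℝ) * Real.log R ^ n ≤ R := by
  have h := (Real.isLittleO_pow_log_id_atTop (n := n)).def (c := 1 / ((c : ℝ) + 1)) (by positivity)
  have h2 := (tendsto_natCast_atTop_atTop (R := ℝ)).eventually h
  obtain ⟨R₁, hR₁⟩ := Filter.eventually_atTop.mp h2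
  refine ⟨R₁ + 1, fun R hR => ?_⟩
  have h3 := hR₁ R (by omega)
  simp only [id, Real.norm_eq_abs] at h3
  have hR1 : (1 : ℝ) ≤ R := by exact_mod_cast (by omega : 1 ≤ R)
  have hl : 0 ≤ Real.log (R : ℝ) := Real.log_nonneg hR1
  rw [abs_of_nonneg (pow_nonneg hl n), abs_of_nonneg (by linarith)] at h3
  have hc : (0 : ℝ) ≤ c := Nat.cast_nonneg _
  calc (c : ℝ) * Real.log R ^ n ≤ c * (1 / ((c : ℝ) + 1) * R) := by gcongr
    _ = (c / ((c : ℝ) + 1)) * R := by ring
    _ ≤ 1 * R := by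
        gcongr
        rw [div_le_one (by positivity)]; linarith
    _ = R := one_mul _

theorem exJ (E J₁ : ℕ) (hE : 1 ≤ E) (Y : ℕ) (hY : (2 ^ 2 ^ J₁) ^ E ≤ Y) :
    ∃ J, J₁ ≤ J ∧ (2 ^ 2 ^ J) ^ E ≤ Y ∧ Y < (2 ^ 2 ^ J) ^ (2 * E) := by
  classical
  have hex : ∃ J, Y < (2 ^ 2 ^ (J + 1)) ^ E := by
    refine ⟨Y, ?_⟩
    calc Y < 2 ^ Y := Nat.lt_two_pow_self
      _ ≤ 2 ^ 2 ^ (Y + 1) := by
          apply Nat.pow_le_pow_right (by norm_num)
          exact (Nat.lt_two_pow_self).le.trans (Nat.pow_le_pow_right (by norm_num) (by omega))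
      _ = (2 ^ 2 ^ (Y + 1)) ^ 1 := (pow_one _).symm
      _ ≤ (2 ^ 2 ^ (Y + 1)) ^ E := Nat.pow_le_pow_right (by positivity) hE
  refine ⟨max J₁ (Nat.find hex), le_max_left _ _, ?_, ?_⟩
  · rcases le_total (Nat.find hex) J₁ with h | h
    · rw [max_eq_left h]; exact hY
    · rw [max_eq_right h]
      rcases Nat.eq_zero_or_pos (Nat.find hex) with h0 | h0
      · have : J₁ = Nat.find hex := by omega
        rw [← this]; exact hY
      · have := Nat.find_min hex (m := Nat.find hex - 1) (by omega)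
        rw [Nat.sub_add_cancel h0] at this
        exact not_lt.mp this
  · have h3 := Nat.find_spec hex
    refine h3.trans_le ?_
    rw [pow_mul (2 ^ 2 ^ max J₁ (Nat.find hex)) 2 E, ← pow_mul 2 (2 ^ max J₁ (Nat.find hex)) 2,
      ← pow_succ 2 (max J₁ (Nat.find hex))]
    apply Nat.pow_le_pow_left
    apply Nat.pow_le_pow_right (by norm_num)
    apply Nat.pow_le_pow_right (by norm_num)
    have := le_max_right J₁ (Nat.find hex)
    omega

theorem kappa_low (hB : PRB) (W R Y E' : ℕ) (B' : ℝ) (E : Finset ℕ) (hW : 1 ≤ W) (hR : 2 ≤ R)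
    (hE' : 1 ≤ E') (hY : Y < R ^ (2 * E')) (hY2 : 2 ≤ Y) (hE : ∀ e ∈ E, 1 ≤ e ∧ e ^ 8 ≤ Y)
    (hP : 0 < PIj W R 1) (hB0 : 0 ≤ B') (hs : B' ≤ ∑ e ∈ E, (1 : ℝ) / e) :
    B' / (2 * E') ≤ al E Y * ((W : ℝ) / (Nat.totient W * PIj W R 1)) := by
  have hYR : (2 : ℝ) ≤ Y := by exact_mod_cast hY2
  have hlY : 0 < Real.log (Y : ℝ) := Real.log_pos (by linarith)
  have hRR : (2 : ℝ) ≤ R := by exact_mod_cast hR
  have hlR : 0 < Real.log (R : ℝ) := Real.log_pos (by linarith)
  have hφ : (0 : ℝ) < Nat.totient W := by exact_mod_cast Nat.totient_pos.mpr hW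
  have h1 : B' / Real.log Y ≤ al E Y := by
    unfold al
    have h2 : ∀ e ∈ E, (1 / Real.log Y) * ((1 : ℝ) / e) ≤
        1 / ((e : ℝ) * Real.log ((Y : ℝ) / e)) := by
      intro e he
      obtain ⟨he1, he8⟩ := hE e he
      have heR : (1 : ℝ) ≤ e := by exact_mod_cast he1
      have heY : e < Y := by
        rcases Nat.eq_or_lt_of_le he1 with h | h
        · omega
        · calc e = e ^ 1 := (pow_one _).symm
            _ < e ^ 8 := Nat.pow_lt_pow_right (by omega) (by norm_num)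
            _ ≤ Y := he8
      have heYR : (e : ℝ) < Y := by exact_mod_cast heY
      have hl1 : 0 < Real.log ((Y : ℝ) / e) := by
        apply Real.log_pos
        rw [lt_div_iff₀ (by linarith)]; linarith
      have hl2 : Real.log ((Y : ℝ) / e) ≤ Real.log Y := by
        apply Real.log_le_log (by positivity)
        exact div_le_self (by linarith) heR
      rw [one_div_mul_one_div]
      apply one_div_le_one_div_of_le (by positivity)
      rw [mul_comm]
      gcongr
    calc B' / Real.log Y = (1 / Real.log Y) * B' := by ring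
      _ ≤ (1 / Real.log Y) * ∑ e ∈ E, (1 : ℝ) / e := by gcongr
      _ = ∑ e ∈ E, (1 / Real.log Y) * ((1 : ℝ) / e) := Finset.mul_sum _ _ _
      _ ≤ _ := Finset.sum_le_sum h2
  have h3 : Real.log R ≤ (W : ℝ) / (Nat.totient W * PIj W R 1) := by
    rw [le_div_iff₀ (by positivity)]
    have := hB W R hW hR
    nlinarith
  have h4 : Real.log Y ≤ 2 * E' * Real.log R := by
    have : Real.log (Y : ℝ) ≤ Real.log ((R : ℝ) ^ (2 * E')) := by
      apply Real.log_le_log (by linarith)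
      exact_mod_cast hY.le
    rwa [Real.log_pow, Nat.cast_mul, Nat.cast_ofNat] at this
  have hE'R : (1 : ℝ) ≤ E' := by exact_mod_cast hE'
  calc B' / (2 * E') ≤ B' / Real.log Y * Real.log R := by
        rw [div_mul_eq_mul_div, div_le_div_iff₀ (by positivity) hlY]
        nlinarith [mul_le_mul_of_nonneg_left h4 hB0]
    _ ≤ al E Y * ((W : ℝ) / (Nat.totient W * PIj W R 1)) := by
        have : 0 ≤ B' / Real.log Y := by positivity
        gcongr
        exact this.trans h1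

open Classical in
theorem core (hA : PRA) (hB : PRB) {k m : ℕ} (hk : 1 ≤ k) (hm : 1 ≤ m) (W R X Y E' B : ℕ)
    (ε B' : ℝ) (E : Fin k → Finset ℕ) (hW : 1 ≤ W) (hWm : ∀ p : ℕ, p.Prime → p ≤ m → p ∣ W)
    (hR : 2 ≤ R) (hX : 1 ≤ X) (hE' : 1 ≤ E') (hY : Y < R ^ (2 * E')) (hY2 : 2 ≤ Y)
    (hEok : ∀ c, okE W R Y (E c)) (hε0 : 0 ≤ ε) (hε : ε * (64 * k) ≤ 1)
    (hPm : 1 / Real.log R ^ B ≤ PIj W R m) (hlog : ((16 * W : ℕ) : ℝ) * Real.log R ^ (2 * B) ≤ R)
    (hB0 : 0 ≤ B') (hB' : 32 * k ≤ B' / (2 * E') * m)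
    (hs : ∀ c, B' ≤ ∑ e ∈ E c, (1 : ℝ) / e)
    (h0 : |((SZ W m R X Y).card : ℝ) - ((X : ℝ) * Y / W) * (PIj W R 1 * PIj W R m)| ≤
      ε * (((X : ℝ) * Y / W) * (PIj W R 1 * PIj W R m)))
    (h1 : ∀ (c : Fin k) (i : ℕ), i < m →
      |(((SZ W m R X Y).filter (fun z => inA W (E c) (z.2 - W * (i + 1) * z.1))).card : ℝ) -
        al (E c) Y * ((X : ℝ) * Y / Nat.totient W) * PIj W R m| ≤
        ε * (al (E c) Y * ((X : ℝ) * Y / Nat.totient W) * PIj W R m))
    (h2 : ∀ (c c' : Fin k) (i i' : ℕ), i < m → i' < m → i ≠ i' →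
      (((SZ W m R X Y).filter (fun z => inA W (E c) (z.2 - W * (i + 1) * z.1) ∧
          inA W (E c') (z.2 - W * (i' + 1) * z.1))).card : ℝ) ≤
      (1 + ε) * (al (E c) Y * al (E c') Y *
        ((X : ℝ) * Y * W / (Nat.totient W : ℝ) ^ 2) * PI1 W R (m - 1)))
    (I : Fin k → Finset (Fin m)) (c : Fin k → Fin m → Fin k) (hI : ∀ t, m ≤ 2 * (I t).card) :
    ∃ z ∈ SZ W m R X Y, z.1.Coprime z.2 ∧
      ∀ t, ∃ i ∈ I t, inA W (E (c t i)) (z.2 - W * ((i : ℕ) + 1) * z.1) := by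
  have hRR : (2 : ℝ) ≤ R := by exact_mod_cast hR
  have hlR : 0 < Real.log (R : ℝ) := Real.log_pos (by linarith)
  have hφ : (0 : ℝ) < Nat.totient W := by exact_mod_cast Nat.totient_pos.mpr hW
  have hWR : (0 : ℝ) < W := by exact_mod_cast hW
  have hXR : (0 : ℝ) < X := by exact_mod_cast hX
  have hYR : (0 : ℝ) < Y := by exact_mod_cast (by omega : 0 < Y)
  have hPm0 : 0 < PIj W R m := lt_of_lt_of_le (by positivity) hPm
  have hP1m : PIj W R m ≤ PIj W R 1 := by
    unfold PIj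
    apply Finset.prod_le_prod
    · intro p hp
      unfold PS at hp
      rw [Finset.mem_filter, Finset.mem_Icc] at hp
      have hpm : m < p := by
        by_contra hcon
        exact hp.2.2 (hWm p hp.2.1 (by omega))
      have hp0 : (0 : ℝ) < p := by exact_mod_cast hp.2.1.pos
      rw [sub_nonneg, div_le_one hp0]
      exact_mod_cast hpm.le
    · intro p hp
      unfold PS at hp
      rw [Finset.mem_filter, Finset.mem_Icc] at hp
      have hp0 : (0 : ℝ) < p := by exact_mod_cast hp.2.1.pos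
      have : ((1 : ℕ) : ℝ) ≤ m := by exact_mod_cast hm
      gcongr
  have hP1 : 0 < PIj W R 1 := lt_of_lt_of_le hPm0 hP1m
  set P1 := PIj W R 1 with hP1d
  set Pm := PIj W R m with hPmd
  set Z : ℝ := ((X : ℝ) * Y / W) * (P1 * Pm) with hZ
  have hZ0 : 0 < Z := by positivity
  set κ : Fin k → ℝ := fun c => al (E c) Y * ((W : ℝ) / (Nat.totient W * P1)) with hκd
  have hκ : ∀ c, B' / (2 * E') ≤ κ c := fun c =>
    kappa_low hB W R Y E' B' (E c) hW hR hE' hY hY2
      (fun e he => ⟨(hEok c e he).1, (hEok c e he).2.1⟩) hP1 hB0 (hs c)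
  have hκZ : ∀ c, al (E c) Y * ((X : ℝ) * Y / Nat.totient W) * Pm = κ c * Z := by
    intro c
    simp only [hκd, hZ]
    field_simp
  have hκκZ : ∀ c c', al (E c) Y * al (E c') Y *
        ((X : ℝ) * Y * W / (Nat.totient W : ℝ) ^ 2) * PI1 W R (m - 1) = κ c * κ c' * Z := by
    intro c c'
    have h3 : Pm = P1 * PI1 W R (m - 1) := hA W R m hm
    simp only [hκd, hZ]
    rw [h3]
    field_simp
  have hbad : (((SZ W m R X Y).filter (fun z => ¬ z.1.Coprime z.2)).card : ℝ) ≤ Z / 4 := by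
    refine (noncop W m R X Y (by omega)).trans ?_
    have h3 : 1 / Real.log R ^ (2 * B) ≤ P1 * Pm := by
      have h4 : 1 / Real.log R ^ (2 * B) = (1 / Real.log R ^ B) * (1 / Real.log R ^ B) := by
        rw [one_div_mul_one_div, two_mul, pow_add]
      rw [h4]
      have h5 : 0 ≤ 1 / Real.log R ^ B := by positivity
      exact mul_le_mul (hPm.trans hP1m) hPm h5 hP1.le
    have h6 : ((X : ℝ) * Y / W) * (1 / Real.log R ^ (2 * B)) ≤ Z :=
      mul_le_mul_of_nonneg_left h3 (by positivity)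
    have hl2 : 0 < Real.log (R : ℝ) ^ (2 * B) := by positivity
    have h7 : 4 * (X : ℝ) * Y / R ≤ ((X : ℝ) * Y / W) * (1 / Real.log R ^ (2 * B)) / 4 := by
      rw [div_mul_div_comm, div_div, div_le_div_iff₀ (by positivity) (by positivity)]
      push_cast at hlog
      have h8 : 0 < (X : ℝ) * Y := by positivity
      nlinarith [mul_le_mul_of_nonneg_left hlog h8.le]
    linarith
  obtain ⟨z, hzS, hzb, hz⟩ := pick hk hm (SZ W m R X Y)
    (fun i c => (SZ W m R X Y).filter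
      (fun z => inA W (E c) (z.2 - W * ((i : ℕ) + 1) * z.1))) κ Z ε (B' / (2 * E'))
    ((SZ W m R X Y).filter (fun z => ¬ z.1.Coprime z.2))
    (fun i c => Finset.filter_subset _ _) hZ0 hε0 hε hB' hκ
    (by have := (abs_le.mp h0).2; linarith) (by have := (abs_le.mp h0).1; linarith)
    (fun i c => by
      have := (abs_le.mp (h1 c i i.2)).1
      rw [hκZ] at this
      linarith)
    (fun i c => by
      have := (abs_le.mp (h1 c i i.2)).2
      rw [hκZ] at this
      linarith)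
    (fun i c i' c' hii => by
      have := h2 c c' i i' i.2 i'.2 (fun h => hii (Fin.ext h))
      rw [hκκZ, Finset.filter_and] at this
      exact this)
    hbad I c hI
  refine ⟨z, hzS, ?_, fun t => ?_⟩
  · by_contra hcon
    exact hzb (Finset.mem_filter.mpr ⟨hzS, hcon⟩)
  · obtain ⟨i, hi, hzi⟩ := hz t
    exact ⟨i, hi, (Finset.mem_filter.mp hzi).2⟩

end Pool.Agent.TH423.SH
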