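import Pool.Agent.TH423.SH.ShapeP

/-!
The shape lemma from the moment computations: final assembly (helper423).
-/

set_option autoImplicit false

open Finset

namespace Pool.Agent.TH423.SH

theorem mod_one_of_primes (M : ℕ) : ∀ e : ℕ, e ≠ 0 →
    (∀ p : ℕ, p.Prime → p ∣ e → p % M = 1 % M) → e % M = 1 % M := by
  intro e
  induction e using Nat.recOnMul with
  | zero => intro h; exact absurd rfl h
  | one => intro _ _; rfl
  | prime p hp => intro _ h; exact h p hp dvd_rfl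
  | mul a b iha ihb =>
    intro h0 h
    have ha := iha (left_ne_zero_of_mul h0) (fun p hp hd => h p hp (hd.mul_right _))
    have hb := ihb (right_ne_zero_of_mul h0) (fun p hp hd => h p hp (hd.mul_left _))
    have : a * b ≡ 1 * 1 [MOD M] := Nat.ModEq.mul ha hb
    rw [one_mul] at this
    exact this

theorem member (W M R H E' Y c : ℕ) (E : Finset ℕ) (hMW : M ∣ W)
    (hE : ∀ e ∈ E, Squarefree e ∧ ArithmeticFunction.cardFactors e = c + 1 ∧ e ≤ R ^ H ∧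
      ∀ p : ℕ, p.Prime → p ∣ e → R < p ∧ p % M = 1 % M)
    (hR : 1 ≤ R) (h8 : 8 * H ≤ E') (hE1 : 1 ≤ E') (hRY : R ^ E' ≤ Y) (hY : Y < R ^ (2 * E'))
    (hY4 : 4 ≤ Y) (n : ℕ) (hn : Y < 2 * n) (h : inA W E n) :
    Squarefree n ∧ ArithmeticFunction.cardFactors n = c + 2 ∧
      ∀ q : ℕ, q.Prime → q ∣ n → q % M = 1 % M ∧ Y < q ^ (2 * E') := by
  obtain ⟨hmod, e, he, q, hq, rfl⟩ := h
  obtain ⟨hsq, hΩ, heR, hep⟩ := hE e he
  have he0 : e ≠ 0 := hsq.ne_zero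
  have he8 : e ^ 8 ≤ Y := by
    calc e ^ 8 ≤ (R ^ H) ^ 8 := Nat.pow_le_pow_left heR 8
      _ = R ^ (8 * H) := by rw [← pow_mul, mul_comm]
      _ ≤ R ^ E' := Nat.pow_le_pow_right hR h8
      _ ≤ Y := hRY
  have he1 : 1 ≤ e := Nat.one_le_iff_ne_zero.mpr he0
  have hq2 : Y < q ^ 2 := by
    by_contra hcon
    push Not at hcon
    have h1 : Y ^ 2 < 4 * e ^ 2 * Y := by
      calc Y ^ 2 < (2 * (e * q)) ^ 2 := Nat.pow_lt_pow_left hn (by norm_num)
        _ = 4 * e ^ 2 * q ^ 2 := by ring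
        _ ≤ 4 * e ^ 2 * Y := Nat.mul_le_mul_left _ hcon
    have h2 : Y < 4 * e ^ 2 := by
      by_contra h3
      push Not at h3
      have : 4 * e ^ 2 * Y ≤ Y * Y := Nat.mul_le_mul_right _ h3
      nlinarith
    rcases Nat.lt_or_ge e 2 with h3 | h3
    · have : e = 1 := by omega
      subst this
      omega
    · have h4 : e ^ 8 = e ^ 2 * e ^ 6 := by ring
      have h5 : 2 ^ 6 ≤ e ^ 6 := Nat.pow_le_pow_left h3 6
      have h6 : 0 < e ^ 2 := by positivity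
      nlinarith
  have hqe : e < q := by
    by_contra hcon
    push Not at hcon
    have h1 : q ^ 2 ≤ e ^ 2 := Nat.pow_le_pow_left hcon 2
    have h2 : e ^ 2 ≤ e ^ 8 := Nat.pow_le_pow_right he1 (by norm_num)
    omega
  have hcop : e.Coprime q := by
    rw [Nat.coprime_comm, hq.coprime_iff_not_dvd]
    intro h
    exact absurd (Nat.le_of_dvd (by omega) h) (by omega)
  have he_mod : e % M = 1 % M := mod_one_of_primes M e he0 (fun p hp hd => (hep p hp hd).2)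
  have hq_mod : q % M = 1 % M := by
    have h1 : e * q ≡ 1 [MOD M] := Nat.ModEq.of_dvd hMW hmod
    have h2 : e * q ≡ 1 * q [MOD M] := Nat.ModEq.mul_right q he_mod
    have h3 := h2.symm.trans h1
    rw [one_mul] at h3
    exact h3
  refine ⟨?_, ?_, ?_⟩
  · rw [Nat.squarefree_mul hcop]
    exact ⟨hsq, hq.squarefree⟩
  · rw [ArithmeticFunction.cardFactors_mul he0 hq.ne_zero, hΩ,
      ArithmeticFunction.cardFactors_apply_prime hq]
  · intro p hp hpd
    rcases (Nat.Prime.dvd_mul hp).mp hpd with h | h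
    · have := hep p hp h
      refine ⟨this.2, hY.trans_le ?_⟩
      exact Nat.pow_le_pow_left this.1.le _
    · have hpq : p = q := (Nat.prime_dvd_prime_iff_eq hp hq).mp h
      subst hpq
      refine ⟨hq_mod, hq2.trans_le ?_⟩
      exact Nat.pow_le_pow_right hp.pos (by omega)

open Classical in
theorem shp (h0 : S0P) (h1 : S1P) (h2 : S2P) (hG : GRP) (hA : PRA) (hB : PRB) (hC : PRC) :
    SHP := by
  intro k M hk hM
  obtain ⟨C0, hC0, H0⟩ := h0
  obtain ⟨C1, hC1, H1⟩ := h1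
  obtain ⟨C2, hC2, H2⟩ := h2
  obtain ⟨C, hCd⟩ : ∃ C, C = C0 + C1 + C2 + 2 := ⟨_, rfl⟩
  obtain ⟨H, J₀, HG⟩ := hG M k (128 * k * (C ^ 2 + 1)) hM
  obtain ⟨m, hmd⟩ : ∃ m, m = k + 10 + 8 * H := ⟨_, rfl⟩
  obtain ⟨b, hbd⟩ : ∃ b, b = C * (m + 1) := ⟨_, rfl⟩
  obtain ⟨E', hE'd⟩ : ∃ E', E' = C * b + 8 * H := ⟨_, rfl⟩
  have hm1 : 1 ≤ m := by omega
  have hCpos : 1 ≤ C := by omega
  have hb1 : m + 1 ≤ b := by rw [hbd]; exact Nat.le_mul_of_pos_left _ hCpos
  have hE1 : 1 ≤ E' := by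
    have : 1 ≤ C * b := Nat.mul_pos hCpos (by omega)
    omega
  have hprW₀ : ∀ p : ℕ, p.Prime → p ≤ C * (m + 1) → p ∣ M * (C * (m + 1)).factorial :=
    fun p hp hle => ((hp.dvd_factorial).mpr hle).mul_left _
  refine ⟨m, M * (C * (m + 1)).factorial, 2 * E', hm1, ?_, by omega, ?_, ?_⟩
  · exact Nat.mul_pos hM (Nat.factorial_pos _)
  · intro p hp hle
    refine hprW₀ p hp (hle.trans ?_)
    calc m ≤ m + 1 := Nat.le_succ _
      _ ≤ C * (m + 1) := Nat.le_mul_of_pos_left _ hCpos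
  intro W hW0 hW1
  have hMW : M ∣ W := (dvd_mul_right M _).trans hW0
  have hprW : ∀ p : ℕ, p.Prime → p ≤ C * (m + 1) → p ∣ W :=
    fun p hp hle => (hprW₀ p hp hle).trans hW0
  have hprW' : ∀ c : ℕ, c ≤ C → ∀ p : ℕ, p.Prime → p ≤ c * (m + 1) → p ∣ W :=
    fun c hc p hp hle => hprW p hp (hle.trans (Nat.mul_le_mul_right _ hc))
  obtain ⟨K, hKd⟩ : ∃ K, K = W * m * 2 ^ (b + 4) := ⟨_, rfl⟩
  obtain ⟨Y0, H0'⟩ := H0 m b W K hm1
    (by rw [hbd]; exact Nat.mul_le_mul_right _ (by omega)) hW1 (hprW' C0 (by omega)) hKd.ge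
  obtain ⟨Y1, H1'⟩ := H1 m b W K hm1
    (by rw [hbd]; exact Nat.mul_le_mul_right _ (by omega)) hW1 (hprW' C1 (by omega)) hKd.ge
  obtain ⟨Y2, H2'⟩ := H2 m b W K hm1
    (by rw [hbd]; exact Nat.mul_le_mul_right _ (by omega)) hW1 (hprW' C2 (by omega)) hKd.ge
  obtain ⟨B, R₀, hPRC⟩ := hC m W hW1 (hprW' 2 (by omega))
  obtain ⟨R₁, hR₁⟩ := log_pow_le (2 * B) (16 * W)
  -- the scale
  obtain ⟨J₁, hJ₁⟩ : ∃ J₁, J₁ = J₀ + R₀ + R₁ + W := ⟨_, rfl⟩
  refine ⟨Y0 + Y1 + Y2 + (2 ^ 2 ^ J₁) ^ E' + K + 4, fun Y hY I c hI => ?_⟩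
  obtain ⟨J, hJJ₁, hRY, hYR⟩ := exJ E' J₁ hE1 Y (by omega)
  obtain ⟨R, hRd⟩ : ∃ R, R = 2 ^ 2 ^ J := ⟨_, rfl⟩
  have hRbig : J < R := by
    rw [hRd]
    exact (Nat.lt_two_pow_self).trans (Nat.pow_lt_pow_right (by norm_num) Nat.lt_two_pow_self)
  have hR2 : 2 ≤ R := by
    rw [hRd]
    calc 2 = 2 ^ 1 := rfl
      _ ≤ 2 ^ 2 ^ J := Nat.pow_le_pow_right (by norm_num) Nat.one_le_two_pow
  have hRpow : ∀ c : ℕ, c ≤ C → R ^ (c * b) ≤ Y := by
    intro c' hc'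
    refine (Nat.pow_le_pow_right (by omega) ?_).trans (hRd ▸ hRY)
    rw [hE'd]
    exact (Nat.mul_le_mul_right _ hc').trans (Nat.le_add_right _ _)
  choose E hE hEs using fun c : Fin k => HG J (by omega) c c.2
  have hEok : ∀ c, okE W R Y (E c) := by
    intro c e he
    obtain ⟨hsq, hΩ, heR, hep⟩ := hE c e he
    refine ⟨Nat.one_le_iff_ne_zero.mpr hsq.ne_zero, ?_, ?_, ?_⟩
    · calc e ^ 8 ≤ (R ^ H) ^ 8 := Nat.pow_le_pow_left (hRd ▸ heR) 8
        _ = R ^ (8 * H) := by rw [← pow_mul, mul_comm]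
        _ ≤ R ^ E' := Nat.pow_le_pow_right (by omega) (by omega)
        _ ≤ Y := hRd ▸ hRY
    · rw [Nat.coprime_iff_gcd_eq_one]
      by_contra hcon
      obtain ⟨p, hp, hpd⟩ := Nat.exists_prime_and_dvd hcon
      have h3 := (hep p hp (hpd.trans (Nat.gcd_dvd_left _ _))).1
      rw [← hRd] at h3
      have h4 := Nat.le_of_dvd hW1 (hpd.trans (Nat.gcd_dvd_right _ _))
      omega
    · intro p hp hpe
      unfold PS at hp
      rw [Finset.mem_filter, Finset.mem_Icc] at hp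
      have h3 := (hep p hp.2.1 hpe).1
      rw [← hRd] at h3
      omega
  have hkR : (1 : ℝ) ≤ k := by exact_mod_cast hk
  have hCR : (1 : ℝ) ≤ C := by exact_mod_cast hCpos
  have hmR : (1 : ℝ) ≤ m := by exact_mod_cast hm1
  have hE'R : (1 : ℝ) ≤ E' := by exact_mod_cast hE1
  have hε : (16 * (1 / 2 : ℝ) ^ b) * (64 * k) ≤ 1 := by
    have h3 : 1024 * k ≤ 2 ^ b := by
      calc 1024 * k ≤ 2 ^ 10 * 2 ^ k := Nat.mul_le_mul (by norm_num) (Nat.lt_two_pow_self).le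
        _ = 2 ^ (10 + k) := (pow_add _ _ _).symm
        _ ≤ 2 ^ b := Nat.pow_le_pow_right (by norm_num) (by omega)
    have h4 : (1024 * k : ℝ) ≤ 2 ^ b := by exact_mod_cast h3
    rw [one_div, inv_pow]
    have h5 : (0 : ℝ) < 2 ^ b := by positivity
    have h6 : 16 * ((2 : ℝ) ^ b)⁻¹ * (64 * k) = (1024 * k) / 2 ^ b := by ring
    rw [h6, div_le_one h5]
    exact h4
  have hB' : (32 : ℝ) * k ≤ (128 * k * ((C : ℝ) ^ 2 + 1)) / (2 * E') * m := by
    have h3 : E' ≤ 2 * (C ^ 2 + 1) * m := by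
      rw [hE'd, hbd]
      have : C * (C * (m + 1)) = C ^ 2 * (m + 1) := by ring
      rw [this]
      have h4 : C ^ 2 * (m + 1) ≤ C ^ 2 * (2 * m) := Nat.mul_le_mul_left _ (by omega)
      have h5 : 8 * H ≤ 2 * m := by omega
      nlinarith
    have h4 : (E' : ℝ) ≤ 2 * ((C : ℝ) ^ 2 + 1) * m := by exact_mod_cast h3
    rw [div_mul_eq_mul_div, le_div_iff₀ (by positivity)]
    nlinarith
  obtain ⟨z, hzS, hzc, hz⟩ := core hA hB hk hm1 W R (Y / K) Y E' B (16 * (1 / 2 : ℝ) ^ b)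
    (128 * k * ((C : ℝ) ^ 2 + 1)) E hW1
    (fun p hp hle => hprW p hp (hle.trans (by
      calc m ≤ m + 1 := Nat.le_succ _
        _ ≤ C * (m + 1) := Nat.le_mul_of_pos_left _ hCpos)))
    hR2 (Nat.div_pos (by omega) (by rw [hKd]; positivity)) hE1 (hRd ▸ hYR) (by omega) hEok
    (by positivity) hε (hPRC R (by omega)) (hR₁ R (by omega)) (by positivity) hB'
    (fun c => by have := hEs c; push_cast at this; exact this)
    (by rw [hRd]; exact H0' Y J (by omega) (hRd ▸ hRpow C0 (by omega)))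
    (fun c i hi => by
      have hok := hEok c
      rw [hRd] at hok ⊢
      exact H1' Y J (by omega) (hRd ▸ hRpow C1 (by omega)) (E c) i hok hi)
    (fun c c' i i' hi hi' hne => by
      have hok := hEok c
      have hok' := hEok c'
      rw [hRd] at hok hok' ⊢
      exact H2' Y J (by omega) (hRd ▸ hRpow C2 (by omega)) (E c) (E c') i i' hok hok' hi hi' hne)
    I c hI
  unfold SZ at hzS
  rw [Finset.mem_filter, Finset.mem_product, Finset.mem_Ioc, Finset.mem_Ioc] at hzS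
  obtain ⟨⟨⟨hx1, hx2⟩, hy1, hy2⟩, hmod, -⟩ := hzS
  have hXK : W * m * 16 * (Y / K) ≤ Y := by
    calc W * m * 16 * (Y / K) ≤ K * (Y / K) := by
          apply Nat.mul_le_mul_right
          rw [hKd]
          apply Nat.mul_le_mul_left
          calc 16 = 2 ^ 4 := rfl
            _ ≤ 2 ^ (b + 4) := Nat.pow_le_pow_right (by norm_num) (by omega)
      _ ≤ Y := Nat.mul_div_le _ _
  have hWm1 : 1 ≤ W * m := Nat.mul_pos hW1 hm1
  have hWmx : W * m * z.1 ≤ W * m * (2 * (Y / K)) := Nat.mul_le_mul_left _ hx2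
  have hWmx8 : 8 * (W * m * z.1) ≤ Y := by
    calc 8 * (W * m * z.1) ≤ 8 * (W * m * (2 * (Y / K))) := Nat.mul_le_mul_left _ hWmx
      _ = W * m * 16 * (Y / K) := by ring
      _ ≤ Y := hXK
  have hx0 : 0 < z.1 := by omega
  refine ⟨z.1, z.2, hx0, ?_, hy1, hy2, hmod, hzc, ?_, fun t => ?_⟩
  · have : z.1 ≤ W * m * z.1 := Nat.le_mul_of_pos_left _ hWm1
    omega
  · have : 2 * W * m * z.1 = 2 * (W * m * z.1) := by ring
    omega
  · obtain ⟨i, hi, hin⟩ := hz t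
    have hWi : W * ((i : ℕ) + 1) * z.1 ≤ W * m * z.1 :=
      Nat.mul_le_mul_right _ (Nat.mul_le_mul_left _ i.2)
    have := member W M R H E' Y (c t i) (E (c t i)) hMW
      (fun e he => by have := hE (c t i) e he; rw [← hRd] at this; exact this) (by omega)
      (by omega) hE1 (hRd ▸ hRY) (hRd ▸ hYR) (by omega) _ (by omega) hin
    exact ⟨i, hi, this.1, this.2.1, this.2.2⟩

end Pool.Agent.TH423.SH
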